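import Pool.Agent.WVal.Basic

/-!
The rational case `m d ≡ c p^s`.
-/

set_option autoImplicit false

namespace Pool.Agent.WVal

open Finset

/-- swapping `d` and its inverse -/
theorem swap (p n : ℕ) (hp : 2 ≤ p) (hn : 1 ≤ n) (d e : ℤ) (hde : ((p : ℤ) ^ n - 1) ∣ e * d - 1)
    (B : ℝ)
    (h : ∃ z : ℤ, ¬ ((p : ℤ) ^ n - 1) ∣ z ∧ S p n z + S p n (-(e * z)) ≤ B) :
    ∃ z : ℤ, ¬ ((p : ℤ) ^ n - 1) ∣ z ∧ S p n z + S p n (-(d * z)) ≤ B := by
  obtain ⟨z, hz, hS⟩ := h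
  refine ⟨-(e * z), ?_, ?_⟩
  · intro hd
    apply hz
    have h1 : ((p : ℤ) ^ n - 1) ∣ d * (-(e * z)) := Dvd.dvd.mul_left hd d
    have h2 : ((p : ℤ) ^ n - 1) ∣ (e * d - 1) * z := Dvd.dvd.mul_right hde z
    have h3 := dvd_add h1 h2
    have e1 : d * (-(e * z)) + (e * d - 1) * z = -z := by ring
    rw [e1] at h3
    exact (dvd_neg).1 h3
  · have e1 : S p n (-(d * (-(e * z)))) = S p n z := by
      apply S_congr p n hp hn
      have h2 : ((p : ℤ) ^ n - 1) ∣ (e * d - 1) * z := Dvd.dvd.mul_right hde z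
      have e2 : -(d * (-(e * z))) - z = (e * d - 1) * z := by ring
      rw [e2]; exact h2
    rw [e1]
    linarith

/-- the one-dimensional core -/
theorem core (C : ℕ) (q m c : ℕ) (hm : 1 ≤ m) (hmc : m < c) (hcC : c ≤ C) (hq : C ^ 2 + C + 1 ≤ q) :
    ∃ a : ℤ, ¬ (q : ℤ) ∣ (m : ℤ) * a ∧
      Int.fract (((m : ℝ) * (a : ℝ)) / (q : ℝ)) + Int.fract (-((c : ℝ) * (a : ℝ)) / (q : ℝ)) ≤
        1 / 2 + (C : ℝ) / (q : ℝ) := by
  have hc0 : 0 < c := by omega
  have hcq : c ^ 2 + c + 1 ≤ q := le_trans (by nlinarith) hq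
  have hq0 : 0 < q := by omega
  have hqR : (0 : ℝ) < q := by exact_mod_cast hq0
  set a₁ := (q - 1) / c with ha₁
  have h1 : a₁ * c ≤ q - 1 := Nat.div_mul_le_self _ _
  have h2 : q - 1 < (a₁ + 1) * c := by
    have h := Nat.div_add_mod (q - 1) c
    have h' := Nat.mod_lt (q - 1) hc0
    rw [add_mul, one_mul]
    nlinarith
  have ha₁1 : 1 ≤ a₁ := by
    rw [ha₁, Nat.one_le_div_iff hc0]
    omega
  set b := q / c + 1 with hb
  have h3 : q < b * c := by
    have h := Nat.div_add_mod q c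
    have h' := Nat.mod_lt q hc0
    rw [hb, add_mul, one_mul]
    nlinarith
  have h4 : (b - 1) * c ≤ q := by
    rw [hb, Nat.add_sub_cancel]
    exact Nat.div_mul_le_self _ _
  have hb1 : 1 ≤ b := by rw [hb]; exact Nat.le_add_left _ _
  have h4' : b * c ≤ q + c := by
    have : b * c = (b - 1) * c + c := by
      conv_lhs => rw [← Nat.sub_add_cancel hb1, add_mul, one_mul]
    omega
  have hbc : c < b := by
    rw [hb]
    have : c ≤ q / c := by
      rw [Nat.le_div_iff_mul_le hc0]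
      nlinarith
    omega
  have hba : b ≤ a₁ + 2 := by
    have h5 : (b - 1) * c < (a₁ + 1) * c + 1 := by omega
    have h6 : (b - 1) * c ≤ (a₁ + 1) * c := by omega
    have h7 := Nat.le_of_mul_le_mul_right h6 hc0
    omega
  have hmb : m * b < q := by
    have : m * b + b ≤ c * b := by
      calc m * b + b = (m + 1) * b := by ring
        _ ≤ c * b := Nat.mul_le_mul_right _ hmc
    have : c * b ≤ q + c := by rw [mul_comm]; exact h4'
    omega
  have hma : m * a₁ < q := by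
    have : m * a₁ ≤ c * a₁ := Nat.mul_le_mul_right _ hmc.le
    have : c * a₁ = a₁ * c := mul_comm _ _
    omega
  -- T₁
  have T1 : Int.fract (((m : ℝ) * ((a₁ : ℤ) : ℝ)) / (q : ℝ)) +
      Int.fract (-((c : ℝ) * ((a₁ : ℤ) : ℝ)) / (q : ℝ)) = 1 - ((c : ℝ) - m) * a₁ / q := by
    have e1 : Int.fract (((m : ℝ) * ((a₁ : ℤ) : ℝ)) / (q : ℝ)) = (m : ℝ) * a₁ / q := by
      rw [Int.cast_natCast, Int.fract_eq_self]
      refine ⟨by positivity, ?_⟩
      rw [div_lt_one hqR]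
      exact_mod_cast hma
    have e2 : Int.fract (-((c : ℝ) * ((a₁ : ℤ) : ℝ)) / (q : ℝ)) = 1 - (c : ℝ) * a₁ / q := by
      have : -((c : ℝ) * ((a₁ : ℤ) : ℝ)) / (q : ℝ) = (1 - (c : ℝ) * a₁ / q) + ((-1 : ℤ) : ℝ) := by
        push_cast; ring
      rw [this, Int.fract_add_intCast, Int.fract_eq_self]
      have hca : (c : ℝ) * a₁ < q := by
        have : c * a₁ < q := by
          have : c * a₁ = a₁ * c := mul_comm _ _
          omega
        exact_mod_cast this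
      refine ⟨?_, ?_⟩
      · rw [sub_nonneg, div_le_one hqR]; exact hca.le
      · have : 0 < (c : ℝ) * a₁ / q := by
          have : (0 : ℝ) < c := by exact_mod_cast hc0
          have : (0 : ℝ) < a₁ := by exact_mod_cast ha₁1
          positivity
        linarith
    rw [e1, e2]
    ring
  have T2 : Int.fract (((m : ℝ) * ((-(b : ℤ) : ℤ) : ℝ)) / (q : ℝ)) +
      Int.fract (-((c : ℝ) * ((-(b : ℤ) : ℤ) : ℝ)) / (q : ℝ)) = ((c : ℝ) - m) * b / q := by
    have e1 : Int.fract (((m : ℝ) * ((-(b : ℤ) : ℤ) : ℝ)) / (q : ℝ)) = 1 - (m : ℝ) * b / q := by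
      have : ((m : ℝ) * ((-(b : ℤ) : ℤ) : ℝ)) / (q : ℝ) = (1 - (m : ℝ) * b / q) + ((-1 : ℤ) : ℝ) := by
        push_cast; ring
      rw [this, Int.fract_add_intCast, Int.fract_eq_self]
      have hmbR : (m : ℝ) * b < q := by exact_mod_cast hmb
      refine ⟨?_, ?_⟩
      · rw [sub_nonneg, div_le_one hqR]; exact hmbR.le
      · have : 0 < (m : ℝ) * b / q := by
          have : (0 : ℝ) < m := by exact_mod_cast hm
          have : (0 : ℝ) < b := by exact_mod_cast hb1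
          positivity
        linarith
    have e2 : Int.fract (-((c : ℝ) * ((-(b : ℤ) : ℤ) : ℝ)) / (q : ℝ)) = (c : ℝ) * b / q - 1 := by
      have : -((c : ℝ) * ((-(b : ℤ) : ℤ) : ℝ)) / (q : ℝ) = ((c : ℝ) * b / q - 1) + ((1 : ℤ) : ℝ) := by
        push_cast; ring
      rw [this, Int.fract_add_intCast, Int.fract_eq_self]
      refine ⟨?_, ?_⟩
      · rw [sub_nonneg, one_le_div hqR]
        have : q ≤ c * b := by rw [mul_comm]; exact h3.le
        exact_mod_cast this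
      · have h8 : (c : ℝ) * b < 2 * q := by
          have : c * b < 2 * q := by
            have : c * b ≤ q + c := by rw [mul_comm]; exact h4'
            nlinarith
          exact_mod_cast this
        have : (c : ℝ) * b / q < 2 := by rw [div_lt_iff₀ hqR]; exact h8
        linarith
    rw [e1, e2]
    ring
  have hsum : (1 - ((c : ℝ) - m) * a₁ / q) + ((c : ℝ) - m) * b / q ≤ 1 + 2 * (C : ℝ) / q := by
    have hba' : (b : ℝ) ≤ a₁ + 2 := by exact_mod_cast hba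
    have hcm : (0 : ℝ) ≤ (c : ℝ) - m := by
      have : (m : ℝ) ≤ c := by exact_mod_cast hmc.le
      linarith
    have hcC' : (c : ℝ) - m ≤ C := by
      have : (c : ℝ) ≤ C := by exact_mod_cast hcC
      have : (0 : ℝ) ≤ m := by positivity
      linarith
    have : ((c : ℝ) - m) * b / q - ((c : ℝ) - m) * a₁ / q ≤ 2 * (C : ℝ) / q := by
      rw [← sub_div, ← mul_sub]
      apply div_le_div_of_nonneg_right _ hqR.le
      calc ((c : ℝ) - m) * (b - a₁) ≤ (C : ℝ) * 2 := by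
            apply mul_le_mul hcC' (by linarith) _ (by positivity)
            have : (a₁ : ℝ) ≤ b := by
              have : a₁ ≤ b := by
                have : a₁ ≤ q / c := Nat.div_le_div_right (by omega)
                omega
              exact_mod_cast this
            linarith
        _ = 2 * C := by ring
    linarith
  have hC2 : 2 * (C : ℝ) / q = 2 * ((C : ℝ) / q) := by ring
  rcases le_total (1 - ((c : ℝ) - m) * a₁ / q) (((c : ℝ) - m) * b / q) with hle | hle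
  · refine ⟨(a₁ : ℤ), ?_, ?_⟩
    · intro hd
      have h9 : (q : ℕ) ∣ m * a₁ := by exact_mod_cast hd
      have := Nat.le_of_dvd (by positivity) h9
      omega
    · rw [T1]; linarith
  · refine ⟨-(b : ℤ), ?_, ?_⟩
    · intro hd
      rw [mul_neg, dvd_neg] at hd
      have h9 : (q : ℕ) ∣ m * b := by exact_mod_cast hd
      have := Nat.le_of_dvd (by positivity) h9
      omega
    · rw [T2]; linarith

/-- `S` of a multiple of `(p^n-1)/(p-1)`. -/
theorem S_repunit (p n : ℕ) (hp : 2 ≤ p) (hn : 1 ≤ n) (k : ℤ) :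
    S p n (k * ∑ i ∈ range n, (p : ℤ) ^ i) = n * Int.fract ((k : ℝ) / ((p : ℝ) - 1)) := by
  have hN := N_pos p n hp hn
  have hp1 : (0 : ℝ) < (p : ℝ) - 1 := by
    have : (2 : ℝ) ≤ (p : ℝ) := by exact_mod_cast hp
    linarith
  rw [S_eq]
  have : ∀ i ∈ range n, Int.fract ((((p : ℤ) ^ i * (k * ∑ i ∈ range n, (p : ℤ) ^ i) : ℤ) : ℝ) /
      ((p : ℝ) ^ n - 1)) = Int.fract ((k : ℝ) / ((p : ℝ) - 1)) := by
    intro i _
    have hg := geom_sum_mul (p : ℝ) n
    have hgi := geom_sum_mul (p : ℝ) i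
    have e : (((p : ℤ) ^ i * (k * ∑ i ∈ range n, (p : ℤ) ^ i) : ℤ) : ℝ) / ((p : ℝ) ^ n - 1) =
        (k : ℝ) / ((p : ℝ) - 1) + ((k * ∑ j ∈ range i, (p : ℤ) ^ j : ℤ) : ℝ) := by
      push_cast
      have hs : ∑ j ∈ range n, (p : ℝ) ^ j = ((p : ℝ) ^ n - 1) / ((p : ℝ) - 1) := by
        rw [eq_div_iff hp1.ne']; exact hg
      have hs' : ∑ j ∈ range i, (p : ℝ) ^ j = ((p : ℝ) ^ i - 1) / ((p : ℝ) - 1) := by
        rw [eq_div_iff hp1.ne']; exact hgi
      rw [hs, hs']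
      field_simp
      ring
    rw [e, Int.fract_add_intCast]
  rw [Finset.sum_congr rfl this]
  simp

/-- the case `m d ≡ c`, `m < c` -/
theorem case_lt (C : ℕ) (p n : ℕ) (hp : 2 ≤ p) (hn : 1 ≤ n) (hpC : C ^ 2 + C + 2 ≤ p)
    (d : ℤ) (m c : ℕ) (hm : 1 ≤ m) (hmc : m < c) (hcC : c ≤ C)
    (h : ((p : ℤ) ^ n - 1) ∣ (m : ℤ) * d - c) :
    ∃ z : ℤ, ¬ ((p : ℤ) ^ n - 1) ∣ z ∧
      S p n z + S p n (-(d * z)) ≤ (1 / 2 + (C : ℝ) / ((p : ℝ) - 1)) * n := by
  obtain ⟨a, ha, haS⟩ := core C (p - 1) m c hm hmc hcC (by omega)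
  have hp1 : ((p - 1 : ℕ) : ℤ) = (p : ℤ) - 1 := by push_cast [Nat.cast_sub (by omega : 1 ≤ p)]; ring
  have hp1R : ((p - 1 : ℕ) : ℝ) = (p : ℝ) - 1 := by push_cast [Nat.cast_sub (by omega : 1 ≤ p)]; ring
  set R : ℤ := ∑ i ∈ range n, (p : ℤ) ^ i with hR
  have hRN : R * ((p : ℤ) - 1) = (p : ℤ) ^ n - 1 := geom_sum_mul (p : ℤ) n
  have hR0 : R ≠ 0 := by
    intro h0
    have := NZ_pos p n hp hn
    rw [← hRN, h0, zero_mul] at this
    exact lt_irrefl _ this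
  refine ⟨(m * a) * R, ?_, ?_⟩
  · rw [← hRN, mul_comm (m * a : ℤ) R, mul_dvd_mul_iff_left hR0, ← hp1]
    exact ha
  · have e1 := S_repunit p n hp hn (m * a)
    have e2 : S p n (-(d * (m * a * R))) = n * Int.fract (((-(c * a) : ℤ) : ℝ) / ((p : ℝ) - 1)) := by
      rw [← S_repunit p n hp hn, ← hR]
      apply S_congr p n hp hn
      have e3 : -(d * (m * a * R)) - -(c * a) * R = -(a * R) * ((m : ℤ) * d - c) := by ring
      rw [e3]
      exact Dvd.dvd.mul_left h _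
    rw [← hR] at e1
    rw [e1, e2, ← mul_add, mul_comm]
    apply mul_le_mul_of_nonneg_right _ (by positivity)
    rw [hp1R] at haS
    push_cast
    exact haS

/-- the torsion case -/
theorem case_eq (p n : ℕ) (hp : 2 ≤ p) (hn : 1 ≤ n) (d : ℤ) (m : ℕ) (hm : 1 ≤ m)
    (hpm : m ^ 2 + 3 ≤ p) (h : ((p : ℤ) ^ n - 1) ∣ (m : ℤ) * d - m)
    (hd : ¬ ((p : ℤ) ^ n - 1) ∣ d - 1) :
    ∃ z : ℤ, ¬ ((p : ℤ) ^ n - 1) ∣ z ∧ S p n z + S p n (-(d * z)) ≤ (n : ℝ) / 2 := by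
  have hN := N_pos p n hp hn
  have hNZ := NZ_pos p n hp hn
  have hpR : ((m : ℝ) ^ 2 + 3) ≤ p := by exact_mod_cast hpm
  have hmR : (1 : ℝ) ≤ m := by exact_mod_cast hm
  have hm2 : 2 ≤ m := by
    by_contra hcon
    have : m = 1 := by omega
    subst this
    apply hd
    simpa using h
  have hm2R : (2 : ℝ) ≤ m := by exact_mod_cast hm2
  set D : ℤ := d - 1 with hD
  have hmD : ((p : ℤ) ^ n - 1) ∣ (m : ℤ) * D := by
    have : (m : ℤ) * D = (m : ℤ) * d - m := by rw [hD]; ring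
    rw [this]; exact h
  -- θ_i
  set θ : ℕ → ℝ := fun i => (p : ℝ) ^ i / ((p : ℝ) ^ n - 1) with hθ
  set x : ℕ → ℝ := fun i => (((p : ℤ) ^ i * D : ℤ) : ℝ) / ((p : ℝ) ^ n - 1) with hx
  have hθ0 : ∀ i, 0 < θ i := fun i => by
    simp only [hθ]
    have : (0 : ℝ) < p := by nlinarith
    positivity
  have hθ1 : ∀ i, i < n → θ i * m ^ 2 < 1 := by
    intro i hi
    have hp0 : (0 : ℝ) < p := by nlinarith
    have h1 : θ i ≤ 1 / ((p : ℝ) - 1) := by
      simp only [hθ]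
      rw [div_le_div_iff₀ hN (by nlinarith), one_mul]
      have h2 : (p : ℝ) ^ i ≤ (p : ℝ) ^ (n - 1) :=
        pow_le_pow_right₀ (by nlinarith) (by omega)
      have h3 : (p : ℝ) ^ n = (p : ℝ) ^ (n - 1) * p := by
        rw [← pow_succ, Nat.sub_add_cancel hn]
      have h4 : (1 : ℝ) ≤ (p : ℝ) ^ (n - 1) := one_le_pow₀ (by nlinarith)
      rw [h3]
      nlinarith
    calc θ i * m ^ 2 ≤ 1 / ((p : ℝ) - 1) * m ^ 2 := by gcongr
      _ < 1 := by
        rw [one_div, inv_mul_lt_iff₀ (by nlinarith)]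
        nlinarith
  -- κ_i
  have hκ : ∀ i, 1 / (m : ℝ) ≤ Int.fract (x i) ∧ Int.fract (x i) ≤ 1 - 1 / (m : ℝ) := by
    intro i
    have hmx : ∃ k : ℤ, (m : ℝ) * x i = k := by
      obtain ⟨k, hk⟩ := hmD
      refine ⟨(p : ℤ) ^ i * k, ?_⟩
      simp only [hx]
      have : ((m : ℝ)) * D = ((p : ℝ) ^ n - 1) * k := by exact_mod_cast hk
      push_cast
      rw [mul_div_assoc', div_eq_iff hN.ne']
      linear_combination (p : ℝ) ^ i * this
    obtain ⟨k, hk⟩ := hmx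
    have hmf : (m : ℝ) * Int.fract (x i) = ((k - m * ⌊x i⌋ : ℤ) : ℝ) := by
      rw [Int.fract]; push_cast; linear_combination hk
    have hpos : 0 < Int.fract (x i) := by
      rcases (Int.fract_nonneg (x i)).lt_or_eq with h0 | h0
      · exact h0
      · exfalso
        have h1 : x i = ⌊x i⌋ := by
          have := Int.self_sub_floor (x i)
          linarith
        apply not_dvd_pow_mul p n hn D hd i
        refine ⟨⌊x i⌋, ?_⟩
        have h2 : (((p : ℤ) ^ i * D : ℤ) : ℝ) = ((p : ℝ) ^ n - 1) * ⌊x i⌋ := by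
          rw [← h1]
          simp only [hx]
          field_simp
        have h3 : (((p : ℤ) ^ i * D : ℤ) : ℝ) = ((((p : ℤ) ^ n - 1) * ⌊x i⌋ : ℤ) : ℝ) := by
          rw [h2]; push_cast; ring
        exact_mod_cast h3
    have hlt := Int.fract_lt_one (x i)
    have h5 : (1 : ℤ) ≤ k - m * ⌊x i⌋ := by
      have : (0 : ℝ) < ((k - m * ⌊x i⌋ : ℤ) : ℝ) := by rw [← hmf]; positivity
      have : 0 < k - m * ⌊x i⌋ := by exact_mod_cast this
      omega
    have h6 : k - m * ⌊x i⌋ ≤ (m : ℤ) - 1 := by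
      have : ((k - m * ⌊x i⌋ : ℤ) : ℝ) < ((m : ℤ) : ℝ) := by
        rw [← hmf]; push_cast; nlinarith
      have : k - m * ⌊x i⌋ < (m : ℤ) := by exact_mod_cast this
      omega
    have h5' : (1 : ℝ) ≤ (m : ℝ) * Int.fract (x i) := by rw [hmf]; exact_mod_cast h5
    have h6' : (m : ℝ) * Int.fract (x i) ≤ (m : ℝ) - 1 := by rw [hmf]; exact_mod_cast h6
    constructor
    · rw [div_le_iff₀ (by linarith)]; linarith
    · rw [le_sub_iff_add_le, ← le_sub_iff_add_le']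
      rw [div_le_iff₀ (by linarith)]
      linarith
  have hinvm : (0 : ℝ) < 1 / m := by positivity
  -- z = 1
  have hS1 : S p n 1 + S p n (-(d * 1)) = ∑ i ∈ range n, (1 - Int.fract (x i)) := by
    rw [S_eq, S_eq, ← Finset.sum_add_distrib]
    refine Finset.sum_congr rfl fun i hi => ?_
    have hi' := Finset.mem_range.1 hi
    have h1 := hθ1 i hi'
    have h0 := hθ0 i
    have hsmall : θ i < 1 / m := by
      rw [lt_div_iff₀ (by linarith)]
      nlinarith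
    have e1 : (((p : ℤ) ^ i * 1 : ℤ) : ℝ) / ((p : ℝ) ^ n - 1) = θ i := by
      simp only [hθ]; push_cast; ring
    have e2 : (((p : ℤ) ^ i * (-(d * 1)) : ℤ) : ℝ) / ((p : ℝ) ^ n - 1) =
        (1 - Int.fract (x i) - θ i) + ((-⌊x i⌋ - 1 : ℤ) : ℝ) := by
      have : Int.fract (x i) = x i - ⌊x i⌋ := rfl
      rw [this]
      simp only [hθ, hx, hD]
      push_cast
      ring
    rw [e1, e2, Int.fract_add_intCast, Int.fract_eq_self.2, Int.fract_eq_self.2]
    · ring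
    · constructor
      · linarith [(hκ i).2]
      · linarith [(hκ i).1]
    · constructor
      · exact h0.le
      · have : 1 / (m : ℝ) ≤ 1 := by rw [div_le_one (by linarith)]; linarith
        linarith
  have hS2 : S p n ((m : ℤ) - 1) + S p n (-(d * ((m : ℤ) - 1))) = ∑ i ∈ range n, Int.fract (x i) := by
    obtain ⟨k, hk⟩ := hmD
    have hkR : ((m : ℝ)) * D = ((p : ℝ) ^ n - 1) * k := by exact_mod_cast hk
    rw [S_eq, S_eq, ← Finset.sum_add_distrib]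
    refine Finset.sum_congr rfl fun i hi => ?_
    have hi' := Finset.mem_range.1 hi
    have h1 := hθ1 i hi'
    have h0 := hθ0 i
    have hsmall : ((m : ℝ) - 1) * θ i < 1 / m := by
      rw [lt_div_iff₀ (by linarith)]
      nlinarith
    have hmθ : 0 ≤ ((m : ℝ) - 1) * θ i := mul_nonneg (by linarith) h0.le
    have e1 : (((p : ℤ) ^ i * ((m : ℤ) - 1) : ℤ) : ℝ) / ((p : ℝ) ^ n - 1) = ((m : ℝ) - 1) * θ i := by
      simp only [hθ]; push_cast; ring
    have e2 : (((p : ℤ) ^ i * (-(d * ((m : ℤ) - 1))) : ℤ) : ℝ) / ((p : ℝ) ^ n - 1) =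
        (Int.fract (x i) - ((m : ℝ) - 1) * θ i) + ((⌊x i⌋ - (p : ℤ) ^ i * k : ℤ) : ℝ) := by
      have : Int.fract (x i) = x i - ⌊x i⌋ := rfl
      rw [this]
      simp only [hθ, hx]
      have hdD : (d : ℝ) = D + 1 := by rw [hD]; push_cast; ring
      push_cast
      rw [hdD]
      field_simp
      linear_combination (-(p : ℝ) ^ i) * hkR
    rw [e1, e2, Int.fract_add_intCast, Int.fract_eq_self.2, Int.fract_eq_self.2]
    · ring
    · constructor
      · linarith [(hκ i).1]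
      · linarith [(hκ i).2]
    · constructor
      · exact hmθ
      · have : 1 / (m : ℝ) ≤ 1 := by rw [div_le_one (by linarith)]; linarith
        linarith
  have hsum : (S p n 1 + S p n (-(d * 1))) + (S p n ((m : ℤ) - 1) + S p n (-(d * ((m : ℤ) - 1)))) = n := by
    rw [hS1, hS2, ← Finset.sum_add_distrib]
    simp
  have hNbig : (m : ℤ) < (p : ℤ) ^ n - 1 := by
    have h1 : (p : ℤ) ≤ (p : ℤ) ^ n := by
      calc (p : ℤ) = (p : ℤ) ^ 1 := (pow_one _).symm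
        _ ≤ (p : ℤ) ^ n := pow_le_pow_right₀ (by omega) hn
    have h2 : ((m : ℤ) ^ 2 + 3) ≤ p := by exact_mod_cast hpm
    nlinarith
  rcases le_total (S p n 1 + S p n (-(d * 1)))
    (S p n ((m : ℤ) - 1) + S p n (-(d * ((m : ℤ) - 1)))) with hle | hle
  · refine ⟨1, ?_, by linarith⟩
    intro hdv
    have := Int.le_of_dvd one_pos hdv
    have : (2 : ℤ) ≤ m := by exact_mod_cast hm2
    omega
  · refine ⟨(m : ℤ) - 1, ?_, by linarith⟩
    intro hdv
    have h2 : (2 : ℤ) ≤ m := by exact_mod_cast hm2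
    have := Int.le_of_dvd (by omega) hdv
    omega

theorem rational_case (C : ℕ) (ε : ℝ) (hε : 0 < ε) : ∃ p₀ : ℕ, ∀ p n : ℕ, p₀ ≤ p → 1 ≤ n →
    ∀ d c : ℤ, ∀ m s : ℕ, 1 ≤ m → m ≤ C → |c| ≤ C → c ≠ 0 →
    ((p : ℤ) ^ n - 1) ∣ (m : ℤ) * d - c * (p : ℤ) ^ s →
    (∀ k : ℕ, ¬ ((p : ℤ) ^ n - 1) ∣ d - (p : ℤ) ^ k) → IsCoprime d ((p : ℤ) ^ n - 1) →
    ∃ z : ℤ, ¬ ((p : ℤ) ^ n - 1) ∣ z ∧ S p n z + S p n (-(d * z)) ≤ (1 / 2 + ε) * n := by
  obtain ⟨A, hA⟩ := exists_nat_ge ((C : ℝ) / ε)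
  refine ⟨C ^ 2 + 4 * C + A + 4, ?_⟩
  intro p n hp₀ hn d c m s hm hmC hcC hc0 hdvd hnd hcop
  have hp : 2 ≤ p := by omega
  have hN := N_pos p n hp hn
  have hNZ := NZ_pos p n hp hn
  have hnR : (1 : ℝ) ≤ n := by exact_mod_cast hn
  have hpR : (C : ℝ) ^ 2 + 4 * C + A + 4 ≤ p := by exact_mod_cast hp₀
  have hC0 : (0 : ℝ) ≤ C := by positivity
  have hA0 : (0 : ℝ) ≤ A := by positivity
  have hCε : (C : ℝ) / ((p : ℝ) - 1) ≤ ε := by
    rw [div_le_iff₀ (by nlinarith)]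
    rw [div_le_iff₀ hε] at hA
    nlinarith
  have hCq : (C : ℝ) / ((p : ℝ) - 1) ≤ 1 / 4 := by
    rw [div_le_iff₀ (by nlinarith)]
    nlinarith
  -- normalise by a power of p
  set t := (n - 1) * s with ht
  set d₁ : ℤ := d * (p : ℤ) ^ t with hd₁
  have hst : (p : ℤ) ^ s * (p : ℤ) ^ t = ((p : ℤ) ^ n) ^ s := by
    rw [← pow_add, ← pow_mul]
    congr 1
    rw [ht]
    have : n = (n - 1) + 1 := by omega
    conv_rhs => rw [this]
    ring
  have hone : ((p : ℤ) ^ n - 1) ∣ ((p : ℤ) ^ n) ^ s - 1 := by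
    have := sub_dvd_pow_sub_pow ((p : ℤ) ^ n) 1 s
    rwa [one_pow] at this
  have hmd₁ : ((p : ℤ) ^ n - 1) ∣ (m : ℤ) * d₁ - c := by
    have h1 : ((p : ℤ) ^ n - 1) ∣ ((m : ℤ) * d - c * (p : ℤ) ^ s) * (p : ℤ) ^ t :=
      Dvd.dvd.mul_right hdvd _
    have h2 : ((p : ℤ) ^ n - 1) ∣ c * (((p : ℤ) ^ n) ^ s - 1) := Dvd.dvd.mul_left hone _
    have h3 := dvd_add h1 h2
    have e : ((m : ℤ) * d - c * (p : ℤ) ^ s) * (p : ℤ) ^ t + c * (((p : ℤ) ^ n) ^ s - 1) =
        (m : ℤ) * d₁ - c := by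
      rw [hd₁, ← hst]; ring
    rwa [e] at h3
  have hd₁1 : ¬ ((p : ℤ) ^ n - 1) ∣ d₁ - 1 := by
    intro hcon
    apply hnd s
    have h1 : ((p : ℤ) ^ n - 1) ∣ (d₁ - 1) * (p : ℤ) ^ s := Dvd.dvd.mul_right hcon _
    have h2 : ((p : ℤ) ^ n - 1) ∣ d * (((p : ℤ) ^ n) ^ s - 1) := Dvd.dvd.mul_left hone _
    have h3 := dvd_sub h1 h2
    have e : (d₁ - 1) * (p : ℤ) ^ s - d * (((p : ℤ) ^ n) ^ s - 1) = d - (p : ℤ) ^ s := by
      rw [hd₁, ← hst]; ring
    rwa [e] at h3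
  have hSd : ∀ z : ℤ, S p n (-(d * z)) = S p n (-(d₁ * z)) := by
    intro z
    rw [← S_pow_mul p n hp hn t (-(d * z))]
    congr 1
    rw [hd₁]; ring
  suffices hsuff : ∃ z : ℤ, ¬ ((p : ℤ) ^ n - 1) ∣ z ∧
      S p n z + S p n (-(d₁ * z)) ≤ (1 / 2 + ε) * n by
    obtain ⟨z, hz, hS⟩ := hsuff
    exact ⟨z, hz, by rw [hSd]; exact hS⟩
  have hcop₁ : IsCoprime d₁ ((p : ℤ) ^ n - 1) := by
    rw [hd₁]
    apply IsCoprime.mul_left hcop
    apply IsCoprime.pow_left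
    refine ⟨(p : ℤ) ^ (n - 1), -1, ?_⟩
    have : (p : ℤ) ^ n = (p : ℤ) ^ (n - 1) * p := by
      rw [← pow_succ, Nat.sub_add_cancel hn]
    rw [this]; ring
  have hNbig : (C : ℤ) < (p : ℤ) ^ n - 1 := by
    have h1 : (p : ℤ) ≤ (p : ℤ) ^ n := by
      calc (p : ℤ) = (p : ℤ) ^ 1 := (pow_one _).symm
        _ ≤ (p : ℤ) ^ n := pow_le_pow_right₀ (by omega) hn
    have h2 : ((C : ℤ) ^ 2 + 4 * C + A + 4) ≤ p := by exact_mod_cast hp₀
    nlinarith
  rcases lt_trichotomy c 0 with hneg | hzero | hpos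
  · -- negative
    refine ⟨(m : ℤ), ?_, ?_⟩
    · intro hdv
      have h1 := Int.le_of_dvd (by exact_mod_cast hm) hdv
      have h2 : (m : ℤ) ≤ C := by exact_mod_cast hmC
      omega
    · have h1 := S_natCast_le p n hp hn m
      have h2 : S p n (-(d₁ * m)) = S p n ((c.natAbs : ℕ) : ℤ) := by
        apply S_congr p n hp hn
        have : ((c.natAbs : ℕ) : ℤ) = -c := by omega
        rw [this]
        have e : -(d₁ * m) - -c = -((m : ℤ) * d₁ - c) := by ring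
        rw [e]
        exact (dvd_neg).2 hmd₁
      have h3 := S_natCast_le p n hp hn c.natAbs
      rw [h2]
      have h4 : (m : ℝ) / ((p : ℝ) - 1) ≤ C / ((p : ℝ) - 1) := by
        have : (m : ℝ) ≤ C := by exact_mod_cast hmC
        have : (0 : ℝ) < (p : ℝ) - 1 := by nlinarith
        gcongr
      have h5 : (c.natAbs : ℝ) / ((p : ℝ) - 1) ≤ C / ((p : ℝ) - 1) := by
        have : c.natAbs ≤ C := by
          have : ((c.natAbs : ℕ) : ℤ) ≤ C := by rw [Int.natCast_natAbs]; exact hcC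
          exact_mod_cast this
        have : (c.natAbs : ℝ) ≤ C := by exact_mod_cast this
        have : (0 : ℝ) < (p : ℝ) - 1 := by nlinarith
        gcongr
      nlinarith
  · exact absurd hzero hc0
  · -- positive
    obtain ⟨c', rfl⟩ : ∃ c' : ℕ, c = c' := ⟨c.toNat, (Int.toNat_of_nonneg hpos.le).symm⟩
    have hc'C : c' ≤ C := by
      have : |(c' : ℤ)| ≤ C := hcC
      rw [Nat.abs_cast] at this
      exact_mod_cast this
    have hc'1 : 1 ≤ c' := by exact_mod_cast hpos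
    have hpC : C ^ 2 + C + 2 ≤ p := by omega
    have hfin : ∀ e : ℤ, (∃ z : ℤ, ¬ ((p : ℤ) ^ n - 1) ∣ z ∧
        S p n z + S p n (-(e * z)) ≤ (1 / 2 + (C : ℝ) / ((p : ℝ) - 1)) * n) →
        ∃ z : ℤ, ¬ ((p : ℤ) ^ n - 1) ∣ z ∧ S p n z + S p n (-(e * z)) ≤ (1 / 2 + ε) * n := by
      rintro e ⟨z, hz, hS⟩
      refine ⟨z, hz, hS.trans ?_⟩
      gcongr
    rcases lt_trichotomy m c' with hlt | heq | hgt
    · exact hfin _ (case_lt C p n hp hn hpC d₁ m c' hm hlt hc'C hmd₁)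
    · subst heq
      obtain ⟨z, hz, hS⟩ := case_eq p n hp hn d₁ m hm (by nlinarith) hmd₁ hd₁1
      refine ⟨z, hz, hS.trans ?_⟩
      nlinarith
    · -- use the inverse
      obtain ⟨e, f, hef⟩ := hcop₁
      have hed : ((p : ℤ) ^ n - 1) ∣ e * d₁ - 1 := ⟨-f, by linarith⟩
      apply swap p n hp hn d₁ e hed
      apply hfin
      apply case_lt C p n hp hn hpC e c' m hc'1 hgt hmC
      -- c' e ≡ m
      have h1 : ((p : ℤ) ^ n - 1) ∣ e * ((m : ℤ) * d₁ - c') := Dvd.dvd.mul_left hmd₁ _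
      have h2 : ((p : ℤ) ^ n - 1) ∣ (m : ℤ) * (e * d₁ - 1) := Dvd.dvd.mul_left hed _
      have h3 := dvd_sub h2 h1
      have e1 : (m : ℤ) * (e * d₁ - 1) - e * ((m : ℤ) * d₁ - c') = (c' : ℤ) * e - m := by ring
      rwa [e1] at h3

end Pool.Agent.WVal
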