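import Mathlib

/-!
Upper bound for the valuation of a product of two Gauss sums, in the ring of `Ring.lean`.

Proof. `π = ζ - 1`. For `k : ℕ` let `χ_k : MulChar F R`, `χ_k x = ω (x⁻¹) ^ k` (`x ≠ 0`), `ψ x = ζ^(Tr x).val`,
`g k = gaussSum χ_k ψ`.
1. `g (k+l) ∣ g k * g l`: if `χ_{k+l} ≠ 1` this is `jacobiSum_mul_nontrivial`; if `χ_{k+l} = 1` then
   `g (k+l) = ∑_{x ≠ 0} ψ x = -1` is a unit. (`gaussSum_one_left`, `ψ ≠ 1` since the trace is surjective
   and `ζ ≠ 1`.)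
2. `g (p k) = g k` since `ψ (x^p) = ψ x` (`Tr (x^p) = Tr x`) and `χ_{pk} x = χ_k (x^p)`.
3. so `g (∑ a_i p^i) ∣ (g 1)^(∑ a_i)`; and `g k` depends only on `k mod (q-1)`.
4. `g 1 = π u` with `ρ u ≠ 0`: `ζ^k = 1 + π ∑_{l<k} ζ^l`, `∑_{x≠0} ω(x⁻¹) = 0` (nontrivial character, `q > 2`), so
   `g 1 = π ∑_{x≠0} ω(x⁻¹) ∑_{l < (Tr x).val} ζ^l`, `ρ u = ∑_{x≠0} x⁻¹ Tr x = ∑_{i<n} ∑_{x≠0} x^(p^i - 1) = -1`
   (`FiniteField.algebraMap_trace_eq_sum_pow`, `FiniteField.sum_pow_units`; `q = p^n`).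
5. For `χ = χ_k` with `k ≡ -dz`, `∑_c χ(c) W(c)`, `W(c) = ∑_x ψ(x^d - c x)`, equals
   `χ(-1) g(k) ∑_x χ⁻¹(x) ψ(x^d)` (`gaussSum_mulShift`, χ nontrivial because `(q-1) ∤ dz`), and
   `χ⁻¹(x) = χ_z(x)^d = χ_z(x^d)`, so `= χ(-1) g(k) g(z)` (bijection `x ↦ x^d`). So `π^K ∣ g(k) g(z)`
   (`χ(0) = 0` so that only `c ≠ 0` matter), hence `π^K ∣ (g 1)^(∑a + ∑b) = π^(∑a+∑b) u^(..)`, and `π` is
   prime-like: `π ∣ v → ρ v = 0`; cancel in the domain `R` to get `K ≤ ∑ a + ∑ b`.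
-/

set_option autoImplicit false

namespace Pool.Agent.WVal

open Finset

namespace GaussAux

section

variable {p : ℕ} [Fact p.Prime] {F : Type} [Field F] [Fintype F] [Algebra (ZMod p) F]
    {R : Type} [CommRing R]

/-- the additive character -/
noncomputable def psi (F : Type) [Field F] [Fintype F] [Algebra (ZMod p) F] {ζ : R} (hζ : ζ ^ p = 1) :
    AddChar F R :=
  (AddChar.zmodChar p hζ).compAddMonoidHom (Algebra.trace (ZMod p) F).toAddMonoidHom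

theorem psi_apply {ζ : R} (hζ : ζ ^ p = 1) (x : F) :
    psi F hζ x = ζ ^ (Algebra.trace (ZMod p) F x).val := rfl

theorem finF : FiniteDimensional (ZMod p) F := inferInstance

theorem card_zmod : Fintype.card (ZMod p) = p := ZMod.card p

/-- the trace is invariant under the Frobenius map -/
theorem trace_frob (x : F) : Algebra.trace (ZMod p) F (x ^ p) = Algebra.trace (ZMod p) F x := by
  have h := Algebra.trace_eq_of_algEquiv (FiniteField.frobeniusAlgEquivOfAlgebraic (ZMod p) F) x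
  rw [FiniteField.coe_frobeniusAlgEquivOfAlgebraic, ZMod.card] at h
  exact h

theorem frob_bij : Function.Bijective (fun x : F => x ^ p) := by
  have h := (FiniteField.frobeniusAlgEquivOfAlgebraic (ZMod p) F).bijective
  rw [FiniteField.coe_frobeniusAlgEquivOfAlgebraic, ZMod.card] at h
  exact h

theorem psi_frob {ζ : R} (hζ : ζ ^ p = 1) (x : F) : psi F hζ (x ^ p) = psi F hζ x := by
  rw [psi_apply, psi_apply, trace_frob]

theorem psi_ne {ζ : R} (hζ : ζ ^ p = 1) (hζ1 : ζ ≠ 1) : psi F hζ ≠ 1 := by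
  obtain ⟨x, hx⟩ := Algebra.trace_surjective (ZMod p) F 1
  rw [AddChar.ne_one_iff]
  refine ⟨x, ?_⟩
  rw [psi_apply, hx]
  have : Fact (1 < p) := ⟨(Fact.out : p.Prime).one_lt⟩
  rw [ZMod.val_one, pow_one]
  exact hζ1

/-- the multiplicative character -/
def om (ω : F →* R) (hω0 : ω 0 = 0) : MulChar F R :=
  { ω with
    map_nonunit' := fun a ha => by
      have : a = 0 := by
        by_contra h
        exact ha (isUnit_iff_ne_zero.2 h)
      rw [this]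
      exact hω0 }

omit [Fintype F] in
theorem om_apply (ω : F →* R) (hω0 : ω 0 = 0) (x : F) : om ω hω0 x = ω x := rfl

theorem rho_inv (ρ : R →+* F) (ω : F →* R) (hω : ∀ x, ρ (ω x) = x) (hω0 : ω 0 = 0) (x : F) :
    ρ ((om ω hω0)⁻¹ x) = x⁻¹ := by
  rw [MulChar.inv_apply', om_apply, hω]

theorem pow_eq_one_iff' (ρ : R →+* F) (ω : F →* R) (hω : ∀ x, ρ (ω x) = x) (hω0 : ω 0 = 0) (k : ℕ) :
    (om ω hω0)⁻¹ ^ k = 1 ↔ Fintype.card F - 1 ∣ k := by
  classical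
  constructor
  · intro h
    rw [← FiniteField.forall_pow_eq_one_iff F]
    intro x
    have h1 : ((om ω hω0)⁻¹ ^ k) (x : F) = 1 := by rw [h, MulChar.one_apply_coe]
    rw [MulChar.pow_apply_coe] at h1
    have h2 := congrArg ρ h1
    rw [map_pow, rho_inv ρ ω hω hω0, map_one, inv_pow, inv_eq_one] at h2
    apply Units.ext
    rw [Units.val_pow_eq_pow_val, h2, Units.val_one]
  · intro h
    have h1 := MulChar.pow_card_eq_one (om ω hω0)⁻¹
    rw [Fintype.card_units] at h1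
    obtain ⟨c, rfl⟩ := h
    rw [pow_mul, h1, one_pow]

end

section

variable {p : ℕ} [Fact p.Prime] {F : Type} [Field F] [Fintype F] [Algebra (ZMod p) F]
    {R : Type} [CommRing R] [IsDomain R]

/-- the Gauss sums -/
noncomputable def gs (ω : F →* R) (hω0 : ω 0 = 0) {ζ : R} (hζ : ζ ^ p = 1) (k : ℕ) : R :=
  gaussSum ((om ω hω0)⁻¹ ^ k) (psi F hζ)

theorem gs_add (ω : F →* R) (hω0 : ω 0 = 0) {ζ : R} (hζ : ζ ^ p = 1) (hζ1 : ζ ≠ 1) (k l : ℕ) :
    gs ω hω0 hζ (k + l) ∣ gs ω hω0 hζ k * gs ω hω0 hζ l := by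
  unfold gs
  rw [pow_add]
  by_cases h : (om ω hω0)⁻¹ ^ k * (om ω hω0)⁻¹ ^ l = 1
  · rw [h, gaussSum_one_left (psi_ne hζ hζ1)]
    refine ⟨-(gaussSum ((om ω hω0)⁻¹ ^ k) (psi F hζ) * gaussSum ((om ω hω0)⁻¹ ^ l) (psi F hζ)), ?_⟩
    ring
  · exact ⟨_, (jacobiSum_mul_nontrivial h (psi F hζ)).symm⟩

theorem gs_zero (ω : F →* R) (hω0 : ω 0 = 0) {ζ : R} (hζ : ζ ^ p = 1) (hζ1 : ζ ≠ 1) :
    gs ω hω0 hζ 0 ∣ 1 := by
  unfold gs
  rw [pow_zero, gaussSum_one_left (psi_ne hζ hζ1)]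
  exact ⟨-1, by ring⟩

theorem gs_frob (ω : F →* R) (hω0 : ω 0 = 0) {ζ : R} (hζ : ζ ^ p = 1) (k : ℕ) :
    gs ω hω0 hζ (k * p) = gs ω hω0 hζ k := by
  unfold gs gaussSum
  have hp : p ≠ 0 := (Fact.out : p.Prime).ne_zero
  refine Eq.trans ?_ (Function.Bijective.sum_comp (frob_bij (p := p) (F := F))
    (fun y => ((om ω hω0)⁻¹ ^ k) y * psi F hζ y))
  apply Finset.sum_congr rfl
  intro x _
  rw [psi_frob, pow_mul, MulChar.pow_apply' _ hp, map_pow]

theorem gs_ppow (ω : F →* R) (hω0 : ω 0 = 0) {ζ : R} (hζ : ζ ^ p = 1) (i : ℕ) :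
    gs ω hω0 hζ (p ^ i) = gs ω hω0 hζ 1 := by
  induction i with
  | zero => rw [pow_zero]
  | succ i ih => rw [pow_succ, gs_frob, ih]

theorem gs_digit (ω : F →* R) (hω0 : ω 0 = 0) {ζ : R} (hζ : ζ ^ p = 1) (hζ1 : ζ ≠ 1) (a i : ℕ) :
    gs ω hω0 hζ (a * p ^ i) ∣ gs ω hω0 hζ 1 ^ a := by
  induction a with
  | zero => rw [zero_mul, pow_zero]; exact gs_zero ω hω0 hζ hζ1
  | succ a ih =>
    rw [add_mul, one_mul, pow_succ]
    refine (gs_add ω hω0 hζ hζ1 _ _).trans ?_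
    rw [gs_ppow]
    exact mul_dvd_mul_right ih _

theorem gs_digits (ω : F →* R) (hω0 : ω 0 = 0) {ζ : R} (hζ : ζ ^ p = 1) (hζ1 : ζ ≠ 1) (n : ℕ)
    (a : ℕ → ℕ) :
    gs ω hω0 hζ (∑ i ∈ range n, a i * p ^ i) ∣ gs ω hω0 hζ 1 ^ (∑ i ∈ range n, a i) := by
  induction n with
  | zero =>
    rw [Finset.sum_range_zero, Finset.sum_range_zero, pow_zero]
    exact gs_zero ω hω0 hζ hζ1
  | succ n ih =>
    rw [Finset.sum_range_succ, Finset.sum_range_succ, pow_add]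
    exact (gs_add ω hω0 hζ hζ1 _ _).trans (mul_dvd_mul ih (gs_digit ω hω0 hζ hζ1 _ _))

omit [IsDomain R] in
theorem gs_congr (ρ : R →+* F) (ω : F →* R) (hω : ∀ x, ρ (ω x) = x) (hω0 : ω 0 = 0) {ζ : R}
    (hζ : ζ ^ p = 1) {k l : ℕ} (h : k ≡ l [MOD (Fintype.card F - 1)]) :
    gs ω hω0 hζ k = gs ω hω0 hζ l := by
  unfold gs
  have h1 : (om ω hω0)⁻¹ ^ (Fintype.card F - 1) = 1 :=
    (pow_eq_one_iff' ρ ω hω hω0 _).2 dvd_rfl
  rw [pow_eq_pow_of_modEq h h1]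

/-- the sum `∑ x⁻¹ Tr x` -/
theorem sum_inv_trace (hq : 2 < Fintype.card F) :
    ∑ x : F, x⁻¹ * algebraMap (ZMod p) F (Algebra.trace (ZMod p) F x) = -1 := by
  classical
  have hp : p.Prime := Fact.out
  have hcard : Fintype.card F = p ^ Module.finrank (ZMod p) F := by
    rw [Module.card_eq_pow_finrank (K := ZMod p) (V := F), ZMod.card]
  have hn : 0 < Module.finrank (ZMod p) F := Module.finrank_pos
  simp_rw [FiniteField.algebraMap_trace_eq_sum_pow, Nat.card_zmod, Finset.mul_sum]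
  rw [Finset.sum_comm, Finset.range_eq_Ico, Finset.sum_eq_sum_Ico_succ_bot hn]
  have h0 : ∑ x : F, x⁻¹ * x ^ (p ^ 0) = -1 := by
    have h1 : ∀ x : F, x⁻¹ * x ^ (p ^ 0) = 1 - (if x = 0 then 1 else 0) := by
      intro x
      rw [pow_zero, pow_one]
      split_ifs with hx
      · rw [hx]; simp
      · rw [inv_mul_cancel₀ hx, sub_zero]
    simp_rw [h1]
    rw [Finset.sum_sub_distrib, Finset.sum_ite_eq' Finset.univ (0 : F), if_pos (Finset.mem_univ _),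
      Finset.sum_const, Finset.card_univ, nsmul_eq_mul, FiniteField.cast_card_eq_zero]
    ring
  have h1 : ∑ i ∈ Finset.Ico (0 + 1) (Module.finrank (ZMod p) F), ∑ x : F, x⁻¹ * x ^ (p ^ i) = 0 := by
    apply Finset.sum_eq_zero
    intro i hi
    rw [Finset.mem_Ico] at hi
    have hpi : 1 < p ^ i := Nat.one_lt_pow (by omega) hp.one_lt
    have h2 : ∀ x : F, x⁻¹ * x ^ (p ^ i) = x ^ (p ^ i - 1) := by
      intro x
      by_cases hx : x = 0
      · rw [hx, inv_zero, zero_mul, zero_pow (by omega)]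
      · have e : p ^ i = 1 + (p ^ i - 1) := by omega
        conv_lhs => rw [e]
        rw [pow_add, pow_one, ← mul_assoc, inv_mul_cancel₀ hx, one_mul]
    simp_rw [h2]
    apply FiniteField.sum_pow_lt_card_sub_one
    rw [hcard]
    have h3 : p ^ i < p ^ Module.finrank (ZMod p) F := Nat.pow_lt_pow_right hp.one_lt hi.2
    omega
  rw [h0, h1, add_zero]

theorem gs_one (ρ : R →+* F) (ζ : R) (ω : F →* R)
    (hζ : ζ ^ p = 1) (hρζ : ρ ζ = 1)
    (hω : ∀ x, ρ (ω x) = x) (hω0 : ω 0 = 0) (hq : 2 < Fintype.card F) :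
    ∃ u : R, gs ω hω0 hζ 1 = (ζ - 1) * u ∧ ρ u = -1 := by
  refine ⟨∑ x : F, (om ω hω0)⁻¹ x * ∑ l ∈ range (Algebra.trace (ZMod p) F x).val, ζ ^ l, ?_, ?_⟩
  · unfold gs gaussSum
    rw [pow_one]
    have h1 : ∀ x : F, (om ω hω0)⁻¹ x * psi F hζ x = (om ω hω0)⁻¹ x +
        (ζ - 1) * ((om ω hω0)⁻¹ x * ∑ l ∈ range (Algebra.trace (ZMod p) F x).val, ζ ^ l) := by
      intro x
      have h2 := mul_geom_sum ζ (Algebra.trace (ZMod p) F x).val
      rw [psi_apply]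
      linear_combination (-(om ω hω0)⁻¹ x) * h2
    simp_rw [h1]
    rw [Finset.sum_add_distrib, ← Finset.mul_sum, MulChar.sum_eq_zero_of_ne_one, zero_add]
    intro h
    have h2 : (om ω hω0)⁻¹ ^ 1 = 1 := by rw [pow_one, h]
    rw [pow_eq_one_iff' ρ ω hω hω0] at h2
    have := Nat.le_of_dvd one_pos h2
    omega
  · rw [map_sum, ← sum_inv_trace (p := p) hq]
    apply Finset.sum_congr rfl
    intro x _
    rw [map_mul, rho_inv ρ ω hω hω0, map_sum]
    congr 1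
    simp only [map_pow, hρζ, one_pow, Finset.sum_const, Finset.card_range, nsmul_eq_mul, mul_one]
    rw [← map_natCast (algebraMap (ZMod p) F), ZMod.natCast_zmod_val]

theorem pow_bij {d : ℕ} (hd : Nat.Coprime d (Fintype.card F - 1)) (hq : 2 < Fintype.card F) :
    Function.Bijective (fun x : F => x ^ d) := by
  have hd0 : d ≠ 0 := by
    intro h
    rw [h, Nat.coprime_zero_left] at hd
    omega
  rw [← Finite.injective_iff_bijective]
  intro x y hxy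
  have hxy' : x ^ d = y ^ d := hxy
  by_cases hy : y = 0
  · rw [hy, zero_pow hd0] at hxy'
    rw [hy]
    exact pow_eq_zero_iff hd0 |>.1 hxy'
  · have hx : x ≠ 0 := by
      intro hx
      rw [hx, zero_pow hd0] at hxy'
      exact hy (pow_eq_zero_iff hd0 |>.1 hxy'.symm)
    have h1 : (x / y) ^ d = 1 := by
      rw [div_pow, hxy', div_self (pow_ne_zero d hy)]
    have h2 : (x / y) ^ (Fintype.card F - 1) = 1 :=
      FiniteField.pow_card_sub_one_eq_one _ (div_ne_zero hx hy)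
    have h3 : orderOf (x / y) ∣ Nat.gcd d (Fintype.card F - 1) :=
      Nat.dvd_gcd (orderOf_dvd_of_pow_eq_one h1) (orderOf_dvd_of_pow_eq_one h2)
    rw [hd, Nat.dvd_one, orderOf_eq_one_iff] at h3
    rwa [div_eq_one_iff_eq hy] at h3

/-- the transform of the Weil sums -/
theorem transform (ρ : R →+* F) (ζ : R) (ω : F →* R)
    (hζ : ζ ^ p = 1) (hω : ∀ x, ρ (ω x) = x) (hω0 : ω 0 = 0) (hq : 2 < Fintype.card F)
    {d k z : ℕ} (hd : Nat.Coprime d (Fintype.card F - 1)) (hz : ¬ (Fintype.card F - 1) ∣ z)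
    (hk : k + d * z ≡ 0 [MOD (Fintype.card F - 1)]) :
    ∑ c : F, ((om ω hω0)⁻¹ ^ k) c * ∑ x : F, psi F hζ (x ^ d - c * x) =
      ((om ω hω0)⁻¹ ^ (d * z)) (-1) * (gs ω hω0 hζ k * gs ω hω0 hζ z) := by
  set Y := (om ω hω0)⁻¹ with hY
  have hd0 : d ≠ 0 := by
    intro h
    rw [h, Nat.coprime_zero_left] at hd
    omega
  have hkd : ¬ (Fintype.card F - 1) ∣ k := by
    intro h
    have h1 : (Fintype.card F - 1) ∣ k + d * z := (Nat.modEq_zero_iff_dvd).1 hk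
    have h2 : (Fintype.card F - 1) ∣ d * z := (Nat.dvd_add_right h).1 h1
    exact hz (hd.symm.dvd_of_dvd_mul_left h2)
  have hY1 : Y ^ k ≠ 1 := by
    rw [Ne, hY, pow_eq_one_iff' ρ ω hω hω0]
    exact hkd
  have hY2 : (Y ^ k)⁻¹ = Y ^ (d * z) := by
    have h1 : Y ^ (k + d * z) = 1 := by
      rw [hY, pow_eq_one_iff' ρ ω hω hω0]
      exact (Nat.modEq_zero_iff_dvd).1 hk
    rw [pow_add] at h1
    exact inv_eq_of_mul_eq_one_right h1
  have h1 : ∀ x : F, ∑ c : F, (Y ^ k) c * psi F hζ (-(c * x)) =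
      (Y ^ (d * z)) (-x) * gs ω hω0 hζ k := by
    intro x
    by_cases hx : x = 0
    · rw [hx]
      simp only [mul_zero, neg_zero, AddChar.map_zero_eq_one, mul_one]
      rw [MulChar.sum_eq_zero_of_ne_one hY1, MulChar.map_zero, zero_mul]
    · have h2 := gaussSum_mulShift_eq (Y ^ k) (psi F hζ) (Units.mk0 (-x) (neg_ne_zero.2 hx))
      rw [hY2, Units.val_mk0] at h2
      unfold gs
      rw [← hY, ← h2]
      unfold gaussSum
      apply Finset.sum_congr rfl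
      intro c _
      rw [AddChar.mulShift_apply]
      congr 2
      ring
  calc ∑ c : F, (Y ^ k) c * ∑ x : F, psi F hζ (x ^ d - c * x)
      = ∑ c : F, ∑ x : F, psi F hζ (x ^ d) * ((Y ^ k) c * psi F hζ (-(c * x))) := by
        apply Finset.sum_congr rfl
        intro c _
        rw [Finset.mul_sum]
        apply Finset.sum_congr rfl
        intro x _
        rw [sub_eq_add_neg, AddChar.map_add_eq_mul]
        ring
    _ = ∑ x : F, psi F hζ (x ^ d) * ((Y ^ (d * z)) (-x) * gs ω hω0 hζ k) := by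
        rw [Finset.sum_comm]
        apply Finset.sum_congr rfl
        intro x _
        rw [← Finset.mul_sum, h1]
    _ = ∑ x : F, (Y ^ (d * z)) (-1) * gs ω hω0 hζ k * ((Y ^ z) (x ^ d) * psi F hζ (x ^ d)) := by
        apply Finset.sum_congr rfl
        intro x _
        have h2 : (Y ^ (d * z)) (-x) = (Y ^ (d * z)) (-1) * (Y ^ z) (x ^ d) := by
          rw [← neg_one_mul x, map_mul]
          congr 1
          rw [mul_comm d z, pow_mul, MulChar.pow_apply' _ hd0, map_pow]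
        rw [h2]
        ring
    _ = (Y ^ (d * z)) (-1) * (gs ω hω0 hζ k * gs ω hω0 hζ z) := by
        rw [← Finset.mul_sum]
        have h2 : ∑ x : F, (Y ^ z) (x ^ d) * psi F hζ (x ^ d) = gs ω hω0 hζ z := by
          unfold gs gaussSum
          exact Function.Bijective.sum_comp (pow_bij hd hq) (fun y => (Y ^ z) y * psi F hζ y)
        rw [h2]
        ring

end

end GaussAux

open GaussAux

theorem weil_gauss_bound {p : ℕ} [Fact p.Prime] {F : Type} [Field F] [Fintype F] [Algebra (ZMod p) F]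
    {R : Type} [CommRing R] [IsDomain R] (ρ : R →+* F) (ζ : R) (ω : F →* R)
    (hζ : ζ ^ p = 1) (hζ1 : ζ ≠ 1) (hρζ : ρ ζ = 1) (hker : ∀ r, ρ r = 0 → (ζ - 1) ∣ r)
    (hω : ∀ x, ρ (ω x) = x) (hω0 : ω 0 = 0) (hq : 2 < Fintype.card F)
    (d : ℕ) (hd : Nat.Coprime d (Fintype.card F - 1)) (n : ℕ) (a b : ℕ → ℕ) (z : ℕ)
    (hz : ¬ (Fintype.card F - 1) ∣ z)
    (ha : ∑ i ∈ range n, a i * p ^ i ≡ z [MOD (Fintype.card F - 1)])
    (hb : (∑ i ∈ range n, b i * p ^ i) + d * z ≡ 0 [MOD (Fintype.card F - 1)])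
    (K : ℕ) (hK : ∀ c : F, c ≠ 0 →
      (ζ - 1) ^ K ∣ ∑ x : F, ζ ^ (Algebra.trace (ZMod p) F (x ^ d - c * x)).val) :
    K ≤ ∑ i ∈ range n, a i + ∑ i ∈ range n, b i := by
  set k := ∑ i ∈ range n, b i * p ^ i with hk
  have hπ : ζ - 1 ≠ 0 := sub_ne_zero.2 hζ1
  obtain ⟨u, hu, hρu⟩ := gs_one ρ ζ ω hζ hρζ hω hω0 hq
  have h1 := transform ρ ζ ω hζ hω hω0 hq hd hz hb
  have h2 : (ζ - 1) ^ K ∣ ∑ c : F, ((om ω hω0)⁻¹ ^ k) c * ∑ x : F, psi F hζ (x ^ d - c * x) := by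
    apply Finset.dvd_sum
    intro c _
    by_cases hc : c = 0
    · rw [hc, MulChar.map_zero, zero_mul]
      exact dvd_zero _
    · exact (hK c hc).mul_left _
  rw [h1] at h2
  have h3 : (ζ - 1) ^ K ∣ gs ω hω0 hζ k * gs ω hω0 hζ z := by
    have h4 := h2.mul_left (((om ω hω0)⁻¹ ^ (d * z)) (-1))
    rw [← mul_assoc, ← map_mul] at h4
    norm_num at h4
    exact h4
  have h5 : gs ω hω0 hζ z ∣ gs ω hω0 hζ 1 ^ (∑ i ∈ range n, a i) := by
    rw [← gs_congr ρ ω hω hω0 hζ ha]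
    exact gs_digits ω hω0 hζ hζ1 n a
  have h6 : gs ω hω0 hζ k ∣ gs ω hω0 hζ 1 ^ (∑ i ∈ range n, b i) := gs_digits ω hω0 hζ hζ1 n b
  set s := ∑ i ∈ range n, a i + ∑ i ∈ range n, b i with hs
  have h7 : (ζ - 1) ^ K ∣ (ζ - 1) ^ s * u ^ s := by
    rw [← mul_pow, ← hu, hs, add_comm, pow_add]
    exact h3.trans (mul_dvd_mul h6 h5)
  by_contra hcon
  push Not at hcon
  have h8 : (ζ - 1) ^ (s + 1) ∣ (ζ - 1) ^ s * u ^ s := (pow_dvd_pow _ hcon).trans h7
  rw [pow_succ] at h8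
  have h9 : (ζ - 1) ∣ u ^ s := (mul_dvd_mul_iff_left (pow_ne_zero s hπ)).1 h8
  obtain ⟨v, hv⟩ := h9
  have h10 := congrArg ρ hv
  rw [map_pow, hρu, map_mul, map_sub, hρζ, map_one, sub_self, zero_mul] at h10
  exact pow_ne_zero s (neg_ne_zero.2 one_ne_zero) h10

end Pool.Agent.WVal
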