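import Mathlib

/-!
Norms of elements of `ℤ[ζ_p]` and divisibility by powers of `ζ - 1`.

Proof. Let `K = CyclotomicField p ℚ`, `ζ_K` its root, `x = aeval ζ_K P`, integral over `ℤ`; `m` = the integer equal to
`Algebra.norm ℚ x` (`Algebra.isIntegral_norm`). `Algebra.norm_eq_prod_embeddings ℚ ℂ x` and
`IsPrimitiveRoot.embeddingsEquivPrimitiveRoots` give `m = ∏_{μ ∈ primitiveRoots p ℂ} P(μ)`, and the primitive roots are
`e(j/p)`, `1 ≤ j < p`.
Divisibility: `Φ = cyclotomic p ℤ = minpoly ℤ e(1/p)` (`Polynomial.cyclotomic_eq_minpoly`), so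
`Φ ∣ ∏_{1≤j<p} P(X^j) - m` in `ℤ[X]` (`minpoly.isIntegrallyClosed_dvd`). Let `A = AdjoinRoot Φ` (a domain: `Φ` is
prime in `ℤ[X]`, `Polynomial.cyclotomic.irreducible`), `ζ_A` its root, `π_A = ζ_A - 1`, `r : A → ZMod p`, `ζ_A ↦ 1`,
with kernel `(π_A)`. In `A`: `m = ∏_j P(ζ_A^j)`. For `j` prime to `p` there is `σ_j : A → A`, `ζ_A ↦ ζ_A^j`, and
`r ∘ σ_j = r`. Claim: `p^K ∣ m → π_A^K ∣ P(ζ_A)`, by induction on `i ≤ K`: if `P(ζ_A) = π_A^i u`, then
`m = ∏ σ_j(π_A)^i ∏ σ_j(u)`, `∏_j (ζ_A^j - 1) = ± p` (`∏_{1≤j<p} (1 - ζ^j) = Φ(1) = p`), so if `i < K`,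
`p ∣ ∏ σ_j(u)` (cancel `p^i`), apply `r`: `r(u)^(p-1) = 0`, `r u = 0`, `π_A ∣ u`.
Finally map `A → R`, `ζ_A ↦ ζ` (`Φ(ζ) = 0` because `Φ(X) (X - 1) = X^p - 1`, `ζ ≠ 1` and `R` is a domain).
-/

set_option autoImplicit false

namespace Pool.Agent.WVal

open Finset

section NormPkgAux

open Polynomial

/-- product over the primitive roots -/
noncomputable def npM (p : ℕ) (P : ℤ[X]) : ℂ := ∏ μ ∈ primitiveRoots p ℂ, aeval μ P

lemma npImage (p : ℕ) [Fact p.Prime] {ζ : ℂ} (hζ : IsPrimitiveRoot ζ p) :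
    (Ico 1 p).image (fun j => ζ ^ j) = primitiveRoots p ℂ := by
  have hp : p.Prime := Fact.out
  apply Finset.eq_of_subset_of_card_le
  · intro μ hμ
    obtain ⟨j, hj, rfl⟩ := Finset.mem_image.1 hμ
    rw [Finset.mem_Ico] at hj
    rw [mem_primitiveRoots hp.pos]
    refine hζ.pow_of_coprime j ?_
    exact (Nat.coprime_of_lt_prime (by omega) hj.2 hp).symm
  · rw [Finset.card_image_of_injOn, hζ.card_primitiveRoots, Nat.card_Ico, Nat.totient_prime hp]
    intro i hi j hj hij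
    have hi' := Finset.mem_Ico.1 (Finset.mem_coe.1 hi)
    have hj' := Finset.mem_Ico.1 (Finset.mem_coe.1 hj)
    exact hζ.pow_inj hi'.2 hj'.2 hij

lemma npProd (p : ℕ) [Fact p.Prime] {ζ : ℂ} (hζ : IsPrimitiveRoot ζ p) (P : ℤ[X]) :
    ∏ j ∈ Ico 1 p, aeval (ζ ^ j) P = npM p P := by
  unfold npM
  rw [← npImage p hζ, Finset.prod_image]
  intro i hi j hj hij
  have hi' := Finset.mem_Ico.1 (Finset.mem_coe.1 hi)
  have hj' := Finset.mem_Ico.1 (Finset.mem_coe.1 hj)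
  exact hζ.pow_inj hi'.2 hj'.2 hij

lemma npRoot (p : ℕ) [Fact p.Prime] {μ : ℂ} (hμ : μ ∈ primitiveRoots p ℂ) :
    aeval μ (cyclotomic p ℤ) = 0 := by
  have hp : p.Prime := Fact.out
  have h := ((mem_primitiveRoots hp.pos).1 hμ).isRoot_cyclotomic hp.pos
  rw [IsRoot.def, ← map_cyclotomic p (algebraMap ℤ ℂ), eval_map] at h
  exact h

lemma npRed (p : ℕ) [Fact p.Prime] (P : ℤ[X]) : ∃ (m : ℤ) (Q : ℤ[X]),
    ∏ j ∈ Ico 1 p, P.comp (X ^ j) = cyclotomic p ℤ * Q + C m ∧ (m : ℂ) = npM p P := by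
  have hp : p.Prime := Fact.out
  set f : ℤ[X] := ∏ j ∈ Ico 1 p, P.comp (X ^ j) with hf
  set h : ℤ[X] := f %ₘ cyclotomic p ℤ with hh
  have hdeg : h.degree < ((p - 1 : ℕ) : WithBot ℕ) := by
    have := degree_modByMonic_lt f (cyclotomic.monic p ℤ)
    rwa [degree_cyclotomic, Nat.totient_prime hp] at this
  have hdiv : h + cyclotomic p ℤ * (f /ₘ cyclotomic p ℤ) = f := modByMonic_add_div _ _
  have hval : ∀ μ ∈ primitiveRoots p ℂ, eval μ (h.map (algebraMap ℤ ℂ)) = npM p P := by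
    intro μ hμ
    have h1 := congrArg (aeval μ) hdiv
    rw [map_add, map_mul, npRoot p hμ, zero_mul, add_zero] at h1
    rw [eval_map, ← aeval_def, h1, hf, map_prod]
    rw [← npProd p ((mem_primitiveRoots hp.pos).1 hμ) P]
    refine Finset.prod_congr rfl fun j _ => ?_
    rw [aeval_comp, map_pow, aeval_X]
  have hcard : (primitiveRoots p ℂ).card = p - 1 := by
    rw [(Complex.isPrimitiveRoot_exp p hp.ne_zero).card_primitiveRoots, Nat.totient_prime hp]
  have hC : h.map (algebraMap ℤ ℂ) = C (npM p P) := by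
    refine eq_of_degree_sub_lt_of_eval_finset_eq (primitiveRoots p ℂ) ?_ ?_
    · rw [hcard]
      refine (degree_sub_le _ _).trans_lt (max_lt (degree_map_le.trans_lt hdeg) ?_)
      refine degree_C_le.trans_lt ?_
      have := hp.two_le
      exact_mod_cast (by omega : 0 < p - 1)
    · intro μ hμ
      rw [hval μ hμ, eval_C]
  have h0 : ((h.coeff 0 : ℤ) : ℂ) = npM p P := by
    have := congrArg (fun q => q.coeff 0) hC
    simp only [coeff_map, coeff_C_zero] at this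
    rw [← this]
    rfl
  have h1 : h = C (h.coeff 0) := by
    refine map_injective (algebraMap ℤ ℂ) (algebraMap ℤ ℂ).injective_int ?_
    rw [hC, map_C, ← h0]
    rfl
  refine ⟨h.coeff 0, f /ₘ cyclotomic p ℤ, ?_, h0⟩
  rw [← h1, add_comm]
  exact hdiv.symm

lemma npStep (p : ℕ) [Fact p.Prime] (P : ℤ[X]) (m : ℤ) (hm : (m : ℂ) = npM p P)
    (hd : (p : ℤ) ∣ m) : ∃ U V : ℤ[X], P = (X - 1) * U + cyclotomic p ℤ * V := by
  have hp : p.Prime := Fact.out
  obtain ⟨m', Q, h1, h2⟩ := npRed p P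
  have hmm : m' = m := by
    have : (m' : ℂ) = (m : ℂ) := by rw [h2, hm]
    exact_mod_cast this
  rw [hmm] at h1
  have h3 := congrArg (eval 1) h1
  rw [eval_prod, eval_add, eval_mul, eval_one_cyclotomic_prime, eval_C] at h3
  have h4 : ∏ j ∈ Ico 1 p, eval 1 (P.comp (X ^ j)) = (eval 1 P) ^ (p - 1) := by
    rw [← Nat.card_Ico 1 p, ← Finset.prod_const]
    refine Finset.prod_congr rfl fun j _ => ?_
    rw [eval_comp, eval_pow, eval_X, one_pow]
  have h5 : (p : ℤ) ∣ (eval 1 P) ^ (p - 1) := by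
    rw [← h4, h3]
    exact dvd_add (dvd_mul_right _ _) hd
  obtain ⟨c, hc⟩ := (Nat.prime_iff_prime_int.1 hp).dvd_of_dvd_pow h5
  obtain ⟨H, hH⟩ := X_sub_C_dvd_sub_C_eval (p := P) (a := (1 : ℤ))
  obtain ⟨H', hH'⟩ := X_sub_C_dvd_sub_C_eval (p := cyclotomic p ℤ) (a := (1 : ℤ))
  rw [eval_one_cyclotomic_prime] at hH'
  rw [hc, C_mul] at hH
  rw [C_1] at hH hH'
  refine ⟨H - C c * H', C c, ?_⟩
  linear_combination hH - C c * hH'

lemma npDiv (p : ℕ) [Fact p.Prime] (K : ℕ) : ∀ (P : ℤ[X]) (m : ℤ), (m : ℂ) = npM p P →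
    (p : ℤ) ^ K ∣ m → ∃ U V : ℤ[X], P = (X - 1) ^ K * U + cyclotomic p ℤ * V := by
  have hp : p.Prime := Fact.out
  induction K with
  | zero =>
    intro P m _ _
    exact ⟨P, 0, by simp⟩
  | succ K ih =>
    intro P m hm hd
    obtain ⟨U, V, hUV⟩ := npStep p P m hm (dvd_trans (dvd_pow_self _ (Nat.succ_ne_zero K)) hd)
    obtain ⟨m₁, -, -, hm₁⟩ := npRed p U
    have h1 : npM p P = (∏ μ ∈ primitiveRoots p ℂ, (μ - 1)) * npM p U := by
      unfold npM
      rw [← Finset.prod_mul_distrib]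
      refine Finset.prod_congr rfl fun μ hμ => ?_
      rw [hUV, map_add, map_mul, map_mul, npRoot p hμ, zero_mul, add_zero, map_sub, aeval_X,
        map_one]
    have h2 : ∏ μ ∈ primitiveRoots p ℂ, (1 - μ) = (p : ℂ) := by
      have e := cyclotomic_eq_prod_X_sub_primitiveRoots (Complex.isPrimitiveRoot_exp p hp.ne_zero)
      have e2 := congrArg (eval 1) e
      rw [eval_one_cyclotomic_prime, eval_prod] at e2
      rw [e2]
      refine Finset.prod_congr rfl fun μ _ => ?_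
      rw [eval_sub, eval_X, eval_C]
    have h3 : ∏ μ ∈ primitiveRoots p ℂ, (μ - 1) =
        (-1) ^ (primitiveRoots p ℂ).card * (p : ℂ) := by
      rw [← h2, ← Finset.prod_const, ← Finset.prod_mul_distrib]
      refine Finset.prod_congr rfl fun μ _ => ?_
      ring
    set cc := (primitiveRoots p ℂ).card with hcc
    have h4 : m = (-1) ^ cc * (p : ℤ) * m₁ := by
      have : (m : ℂ) = (((-1) ^ cc * (p : ℤ) * m₁ : ℤ) : ℂ) := by
        rw [hm, h1, h3, ← hm₁]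
        push_cast
        ring
      exact_mod_cast this
    have h5 : (p : ℤ) * m₁ = (-1) ^ cc * m := by
      have e : ((-1 : ℤ) ^ cc) * (-1) ^ cc = 1 := by
        rw [← mul_pow]
        norm_num
      rw [h4]
      linear_combination (-(p : ℤ) * m₁) * e
    have h6 : (p : ℤ) ^ K ∣ m₁ := by
      have e : (p : ℤ) * (p : ℤ) ^ K ∣ (p : ℤ) * m₁ := by
        rw [h5, ← pow_succ']
        exact Dvd.dvd.mul_left hd _
      exact (mul_dvd_mul_iff_left (by exact_mod_cast hp.ne_zero)).1 e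
    obtain ⟨U₂, V₂, h7⟩ := ih U m₁ hm₁ h6
    refine ⟨U₂, (X - 1) * V₂ + V, ?_⟩
    rw [hUV, h7]
    ring

end NormPkgAux

theorem norm_pkg (p : ℕ) [Fact p.Prime] (P : Polynomial ℤ) :
    ∃ m : ℤ, (m : ℂ) = ∏ j ∈ Ico 1 p,
        Polynomial.aeval (Complex.exp (2 * (Real.pi : ℂ) * Complex.I * (j : ℂ) / (p : ℂ))) P ∧
      ∀ K : ℕ, (p : ℤ) ^ K ∣ m → ∀ (R : Type) [CommRing R] [IsDomain R] (ζ : R),
        ζ ^ p = 1 → ζ ≠ 1 → (ζ - 1) ^ K ∣ Polynomial.aeval ζ P := by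
  have hp : p.Prime := Fact.out
  obtain ⟨m, -, -, hm⟩ := npRed p P
  refine ⟨m, ?_, ?_⟩
  · rw [hm, ← npProd p (Complex.isPrimitiveRoot_exp p hp.ne_zero) P]
    refine Finset.prod_congr rfl fun j _ => ?_
    rw [← Complex.exp_nat_mul]
    have e : 2 * (Real.pi : ℂ) * Complex.I * (j : ℂ) / (p : ℂ) =
        (j : ℂ) * (2 * (Real.pi : ℂ) * Complex.I / (p : ℂ)) := by ring
    rw [e]
  · intro K hK R _ _ ζ h1 h2
    obtain ⟨U, V, h3⟩ := npDiv p K P m hm hK
    have h4 : Polynomial.aeval ζ (Polynomial.cyclotomic p ℤ) = 0 := by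
      rw [Polynomial.cyclotomic_prime, map_sum]
      have e : (ζ - 1) * ∑ i ∈ range p, ζ ^ i = 0 := by
        rw [mul_geom_sum, h1, sub_self]
      have e2 := (mul_eq_zero.1 e).resolve_left (sub_ne_zero.2 h2)
      rw [← e2]
      exact Finset.sum_congr rfl fun i _ => by rw [map_pow, Polynomial.aeval_X]
    rw [h3, map_add, map_mul, map_mul, h4, zero_mul, add_zero, map_pow, map_sub,
      Polynomial.aeval_X, map_one]
    exact dvd_mul_right _ _

end Pool.Agent.WVal
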