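import Mathlib

/-!
The coefficient ring `W(F)[ζ_p]`, only through the properties we need.

Proof. `W = WittVector p F` is a discrete valuation ring with maximal ideal `(p)` and residue field `F`
(`WittVector.isDiscreteValuationRing`, `WittVector.ker_constantCoeff`, `WittVector.irreducible`), of characteristic
zero (`WittVector.p_nonzero`). `Φ = (cyclotomic p ℤ).map (Int.castRingHom W)`; `Φ(X+1)` is Eisenstein at `(p)`
(`cyclotomic_comp_X_add_one_isEisensteinAt` over `ℤ`, and `p ∉ (p^2)` in `W`), hence irreducible and prime in `W[X]`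
(UFD), so `Φ` is prime and `R = AdjoinRoot Φ` is a domain. `ζ = root`; `ζ ≠ 1` since `ρ'(Φ)`.. : if `ζ = 1` then
`X - 1 ∈ (Φ)`, impossible by degree when `p > 2`, and for `p = 2`, `Φ = X + 1`, `ζ = -1 ≠ 1` (char 0).
`ρ : R → F` is the lift of `constantCoeff : W → F`, `ζ ↦ 1` (`Φ(1) = p = 0` in `F`). If `ρ r = 0`, `r = P(ζ)`,
`P = (X-1) Q + P(1)`, `P(1) ∈ ker constantCoeff = (p)`, and `p = Φ(1) ∈ (ζ - 1)` because `Φ(1) - Φ(ζ) ∈ (1-ζ)`.
`ω = (AdjoinRoot.of) ∘ teichmuller`.
-/

set_option autoImplicit false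

namespace Pool.Agent.WVal

open Polynomial

private theorem eis_facts (p : ℕ) [hp : Fact p.Prime] :
    ((cyclotomic p ℤ).comp (X + 1)).Monic ∧ ((cyclotomic p ℤ).comp (X + 1)).natDegree = p - 1 ∧
      ((cyclotomic p ℤ).comp (X + 1)).coeff 0 = (p : ℤ) ∧
      ((cyclotomic p ℤ).comp (X + 1)) * X = (X + 1) ^ p - 1 := by
  refine ⟨?_, ?_, ?_, ?_⟩
  · rw [show (X + 1 : ℤ[X]) = X + C 1 by simp]
    refine (cyclotomic.monic p ℤ).comp (monic_X_add_C 1) fun h => ?_
    rw [natDegree_X_add_C] at h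
    exact zero_ne_one h.symm
  · rw [natDegree_comp, show (X + 1 : ℤ[X]) = X + C 1 by simp, natDegree_X_add_C, mul_one,
      natDegree_cyclotomic, Nat.totient_prime hp.out]
  · rw [coeff_zero_eq_eval_zero, eval_comp, cyclotomic_prime, eval_add, eval_X, eval_one, zero_add,
      eval_geom_sum, one_geom_sum]
  · have h := cyclotomic_prime_mul_X_sub_one ℤ p
    have h2 := congrArg (fun f : ℤ[X] => f.comp (X + 1)) h
    simp only [mul_comp, sub_comp, X_comp, one_comp, pow_comp] at h2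
    rw [add_sub_cancel_right] at h2
    exact h2

theorem exists_ring (p : ℕ) [Fact p.Prime] (F : Type) [Field F] [Fintype F] [CharP F p] :
    ∃ (R : Type) (_ : CommRing R) (_ : IsDomain R) (ρ : R →+* F) (ζ : R) (ω : F →* R),
      ζ ^ p = 1 ∧ ζ ≠ 1 ∧ ρ ζ = 1 ∧ (∀ r, ρ r = 0 → (ζ - 1) ∣ r) ∧ (∀ x, ρ (ω x) = x) ∧ ω 0 = 0 := by
  classical
  have hp : p.Prime := Fact.out
  have : PerfectRing F p := inferInstance
  let W := WittVector p F
  have hirr : Irreducible (p : W) := WittVector.irreducible p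
  have hprime : Prime (p : W) := hirr.prime
  obtain ⟨hmon, hdeg, hc0, hmul⟩ := eis_facts p
  set Ψ0 : ℤ[X] := (cyclotomic p ℤ).comp (X + 1) with hΨ0
  let Ψ : W[X] := Ψ0.map (Int.castRingHom W)
  have hΨmon : Ψ.Monic := hmon.map _
  have hΨdeg : Ψ.natDegree = p - 1 := by rw [hmon.natDegree_map, hdeg]
  have hΨc0 : Ψ.coeff 0 = (p : W) := by
    show (Ψ0.map (Int.castRingHom W)).coeff 0 = (p : W)
    rw [coeff_map, hc0]
    simp
  have hΨmul : Ψ * X = (X + 1) ^ p - 1 := by
    have := congrArg (Polynomial.map (Int.castRingHom W)) hmul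
    simpa using this
  have hpI : (Ideal.span {(p : W)}).IsPrime := (Ideal.span_singleton_prime hprime.ne_zero).mpr hprime
  have hEis : Ψ.IsEisensteinAt (Ideal.span {(p : W)}) := by
    refine hΨmon.isEisensteinAt_of_mem_of_notMem hpI.ne_top (fun {i} hi => ?_) ?_
    · have he := cyclotomic_comp_X_add_one_isEisensteinAt p
      have hi' : i < Ψ0.natDegree := by rw [hdeg]; rw [hΨdeg] at hi; exact hi
      have hm := he.mem hi'
      rw [Ideal.submodule_span_eq, Ideal.mem_span_singleton] at hm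
      obtain ⟨c, hc⟩ := hm
      rw [Ideal.mem_span_singleton]
      refine ⟨(c : W), ?_⟩
      show (Ψ0.map (Int.castRingHom W)).coeff i = _
      rw [coeff_map, hc]
      simp
    · rw [hΨc0, Ideal.span_singleton_pow, Ideal.mem_span_singleton]
      intro hdvd
      obtain ⟨c, hc⟩ := hdvd
      have h1 : (p : W) * (1 - (p : W) * c) = 0 := by
        rw [mul_sub, mul_one, ← mul_assoc, ← pow_two, ← hc, sub_self]
      rcases mul_eq_zero.mp h1 with h2 | h2
      · exact hprime.ne_zero h2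
      · apply hprime.not_isUnit
        exact IsUnit.of_mul_eq_one c (sub_eq_zero.mp h2).symm
  have hp1 : 0 < p - 1 := Nat.sub_pos_of_lt hp.one_lt
  have hΨirr : Irreducible Ψ := hEis.irreducible hpI hΨmon.isPrimitive (by rw [hΨdeg]; exact hp1)
  have hΨprime : Prime Ψ := hΨirr.prime
  have hev : Ψ.eval₂ (WittVector.constantCoeff : W →+* F) (0 : F) = 0 := by
    rw [eval₂_at_zero, hΨc0, map_natCast]
    exact CharP.cast_eq_zero F p
  let ρ : AdjoinRoot Ψ →+* F := AdjoinRoot.lift (WittVector.constantCoeff : W →+* F) 0 hev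
  have hdom : IsDomain (AdjoinRoot Ψ) := AdjoinRoot.isDomain_of_prime hΨprime
  have hroot : AdjoinRoot.mk Ψ Ψ = 0 := AdjoinRoot.mk_self
  -- the element `p` in terms of the root
  have hpdvd : AdjoinRoot.root Ψ ∣ AdjoinRoot.of Ψ (p : W) := by
    have h1 : Ψ = Ψ.divX * X + C (Ψ.coeff 0) := (divX_mul_X_add Ψ).symm
    have h2 := congrArg (AdjoinRoot.mk Ψ) h1
    rw [hroot, map_add, map_mul, AdjoinRoot.mk_X, AdjoinRoot.mk_C, hΨc0] at h2
    refine ⟨- AdjoinRoot.mk Ψ Ψ.divX, ?_⟩
    linear_combination -h2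
  have hrne : AdjoinRoot.root Ψ ≠ 0 := by
    intro h0
    rw [h0, zero_dvd_iff] at hpdvd
    have hinj := AdjoinRoot.of.injective_of_degree_ne_zero (f := Ψ) (by
      rw [degree_eq_natDegree hΨmon.ne_zero, hΨdeg]
      exact_mod_cast hp1.ne')
    exact hprime.ne_zero (hinj (by rw [hpdvd, map_zero]))
  refine ⟨AdjoinRoot Ψ, inferInstance, hdom, ρ, AdjoinRoot.root Ψ + 1,
    ((AdjoinRoot.of Ψ : W →+* AdjoinRoot Ψ) : W →* AdjoinRoot Ψ).comp (WittVector.teichmuller p), ?_, ?_, ?_, ?_, ?_, ?_⟩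
  · have h2 := congrArg (AdjoinRoot.mk Ψ) hΨmul
    rw [map_mul, hroot, zero_mul, map_sub, map_pow, map_add, AdjoinRoot.mk_X, map_one] at h2
    exact (sub_eq_zero.mp h2.symm)
  · intro h
    exact hrne (by simpa using h)
  · rw [map_add, map_one]
    show AdjoinRoot.lift _ _ hev (AdjoinRoot.root Ψ) + 1 = 1
    rw [AdjoinRoot.lift_root, zero_add]
  · intro r hr
    rw [add_sub_cancel_right]
    obtain ⟨P, rfl⟩ := AdjoinRoot.mk_surjective r
    have h1 : P = P.divX * X + C (P.coeff 0) := (divX_mul_X_add P).symm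
    have hr' : WittVector.constantCoeff (P.coeff 0) = 0 := by
      have : ρ (AdjoinRoot.mk Ψ P) = WittVector.constantCoeff (P.coeff 0) := by
        show AdjoinRoot.lift _ _ hev (AdjoinRoot.mk Ψ P) = _
        rw [AdjoinRoot.lift_mk, eval₂_at_zero]
      rw [← this]
      exact hr
    have hker : P.coeff 0 ∈ RingHom.ker (WittVector.constantCoeff : W →+* F) := hr'
    rw [WittVector.ker_constantCoeff, Ideal.mem_span_singleton] at hker
    obtain ⟨c, hc⟩ := hker
    have h2 := congrArg (AdjoinRoot.mk Ψ) h1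
    rw [map_add, map_mul, AdjoinRoot.mk_X, AdjoinRoot.mk_C, hc, map_mul] at h2
    rw [h2]
    exact dvd_add (dvd_mul_left _ _) (hpdvd.mul_right _)
  · intro x
    show AdjoinRoot.lift _ _ hev (AdjoinRoot.of Ψ (WittVector.teichmuller p x)) = x
    rw [AdjoinRoot.lift_of]
    exact WittVector.teichmuller_coeff_zero p x
  · show AdjoinRoot.of Ψ (WittVector.teichmuller p 0) = 0
    rw [WittVector.teichmuller_zero, map_zero]

end Pool.Agent.WVal
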