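import Pool.Agent.WVal.ThmD
import Pool.Agent.WVal.Ring
import Pool.Agent.WVal.GaussR
import Pool.Agent.WVal.NormPkg

/-!
Assembly.
-/

set_option autoImplicit false

namespace Pool.Agent.WVal

open Finset

/-- McEliece/Stickelberger upper bound: a residue `z` with small total digit sum gives a Weil sum
of small valuation. -/
theorem weil_of_digit_all {p : ℕ} [Fact p.Prime] {F : Type} [Field F] [Fintype F] [Algebra (ZMod p) F]
    (d : ℕ) (hd : Nat.Coprime d (Fintype.card F - 1)) (B : ℝ) (z : ℤ)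
    (hz : ¬ ((p : ℤ) ^ (Module.finrank (ZMod p) F) - 1) ∣ z)
    (hS : S p (Module.finrank (ZMod p) F) z +
      S p (Module.finrank (ZMod p) F) (-((d : ℤ) * z)) ≤ B) :
    ∃ a : F, a ≠ 0 ∧ ∃ m : ℤ, m ≠ 0 ∧
        (m : ℂ) = ∏ j ∈ Finset.Ico 1 p,
          ∑ x : F, Complex.exp (2 * (Real.pi : ℂ) * Complex.I * (j : ℂ) *
            ((Algebra.trace (ZMod p) F (x ^ d - a * x)).val : ℂ) / (p : ℂ)) ∧
        (padicValInt p m : ℝ) ≤ ((p : ℝ) - 1) * B := by
  classical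
  have hp : p.Prime := Fact.out
  set n := Module.finrank (ZMod p) F with hn
  have hn1 : 1 ≤ n := Module.finrank_pos
  have hcard : Fintype.card F = p ^ n := by
    have := Module.card_eq_pow_finrank (K := ZMod p) (V := F)
    rwa [ZMod.card] at this
  have hppow : p ≤ p ^ n := by
    calc p = p ^ 1 := (pow_one _).symm
      _ ≤ p ^ n := Nat.pow_le_pow_right hp.pos hn1
  have hp2 : 2 ≤ p := hp.two_le
  have hq : 2 < Fintype.card F := by
    by_contra hle
    push Not at hle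
    have hp2' : p = 2 := by rw [hcard] at hle; omega
    have hn2 : n = 1 := by
      by_contra hne
      have h4 : 2 ^ 2 ≤ p ^ n := by
        rw [hp2']
        exact Nat.pow_le_pow_right (by norm_num) (by omega)
      rw [hcard] at hle
      omega
    apply hz
    rw [hn2, hp2']
    norm_num
  have hNcast : ((Fintype.card F - 1 : ℕ) : ℤ) = (p : ℤ) ^ n - 1 := by
    rw [Nat.cast_sub (by omega), hcard]; push_cast; ring
  have hNpos : 0 < (p : ℤ) ^ n - 1 := NZ_pos p n hp.two_le hn1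
  -- natural representative
  set z' : ℕ := (z % ((p : ℤ) ^ n - 1)).toNat with hz'
  have hz'c : (z' : ℤ) = z % ((p : ℤ) ^ n - 1) :=
    Int.toNat_of_nonneg (Int.emod_nonneg _ hNpos.ne')
  have hzz' : ((p : ℤ) ^ n - 1) ∣ (z' : ℤ) - z := by
    rw [hz'c]
    have := Int.emod_add_mul_ediv z ((p : ℤ) ^ n - 1)
    exact ⟨-(z / ((p : ℤ) ^ n - 1)), by linarith⟩
  have hz'n : ¬ (Fintype.card F - 1) ∣ z' := by
    intro h
    apply hz
    have h1 : ((p : ℤ) ^ n - 1) ∣ (z' : ℤ) := by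
      rw [← hNcast]; exact_mod_cast h
    have h2 := dvd_sub h1 hzz'
    simpa using h2
  have hS1 : S p n (z' : ℤ) = S p n z := S_congr p n hp.two_le hn1 _ _ hzz'
  have hS2 : S p n (-((d : ℤ) * (z' : ℤ))) = S p n (-((d : ℤ) * z)) := by
    apply S_congr p n hp.two_le hn1
    have : -((d : ℤ) * (z' : ℤ)) - -((d : ℤ) * z) = -d * ((z' : ℤ) - z) := by ring
    rw [this]
    exact Dvd.dvd.mul_left hzz' _
  obtain ⟨a, ha1, ha2⟩ := digits_of_S p n hp.two_le hn1 (z' : ℤ)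
  obtain ⟨b, hb1, hb2⟩ := digits_of_S p n hp.two_le hn1 (-((d : ℤ) * (z' : ℤ)))
  have ha : ∑ i ∈ range n, a i * p ^ i ≡ z' [MOD (Fintype.card F - 1)] := by
    apply Nat.ModEq.symm
    rw [Nat.modEq_iff_dvd, hNcast]
    push_cast
    exact ha1
  have hb : (∑ i ∈ range n, b i * p ^ i) + d * z' ≡ 0 [MOD (Fintype.card F - 1)] := by
    apply Nat.ModEq.symm
    rw [Nat.modEq_iff_dvd, hNcast]
    push_cast
    rw [sub_neg_eq_add] at hb1
    rw [sub_zero]
    exact hb1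
  set W : ℕ := ∑ i ∈ range n, a i + ∑ i ∈ range n, b i with hW
  have hWR : (W : ℝ) ≤ ((p : ℝ) - 1) * B := by
    rw [hW]
    have hp1 : (0 : ℝ) ≤ (p : ℝ) - 1 := by
      have : (2 : ℝ) ≤ p := by exact_mod_cast hp2
      linarith
    have : ((∑ i ∈ range n, a i + ∑ i ∈ range n, b i : ℕ) : ℝ) =
        ((∑ i ∈ range n, a i : ℕ) : ℝ) + ((∑ i ∈ range n, b i : ℕ) : ℝ) := by push_cast; ring
    rw [this, ha2, hb2, hS1, hS2, ← mul_add]
    exact mul_le_mul_of_nonneg_left hS hp1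
  haveI : CharP F p := charP_of_injective_algebraMap (algebraMap (ZMod p) F).injective p
  obtain ⟨R, _, _, ρ, ζ, ω, hζ, hζ1, hρζ, hker, hω, hω0⟩ := exists_ring p F
  by_contra hcon
  push_neg at hcon
  have hK : ∀ c : F, c ≠ 0 →
      (ζ - 1) ^ (W + 1) ∣ ∑ x : F, ζ ^ (Algebra.trace (ZMod p) F (x ^ d - c * x)).val := by
    intro c hc
    set P : Polynomial ℤ := ∑ x : F, Polynomial.X ^ (Algebra.trace (ZMod p) F (x ^ d - c * x)).val with hP
    obtain ⟨m, hm, hdiv⟩ := norm_pkg p P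
    have hm' : (m : ℂ) = ∏ j ∈ Finset.Ico 1 p,
          ∑ x : F, Complex.exp (2 * (Real.pi : ℂ) * Complex.I * (j : ℂ) *
            ((Algebra.trace (ZMod p) F (x ^ d - c * x)).val : ℂ) / (p : ℂ)) := by
      rw [hm]
      refine Finset.prod_congr rfl fun j _ => ?_
      rw [hP, map_sum]
      refine Finset.sum_congr rfl fun x _ => ?_
      rw [map_pow, Polynomial.aeval_X, ← Complex.exp_nat_mul]
      congr 1
      ring
    have hpm : (p : ℤ) ^ (W + 1) ∣ m := by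
      rw [padicValInt_dvd_iff]
      by_cases hm0 : m = 0
      · exact Or.inl hm0
      · right
        have h1 := hcon c hc m hm0 hm'
        have h2 : (W : ℝ) < (padicValInt p m : ℝ) := lt_of_le_of_lt hWR h1
        have h3 : W < padicValInt p m := by exact_mod_cast h2
        exact h3
    have h4 := hdiv (W + 1) hpm R ζ hζ hζ1
    rw [hP, map_sum] at h4
    simpa using h4
  have h5 := weil_gauss_bound ρ ζ ω hζ hζ1 hρζ hker hω hω0 hq d hd n a b z' hz'n ha hb (W + 1) hK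
  omega

theorem weil_of_digit {p : ℕ} [Fact p.Prime] {F : Type} [Field F] [Fintype F] [Algebra (ZMod p) F]
    (_hp5 : 3 ≤ p) (d : ℕ) (hd : Nat.Coprime d (Fintype.card F - 1)) (B : ℝ) (z : ℤ)
    (hz : ¬ ((p : ℤ) ^ (Module.finrank (ZMod p) F) - 1) ∣ z)
    (hS : S p (Module.finrank (ZMod p) F) z +
      S p (Module.finrank (ZMod p) F) (-((d : ℤ) * z)) ≤ B) :
    ∃ a : F, a ≠ 0 ∧ ∃ m : ℤ, m ≠ 0 ∧
        (m : ℂ) = ∏ j ∈ Finset.Ico 1 p,
          ∑ x : F, Complex.exp (2 * (Real.pi : ℂ) * Complex.I * (j : ℂ) *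
            ((Algebra.trace (ZMod p) F (x ^ d - a * x)).val : ℂ) / (p : ℂ)) ∧
        (padicValInt p m : ℝ) ≤ ((p : ℝ) - 1) * B :=
  weil_of_digit_all d hd B z hz hS

theorem weil_valuation (ε : ℝ) (hε : 0 < ε) : ∃ ℓ₀ p₀ : ℕ,
    ∀ (p : ℕ) [Fact p.Prime] (F : Type) [Field F] [Fintype F] [Algebra (ZMod p) F] (d : ℕ),
      p₀ ≤ p → (∀ q : ℕ, q.Prime → q ∣ Module.finrank (ZMod p) F → ℓ₀ ≤ q) →
      Nat.Coprime d (Fintype.card F - 1) →
      (¬ ∃ k : ℕ, d ≡ p ^ k [MOD Fintype.card F - 1]) →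
      ∃ a : F, a ≠ 0 ∧ ∃ m : ℤ, m ≠ 0 ∧
        (m : ℂ) = ∏ j ∈ Finset.Ico 1 p,
          ∑ x : F, Complex.exp (2 * (Real.pi : ℂ) * Complex.I * (j : ℂ) *
            ((Algebra.trace (ZMod p) F (x ^ d - a * x)).val : ℂ) / (p : ℂ)) ∧
        (padicValInt p m : ℝ) ≤
          ((p : ℝ) - 1) * (1 / 2 + ε) * (Module.finrank (ZMod p) F : ℝ) := by
  obtain ⟨ℓ₀, p₀, hD⟩ := digit_theorem ε hε
  refine ⟨ℓ₀, p₀ + 3, ?_⟩
  intro p hpf F _ _ _ d hp₀ hq hd hnd
  have hp : p.Prime := Fact.out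
  set n := Module.finrank (ZMod p) F with hn
  have hn1 : 1 ≤ n := Module.finrank_pos
  have hcard : Fintype.card F = p ^ n := by
    have := Module.card_eq_pow_finrank (K := ZMod p) (V := F)
    rwa [ZMod.card] at this
  have hppow : p ≤ p ^ n := by
    calc p = p ^ 1 := (pow_one _).symm
      _ ≤ p ^ n := Nat.pow_le_pow_right hp.pos hn1
  have hNcast : ((Fintype.card F - 1 : ℕ) : ℤ) = (p : ℤ) ^ n - 1 := by
    rw [Nat.cast_sub (by omega), hcard]; push_cast; ring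
  have hcop : IsCoprime (d : ℤ) ((p : ℤ) ^ n - 1) := by
    rw [← hNcast]
    exact Nat.isCoprime_iff_coprime.2 hd
  have hnd' : ∀ k : ℕ, ¬ ((p : ℤ) ^ n - 1) ∣ (d : ℤ) - (p : ℤ) ^ k := by
    intro k hk
    apply hnd
    refine ⟨k, ?_⟩
    apply Nat.ModEq.symm
    rw [Nat.modEq_iff_dvd, hNcast]
    push_cast
    exact hk
  obtain ⟨z, hz, hS⟩ := hD p n (by omega) hn1 hq (d : ℤ) hcop hnd'
  obtain ⟨a, ha, m, hm, hmC, hval⟩ := weil_of_digit (F := F) (by omega) d hd ((1 / 2 + ε) * n) z hz hS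
  exact ⟨a, ha, m, hm, hmC, by rw [mul_assoc]; exact hval⟩

end Pool.Agent.WVal
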