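import Mathlib

/-!
A congruence modulo `p^n - 1` between elements of `ℤ[ℤ/n]` with small coefficients is an identity.
-/

set_option autoImplicit false

namespace Pool.Agent.WVal

open Finset

theorem sum_zmod_val (n : ℕ) [NeZero n] (f : ℕ → ℤ) :
    ∑ t : ZMod n, f t.val = ∑ i ∈ range n, f i := by
  refine Finset.sum_bij' (fun t _ => t.val) (fun i _ => (i : ZMod n)) ?_ ?_ ?_ ?_ ?_
  · intro t _; exact Finset.mem_range.2 (ZMod.val_lt t)
  · intro i _; exact Finset.mem_univ _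
  · intro t _; simp
  · intro i hi; exact ZMod.val_cast_of_lt (Finset.mem_range.1 hi)
  · intro t _; rfl

theorem digits_zero (p : ℕ) (hp : 1 ≤ p) (n : ℕ) : ∀ (b : ℕ → ℤ), (∀ i < n, |b i| < p) →
    ∑ i ∈ range n, b i * (p : ℤ) ^ i = 0 → ∀ i < n, b i = 0 := by
  induction n with
  | zero => intro b _ _ i hi; omega
  | succ n ih =>
    intro b hb hs i hi
    rw [Finset.sum_range_succ'] at hs
    simp only [pow_zero, mul_one] at hs
    have e : ∑ k ∈ range n, b (k + 1) * (p : ℤ) ^ (k + 1) =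
        (∑ k ∈ range n, b (k + 1) * (p : ℤ) ^ k) * p := by
      rw [Finset.sum_mul]
      refine Finset.sum_congr rfl fun k _ => ?_
      ring
    rw [e] at hs
    have h0 : b 0 = 0 := by
      apply Int.eq_zero_of_abs_lt_dvd (m := (p : ℤ)) _ (hb 0 (by omega))
      refine ⟨-(∑ k ∈ range n, b (k + 1) * (p : ℤ) ^ k), ?_⟩
      linarith
    rw [h0, add_zero] at hs
    have hp0 : (p : ℤ) ≠ 0 := by
      have : (1 : ℤ) ≤ (p : ℤ) := by exact_mod_cast hp
      omega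
    have h1 := (mul_eq_zero.1 hs).resolve_right hp0
    have h2 := ih (fun k => b (k + 1)) (fun k hk => hb (k + 1) (by omega)) h1
    rcases Nat.eq_zero_or_pos i with hi0 | hi0
    · rw [hi0]; exact h0
    · have := h2 (i - 1) (by omega)
      rwa [Nat.sub_add_cancel hi0] at this

theorem pow_modEq (p n k : ℕ) : (p : ℤ) ^ k ≡ (p : ℤ) ^ (k % n) [ZMOD ((p : ℤ) ^ n - 1)] := by
  have h1 : (p : ℤ) ^ n ≡ 1 [ZMOD ((p : ℤ) ^ n - 1)] := by
    rw [Int.modEq_iff_dvd]
    exact ⟨-1, by ring⟩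
  conv_lhs => rw [← Nat.mod_add_div k n, pow_add, pow_mul]
  have h2 := (h1.pow (k / n)).mul_left ((p : ℤ) ^ (k % n))
  rw [one_pow, mul_one] at h2
  exact h2

theorem lift_identity (p n B : ℕ) [NeZero n] (c c' : ZMod n → ℤ) (κ : ℤ)
    (hB : ∀ t : ZMod n, |(∑ s : ZMod n, c s * c' (t - s)) - (if t = 0 then κ else 0)| ≤ B)
    (hBp : B + 2 ≤ p)
    (h : ((p : ℤ) ^ n - 1) ∣ (∑ s : ZMod n, c s * (p : ℤ) ^ s.val) *
      (∑ s : ZMod n, c' s * (p : ℤ) ^ s.val) - κ) (t : ZMod n) :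
    ∑ s : ZMod n, c s * c' (t - s) = if t = 0 then κ else 0 := by
  set N : ℤ := (p : ℤ) ^ n - 1 with hN
  have hn : 0 < n := Nat.pos_of_ne_zero (NeZero.ne n)
  set b : ZMod n → ℤ := fun t => (∑ s : ZMod n, c s * c' (t - s)) - (if t = 0 then κ else 0) with hb
  -- the sum of `b t p^t` is divisible by `N`
  have hsum : (∑ t : ZMod n, b t * (p : ℤ) ^ t.val) ≡ 0 [ZMOD N] := by
    have e1 : ∑ t : ZMod n, b t * (p : ℤ) ^ t.val =
        (∑ s : ZMod n, ∑ s' : ZMod n, c s * c' s' * (p : ℤ) ^ (s' + s).val) - κ := by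
      simp only [hb, sub_mul, Finset.sum_sub_distrib, Finset.sum_mul]
      congr 1
      · rw [Finset.sum_comm]
        refine Finset.sum_congr rfl fun s _ => ?_
        rw [← Equiv.sum_comp (Equiv.addRight s)]
        refine Finset.sum_congr rfl fun s' _ => ?_
        simp
      · simp
    have e2 : (∑ s : ZMod n, c s * (p : ℤ) ^ s.val) * (∑ s : ZMod n, c' s * (p : ℤ) ^ s.val) =
        ∑ s : ZMod n, ∑ s' : ZMod n, c s * c' s' * (p : ℤ) ^ (s'.val + s.val) := by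
      rw [Finset.sum_mul_sum]
      refine Finset.sum_congr rfl fun s _ => Finset.sum_congr rfl fun s' _ => ?_
      ring
    have e3 : (∑ s : ZMod n, ∑ s' : ZMod n, c s * c' s' * (p : ℤ) ^ (s' + s).val) ≡
        (∑ s : ZMod n, ∑ s' : ZMod n, c s * c' s' * (p : ℤ) ^ (s'.val + s.val)) [ZMOD N] := by
      refine Int.ModEq.sum fun s _ => Int.ModEq.sum fun s' _ => ?_
      apply Int.ModEq.mul_left
      rw [ZMod.val_add]
      exact (pow_modEq p n _).symm
    rw [e1]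
    have h3 : (∑ s : ZMod n, c s * (p : ℤ) ^ s.val) * (∑ s : ZMod n, c' s * (p : ℤ) ^ s.val) - κ ≡ 0
        [ZMOD N] := (Int.modEq_zero_iff_dvd).2 h
    rw [e2] at h3
    exact (e3.sub_right κ).trans h3
  -- transport to range
  set b' : ℕ → ℤ := fun i => b (i : ZMod n) with hb'
  have e4 : ∑ t : ZMod n, b t * (p : ℤ) ^ t.val = ∑ i ∈ range n, b' i * (p : ℤ) ^ i := by
    rw [← sum_zmod_val n (fun i => b' i * (p : ℤ) ^ i)]
    refine Finset.sum_congr rfl fun s _ => ?_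
    simp [hb']
  rw [e4] at hsum
  have hp : (2 : ℤ) ≤ (p : ℤ) := by exact_mod_cast (by omega : 2 ≤ p)
  have hbB : ∀ i, |b' i| ≤ (B : ℤ) := fun i => hB _
  have hgeom : ∀ m : ℕ, ((p : ℤ) - 1) * ∑ i ∈ range m, (p : ℤ) ^ i = (p : ℤ) ^ m - 1 := by
    intro m
    rw [mul_comm]; exact geom_sum_mul (p : ℤ) m
  have hlt : |∑ i ∈ range n, b' i * (p : ℤ) ^ i| < N := by
    have h5 : |∑ i ∈ range n, b' i * (p : ℤ) ^ i| ≤ (B : ℤ) * ∑ i ∈ range n, (p : ℤ) ^ i := by
      calc |∑ i ∈ range n, b' i * (p : ℤ) ^ i| ≤ ∑ i ∈ range n, |b' i * (p : ℤ) ^ i| :=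
            Finset.abs_sum_le_sum_abs _ _
        _ ≤ ∑ i ∈ range n, (B : ℤ) * (p : ℤ) ^ i := by
            refine Finset.sum_le_sum fun i _ => ?_
            rw [abs_mul, abs_of_nonneg (by positivity : (0 : ℤ) ≤ (p : ℤ) ^ i)]
            exact mul_le_mul_of_nonneg_right (hbB i) (by positivity)
        _ = _ := by rw [Finset.mul_sum]
    have h6 : 0 < ∑ i ∈ range n, (p : ℤ) ^ i := by
      apply Finset.sum_pos
      · intro i _; positivity
      · exact ⟨0, Finset.mem_range.2 hn⟩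
    have h7 : (B : ℤ) < (p : ℤ) - 1 := by
      have : (B : ℤ) + 2 ≤ (p : ℤ) := by exact_mod_cast hBp
      linarith
    calc _ ≤ (B : ℤ) * ∑ i ∈ range n, (p : ℤ) ^ i := h5
      _ < ((p : ℤ) - 1) * ∑ i ∈ range n, (p : ℤ) ^ i := mul_lt_mul_of_pos_right h7 h6
      _ = N := hgeom n
  have hz : ∑ i ∈ range n, b' i * (p : ℤ) ^ i = 0 :=
    Int.eq_zero_of_abs_lt_dvd ((Int.modEq_zero_iff_dvd).1 hsum) hlt
  have hall := digits_zero p (by omega) n b' (fun i _ => lt_of_le_of_lt (hbB i) (by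
    have : (B : ℤ) + 2 ≤ (p : ℤ) := by exact_mod_cast hBp
    linarith)) hz
  have ht := hall t.val (ZMod.val_lt t)
  have : b t = 0 := by
    have e : ((t.val : ℕ) : ZMod n) = t := ZMod.natCast_zmod_val t
    simp only [hb', e] at ht
    exact ht
  simp only [hb] at this
  linarith

end Pool.Agent.WVal
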