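import Pool.Agent.WVal.Avg

/-!
Averaging over sparse random digits (for small `p`): the analogue of `avg` (read `Avg.lean` first, the proof is the
same). Random variable: `ξ : Fin n → ℕ` uniform in `piFinset (range L)`, digit at `x` is `1` if `ξ x = 0` and `0`
otherwise, `Z ξ = ∑_x (if ξ x = 0 then 1 else 0) p^x`. For `m ≠ 0`, `|m| ≤ M`:
`∑_ξ E(m p^i (-(e Z ξ))/N) = ∏_x ((L-1) + E(- p^(x+i) m e / N))` (`Finset.prod_univ_sum`; the sum over `range L` of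
`E((if k = 0 then 1 else 0) * t)` is `(L - 1) + E t`), of norm at most `ε' L^n` by `prod_shift` and hypothesis
(`‖(L-1) + E(-t)‖ = ‖(L-1) + E t‖`). So `∑_ξ S(-(e Z ξ)) ≤ n (1/2 + ε) L^n` exactly as in `avg`; and
`∑_ξ S(Z ξ) ≤ ∑_ξ #{x : ξ x = 0}/(p-1) ≤ n L^(n-1) ≤ ε n L^n` (`S_sum_le`, `1 ≤ ε L`). The `ξ` with `N ∣ Z ξ` are those
without zero entry, `(L-1)^n` many, and possibly (`p = 2`) the zero function, 1. If all the others had
`S(Z) + S(-(e Z)) > (1/2 + 3 ε) n`, then `(L^n - (L-1)^n - 1)(1/2 + 3ε) ≤ (1/2 + 2ε) L^n`, i.e.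
`1 - (1-1/L)^n - L^(-n) ≤ (1/2+2ε)/(1/2+3ε) < 1`, false for `n ≥ n₀(ε, L)`.
-/

set_option autoImplicit false

namespace Pool.Agent.WVal

open Finset

/-- generating function of one sparse random digit (times `L`) -/
noncomputable def H (L : ℕ) (β : ℝ) : ℂ := ((L : ℂ) - 1) + E β

private theorem H_add_int (L : ℕ) (β : ℝ) (k : ℤ) : H L (β + k) = H L β := by
  unfold H
  rw [E_add]
  have : E (k : ℝ) = 1 := by
    unfold E
    have h : 2 * (Real.pi : ℂ) * Complex.I * (((k : ℤ) : ℝ) : ℂ) =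
        ((k : ℤ) : ℂ) * (2 * (Real.pi : ℂ) * Complex.I) := by
      push_cast; ring
    rw [h, Complex.exp_int_mul_two_pi_mul_I]
  rw [this, mul_one]

private theorem H_neg_norm (L : ℕ) (β : ℝ) : ‖H L (-β)‖ = ‖H L β‖ := by
  have : H L (-β) = (starRingEnd ℂ) (H L β) := by
    unfold H E
    rw [map_add, map_sub, map_natCast, map_one, ← Complex.exp_conj]
    congr 2
    simp only [map_mul, Complex.conj_I, Complex.conj_ofReal, map_ofNat]
    push_cast; ring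
  rw [this, RCLike.norm_conj]

private theorem H_periodic (p n L : ℕ) (hp : 2 ≤ p) (hn : 1 ≤ n) (a b : ℤ)
    (h : ((p : ℤ) ^ n - 1) ∣ a - b) :
    ‖H L ((a : ℝ) / ((p : ℝ) ^ n - 1))‖ = ‖H L ((b : ℝ) / ((p : ℝ) ^ n - 1))‖ := by
  obtain ⟨k, hk⟩ := h
  have hN := N_pos p n hp hn
  have e : (a : ℝ) / ((p : ℝ) ^ n - 1) = (b : ℝ) / ((p : ℝ) ^ n - 1) + (k : ℝ) := by
    have h2 : (a : ℝ) = (b : ℝ) + ((p : ℝ) ^ n - 1) * k := by
      have : (a : ℤ) = b + ((p : ℤ) ^ n - 1) * k := by linarith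
      exact_mod_cast this
    rw [h2]
    field_simp
  rw [e, H_add_int]

/-- the digit -/
private def dg (k : ℕ) : ℕ := if k = 0 then 1 else 0

private theorem dg_le (k : ℕ) : dg k ≤ 1 := by
  unfold dg; split_ifs <;> omega

private theorem sum_dg (L : ℕ) (hL : 1 ≤ L) (t : ℝ) :
    ∑ k ∈ range L, E ((dg k : ℝ) * t) = H L t := by
  obtain ⟨m, rfl⟩ : ∃ m, L = m + 1 := ⟨L - 1, by omega⟩
  rw [Finset.sum_range_succ']
  unfold H
  have h1 : ∀ k ∈ range m, E ((dg (k + 1) : ℝ) * t) = 1 := by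
    intro k _
    have : dg (k + 1) = 0 := by unfold dg; simp
    rw [this]; simp [E_zero]
  rw [Finset.sum_congr rfl h1]
  have h2 : dg 0 = 1 := by unfold dg; simp
  rw [h2]
  simp

private theorem sum_dg_card (L n : ℕ) (hL : 1 ≤ L) (x : Fin n) :
    ∑ ξ ∈ Fintype.piFinset (fun _ : Fin n => range L), (dg (ξ x) : ℝ) = (L : ℝ) ^ (n - 1) := by
  have h1 : ∀ ξ : Fin n → ℕ, (dg (ξ x) : ℝ) = ∏ y : Fin n, (if y = x then (dg (ξ y) : ℝ) else 1) := by
    intro ξ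
    rw [Finset.prod_ite_eq' Finset.univ x (fun y => (dg (ξ y) : ℝ))]
    simp
  simp only [h1]
  have h2 := Finset.prod_univ_sum (fun _ : Fin n => range L)
    (fun (y : Fin n) (k : ℕ) => (if y = x then (dg k : ℝ) else 1))
  rw [← h2]
  have h3 : ∀ y : Fin n, ∑ k ∈ range L, (if y = x then (dg k : ℝ) else 1) =
      if y = x then 1 else (L : ℝ) := by
    intro y
    split_ifs with hy
    · obtain ⟨m, rfl⟩ : ∃ m, L = m + 1 := ⟨L - 1, by omega⟩
      rw [Finset.sum_range_succ']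
      have h4 : ∀ k ∈ range m, (dg (k + 1) : ℝ) = 0 := by
        intro k _
        have : dg (k + 1) = 0 := by unfold dg; simp
        rw [this]; simp
      rw [Finset.sum_congr rfl h4]
      have h2 : dg 0 = 1 := by unfold dg; simp
      rw [h2]
      simp
    · simp
  simp only [h3]
  rw [Finset.prod_ite]
  simp only [Finset.prod_const_one, one_mul, Finset.prod_const]
  congr 1
  have : (Finset.univ.filter (fun y : Fin n => ¬ y = x)) = Finset.univ.erase x := by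
    ext y; simp
  rw [this, Finset.card_erase_of_mem (Finset.mem_univ _)]
  simp

/-- choice of `n₀` -/
private theorem n0_exists (L : ℕ) (hL : 2 ≤ L) (δ : ℝ) (hδ : 0 < δ) :
    ∃ n₀ : ℕ, ∀ n, n₀ ≤ n → ((L : ℝ) - 1) ^ n + 1 ≤ δ * (L : ℝ) ^ n := by
  have hLR : (2 : ℝ) ≤ L := by exact_mod_cast hL
  have h1 : Filter.Tendsto (fun n : ℕ => (((L : ℝ) - 1) / L) ^ n) Filter.atTop (nhds 0) := by
    apply tendsto_pow_atTop_nhds_zero_of_lt_one
    · apply div_nonneg <;> linarith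
    · rw [div_lt_one (by linarith)]; linarith
  have h2 : Filter.Tendsto (fun n : ℕ => (1 / (L : ℝ)) ^ n) Filter.atTop (nhds 0) := by
    apply tendsto_pow_atTop_nhds_zero_of_lt_one
    · positivity
    · rw [div_lt_one (by linarith)]; linarith
  have h3 := h1.add h2
  rw [add_zero] at h3
  have h4 := (h3.eventually (gt_mem_nhds hδ))
  rw [Filter.eventually_atTop] at h4
  obtain ⟨n₀, hn₀⟩ := h4
  refine ⟨n₀, fun n hn => ?_⟩
  have h5 := (hn₀ n hn).le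
  have hLn : (0 : ℝ) < (L : ℝ) ^ n := by positivity
  rw [div_pow, div_pow, one_pow, ← add_div, div_le_iff₀ hLn] at h5
  exact h5

theorem bern_avg (ε : ℝ) (hε : 0 < ε) (L : ℕ) (hL : 2 ≤ L) (hLε : 1 ≤ ε * (L : ℝ)) :
    ∃ M n₀ : ℕ, ∃ ε' : ℝ, 0 < ε' ∧ ∀ p n : ℕ, 2 ≤ p → n₀ ≤ n → ∀ e : ℤ,
    (∀ m : ℕ, 1 ≤ m → m ≤ M →
      ∏ x ∈ range n, ‖H L (((p : ℝ) ^ x * ((m : ℝ) * (e : ℝ))) / ((p : ℝ) ^ n - 1))‖
        ≤ ε' * (L : ℝ) ^ n) →
    ∃ z : ℤ, ¬ ((p : ℤ) ^ n - 1) ∣ z ∧ S p n z + S p n (-(e * z)) ≤ (1 / 2 + 3 * ε) * n := by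
  obtain ⟨M, q, hq0, hq⟩ := majorant (ε / 2) (by positivity)
  set Q : ℝ := ∑ m ∈ Icc (-(M : ℤ)) (M : ℤ), ‖q m‖ with hQ
  have hQ0 : 0 ≤ Q := Finset.sum_nonneg fun _ _ => norm_nonneg _
  obtain ⟨n₀, hn₀⟩ := n0_exists L hL (ε / (2 * (1 / 2 + 3 * ε))) (by positivity)
  refine ⟨M, max n₀ 1, ε / (2 * (Q + 1)), by positivity, ?_⟩
  set ε' : ℝ := ε / (2 * (Q + 1)) with hε'
  have hε'0 : 0 < ε' := by rw [hε']; positivity
  have hQε' : Q * ε' ≤ ε / 2 := by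
    rw [hε', ← mul_div_assoc, div_le_div_iff₀ (by positivity) (by norm_num)]
    nlinarith
  intro p n hp hnn e hprod
  have hn : 1 ≤ n := le_trans (le_max_right _ _) hnn
  have hn0 := hn₀ n (le_trans (le_max_left _ _) hnn)
  have hN := N_pos p n hp hn
  have hNZ := NZ_pos p n hp hn
  have hLR : (2 : ℝ) ≤ L := by exact_mod_cast hL
  have hnR : (1 : ℝ) ≤ n := by exact_mod_cast hn
  -- random digits
  set Ξ : Finset (Fin n → ℕ) := Fintype.piFinset (fun _ => range L) with hΞ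
  have hcard : (Ξ.card : ℝ) = (L : ℝ) ^ n := by
    rw [hΞ, Fintype.card_piFinset]
    simp
  set Z : (Fin n → ℕ) → ℤ := fun ξ => ∑ x : Fin n, (dg (ξ x) : ℤ) * (p : ℤ) ^ (x : ℕ) with hZ
  -- claim A
  have claimA : ∀ i : ℕ, ∀ m : ℤ, m ≠ 0 → m.natAbs ≤ M →
      ‖∑ ξ ∈ Ξ, E ((m : ℝ) * ((((p : ℤ) ^ i * (-(e * Z ξ)) : ℤ) : ℝ) / ((p : ℝ) ^ n - 1)))‖ ≤
        ε' * (L : ℝ) ^ n := by
    intro i m hm hmM
    have h1 : ∀ ξ : Fin n → ℕ,
        E ((m : ℝ) * ((((p : ℤ) ^ i * (-(e * Z ξ)) : ℤ) : ℝ) / ((p : ℝ) ^ n - 1))) =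
        ∏ x : Fin n, E ((dg (ξ x) : ℝ) *
          (-(((p : ℤ) ^ (x : ℕ) * ((p : ℤ) ^ i * (m * e)) : ℤ) : ℝ) / ((p : ℝ) ^ n - 1))) := by
      intro ξ
      rw [← E_sum]
      congr 1
      simp only [hZ]
      push_cast
      rw [Finset.mul_sum, ← Finset.sum_neg_distrib, Finset.mul_sum, Finset.sum_div, Finset.mul_sum]
      refine Finset.sum_congr rfl fun x _ => ?_
      ring
    have h2 : ∑ ξ ∈ Ξ, E ((m : ℝ) * ((((p : ℤ) ^ i * (-(e * Z ξ)) : ℤ) : ℝ) / ((p : ℝ) ^ n - 1))) =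
        ∏ x : Fin n,
          H L (-(((p : ℤ) ^ (x : ℕ) * ((p : ℤ) ^ i * (m * e)) : ℤ) : ℝ) / ((p : ℝ) ^ n - 1)) := by
      simp only [h1]
      have := Finset.prod_univ_sum (fun _ : Fin n => range L)
        (fun (x : Fin n) (k : ℕ) => E ((dg k : ℝ) *
          (-(((p : ℤ) ^ (x : ℕ) * ((p : ℤ) ^ i * (m * e)) : ℤ) : ℝ) / ((p : ℝ) ^ n - 1))))
      rw [hΞ, ← this]
      refine Finset.prod_congr rfl fun x _ => ?_
      exact sum_dg L (by omega) _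
    rw [h2, norm_prod]
    have h3 : ∀ x : Fin n,
        ‖H L (-(((p : ℤ) ^ (x : ℕ) * ((p : ℤ) ^ i * (m * e)) : ℤ) : ℝ) / ((p : ℝ) ^ n - 1))‖ =
        ‖H L ((((p : ℤ) ^ (x : ℕ) * ((p : ℤ) ^ i * ((m.natAbs : ℤ) * e)) : ℤ) : ℝ) /
          ((p : ℝ) ^ n - 1))‖ := by
      intro x
      rcases Int.natAbs_eq m with hm' | hm'
      · have : ∀ t : ℤ, -((t : ℤ) : ℝ) / ((p : ℝ) ^ n - 1) = -((t : ℝ) / ((p : ℝ) ^ n - 1)) := by
          intro t; ring
        rw [this, H_neg_norm, ← hm']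
      · congr 2
        have : (m : ℤ) = -(m.natAbs : ℤ) := hm'
        conv_lhs => rw [this]
        push_cast
        ring
    simp only [h3]
    have h4 := Fin.prod_univ_eq_prod_range (fun x => ‖H L ((((p : ℤ) ^ x *
      ((p : ℤ) ^ i * ((m.natAbs : ℤ) * e)) : ℤ) : ℝ) / ((p : ℝ) ^ n - 1))‖) n
    rw [h4]
    have h5 := prod_shift p n (fun a => ‖H L ((a : ℝ) / ((p : ℝ) ^ n - 1))‖)
      (fun a b hab => H_periodic p n L hp hn a b hab) i ((m.natAbs : ℤ) * e)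
    rw [h5]
    have h6 := hprod m.natAbs (Int.natAbs_pos.2 hm) hmM
    refine le_trans (le_of_eq ?_) h6
    refine Finset.prod_congr rfl fun x _ => ?_
    congr 3
    simp only [Int.cast_mul, Int.cast_pow, Int.cast_natCast]
  -- claim B
  have claimB : ∀ i : ℕ,
      ∑ ξ ∈ Ξ, Int.fract ((((p : ℤ) ^ i * (-(e * Z ξ)) : ℤ) : ℝ) / ((p : ℝ) ^ n - 1)) ≤
        (1 / 2 + ε) * (L : ℝ) ^ n := by
    intro i
    set w : (Fin n → ℕ) → ℝ := fun ξ =>
      (((p : ℤ) ^ i * (-(e * Z ξ)) : ℤ) : ℝ) / ((p : ℝ) ^ n - 1) with hw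
    have h1 : ∑ ξ ∈ Ξ, Int.fract (w ξ) ≤
        (∑ m ∈ Icc (-(M : ℤ)) (M : ℤ), q m * ∑ ξ ∈ Ξ, E ((m : ℝ) * w ξ)).re := by
      have e1 : ∑ m ∈ Icc (-(M : ℤ)) (M : ℤ), q m * ∑ ξ ∈ Ξ, E ((m : ℝ) * w ξ) =
          ∑ ξ ∈ Ξ, ∑ m ∈ Icc (-(M : ℤ)) (M : ℤ), q m * E ((m : ℝ) * w ξ) := by
        simp only [Finset.mul_sum]
        rw [Finset.sum_comm]
      rw [e1, Complex.re_sum]
      refine Finset.sum_le_sum fun ξ _ => ?_
      exact hq (w ξ)
    refine h1.trans ?_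
    have h0mem : (0 : ℤ) ∈ Icc (-(M : ℤ)) (M : ℤ) := by
      rw [Finset.mem_Icc]; constructor <;> omega
    rw [← Finset.add_sum_erase _ _ h0mem, Complex.add_re]
    have h2 : (q 0 * ∑ ξ ∈ Ξ, E (((0 : ℤ) : ℝ) * w ξ)).re ≤ (1 / 2 + ε / 2) * (L : ℝ) ^ n := by
      have : ∑ ξ ∈ Ξ, E (((0 : ℤ) : ℝ) * w ξ) = (((L : ℝ) ^ n : ℝ) : ℂ) := by
        simp only [Int.cast_zero, zero_mul, E_zero, Finset.sum_const, nsmul_eq_mul, mul_one]
        rw [← hcard]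
        simp
      rw [this, Complex.re_mul_ofReal]
      gcongr
    have h3 : (∑ m ∈ (Icc (-(M : ℤ)) (M : ℤ)).erase 0, q m * ∑ ξ ∈ Ξ, E ((m : ℝ) * w ξ)).re ≤
        Q * (ε' * (L : ℝ) ^ n) := by
      refine (Complex.re_le_norm _).trans ?_
      refine (norm_sum_le _ _).trans ?_
      rw [hQ, Finset.sum_mul]
      calc ∑ m ∈ (Icc (-(M : ℤ)) (M : ℤ)).erase 0, ‖q m * ∑ ξ ∈ Ξ, E ((m : ℝ) * w ξ)‖
          ≤ ∑ m ∈ (Icc (-(M : ℤ)) (M : ℤ)).erase 0, ‖q m‖ * (ε' * (L : ℝ) ^ n) := by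
            refine Finset.sum_le_sum fun m hm => ?_
            rw [Finset.mem_erase, Finset.mem_Icc] at hm
            rw [norm_mul]
            apply mul_le_mul_of_nonneg_left _ (norm_nonneg _)
            exact claimA i m hm.1 (by omega)
        _ ≤ ∑ m ∈ Icc (-(M : ℤ)) (M : ℤ), ‖q m‖ * (ε' * (L : ℝ) ^ n) := by
            apply Finset.sum_le_sum_of_subset_of_nonneg (Finset.erase_subset _ _)
            intro m _ _
            positivity
    have h4 : Q * (ε' * (L : ℝ) ^ n) ≤ ε / 2 * (L : ℝ) ^ n := by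
      rw [← mul_assoc]
      gcongr
    linarith
  -- claim C
  have claimC : ∑ ξ ∈ Ξ, S p n (-(e * Z ξ)) ≤ n * ((1 / 2 + ε) * (L : ℝ) ^ n) := by
    simp only [S_eq]
    rw [Finset.sum_comm]
    calc _ ≤ ∑ i ∈ range n, (1 / 2 + ε) * (L : ℝ) ^ n := Finset.sum_le_sum fun i _ => claimB i
      _ = _ := by simp
  -- digits as a function on the naturals
  have hp1 : (1 : ℝ) ≤ (p : ℝ) - 1 := by
    have : (2 : ℝ) ≤ (p : ℝ) := by exact_mod_cast hp
    linarith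
  have hSZ : ∀ ξ : Fin n → ℕ, S p n (Z ξ) ≤ ∑ x : Fin n, (dg (ξ x) : ℝ) := by
    intro ξ
    set a : ℕ → ℕ := fun i => if h : i < n then dg (ξ ⟨i, h⟩) else 0 with ha
    have hZa : Z ξ = ∑ i ∈ range n, (a i : ℤ) * (p : ℤ) ^ i := by
      simp only [hZ]
      rw [← Fin.sum_univ_eq_sum_range (fun i => (a i : ℤ) * (p : ℤ) ^ i)]
      refine Finset.sum_congr rfl fun x _ => ?_
      simp [ha]
    have hsa : ∑ x : Fin n, (dg (ξ x) : ℝ) = ∑ i ∈ range n, (a i : ℝ) := by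
      rw [← Fin.sum_univ_eq_sum_range (fun i => (a i : ℝ))]
      refine Finset.sum_congr rfl fun x _ => ?_
      simp [ha]
    rw [hZa, hsa]
    refine (S_sum_le p n hp hn a n).trans ?_
    apply div_le_self _ hp1
    exact Finset.sum_nonneg fun _ _ => Nat.cast_nonneg _
  -- claim D
  have claimD : ∑ ξ ∈ Ξ, S p n (Z ξ) ≤ n * (ε * (L : ℝ) ^ n) := by
    calc ∑ ξ ∈ Ξ, S p n (Z ξ) ≤ ∑ ξ ∈ Ξ, ∑ x : Fin n, (dg (ξ x) : ℝ) :=
          Finset.sum_le_sum fun ξ _ => hSZ ξ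
      _ = ∑ x : Fin n, ∑ ξ ∈ Ξ, (dg (ξ x) : ℝ) := Finset.sum_comm
      _ = ∑ x : Fin n, (L : ℝ) ^ (n - 1) := by
          refine Finset.sum_congr rfl fun x _ => ?_
          exact sum_dg_card L n (by omega) x
      _ = n * (L : ℝ) ^ (n - 1) := by simp
      _ ≤ n * (ε * (L : ℝ) ^ n) := by
          have h1 : (L : ℝ) ^ n = (L : ℝ) * (L : ℝ) ^ (n - 1) := by
            rw [← pow_succ']
            congr 1
            omega
          have h2 : (L : ℝ) ^ (n - 1) ≤ ε * (L : ℝ) ^ n := by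
            rw [h1]
            have h3 : (0 : ℝ) ≤ (L : ℝ) ^ (n - 1) := by positivity
            nlinarith
          have h0 : (0 : ℝ) ≤ n := by linarith
          exact mul_le_mul_of_nonneg_left h2 h0
  -- the bad vectors
  set B : Finset (Fin n → ℕ) := insert (fun _ => 0) (Fintype.piFinset (fun _ : Fin n => Ico 1 L))
    with hB
  have hBcard : (B.card : ℝ) ≤ ((L : ℝ) - 1) ^ n + 1 := by
    have h1 : B.card ≤ (L - 1) ^ n + 1 := by
      refine (Finset.card_insert_le _ _).trans ?_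
      rw [Fintype.card_piFinset]
      simp
    have h2 : (B.card : ℝ) ≤ (((L - 1) ^ n + 1 : ℕ) : ℝ) := by exact_mod_cast h1
    rw [Nat.cast_add, Nat.cast_pow, Nat.cast_sub (by omega : 1 ≤ L)] at h2
    simpa using h2
  have hgood : ∀ ξ ∈ Ξ, ξ ∉ B → ¬ ((p : ℤ) ^ n - 1) ∣ Z ξ := by
    intro ξ hξ hξB
    rw [hB, Finset.mem_insert, not_or, Fintype.mem_piFinset] at hξB
    obtain ⟨h0, h1⟩ := hξB
    push_neg at h1
    obtain ⟨x₁, hx₁⟩ := h1
    rw [hΞ, Fintype.mem_piFinset] at hξ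
    have hx₁' : ξ x₁ = 0 := by
      have h2 := Finset.mem_range.1 (hξ x₁)
      by_contra h3
      exact hx₁ (Finset.mem_Ico.2 ⟨by omega, h2⟩)
    obtain ⟨x₂, hx₂⟩ : ∃ x, ξ x ≠ 0 := by
      by_contra hcon
      push_neg at hcon
      exact h0 (funext hcon)
    have hp0 : (0 : ℤ) < (p : ℤ) := by exact_mod_cast (by omega : 0 < p)
    have hpos : 0 < Z ξ := by
      simp only [hZ]
      apply Finset.sum_pos' (fun i _ => by positivity)
      refine ⟨x₁, Finset.mem_univ _, ?_⟩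
      rw [hx₁']
      have : dg 0 = 1 := by unfold dg; simp
      rw [this]
      positivity
    have hlt : Z ξ < (p : ℤ) ^ n - 1 := by
      have hg : (∑ i ∈ range n, (p : ℤ) ^ i) * ((p : ℤ) - 1) = (p : ℤ) ^ n - 1 :=
        geom_sum_mul (p : ℤ) n
      have hg2 : Z ξ < ∑ x : Fin n, (p : ℤ) ^ (x : ℕ) := by
        simp only [hZ]
        apply Finset.sum_lt_sum
        · intro i _
          have h2 : (dg (ξ i) : ℤ) ≤ 1 := by exact_mod_cast dg_le (ξ i)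
          have h3 : (0 : ℤ) < (p : ℤ) ^ (i : ℕ) := by positivity
          nlinarith
        · refine ⟨x₂, Finset.mem_univ _, ?_⟩
          have : dg (ξ x₂) = 0 := by unfold dg; simp [hx₂]
          rw [this]
          have h3 : (0 : ℤ) < (p : ℤ) ^ (x₂ : ℕ) := by positivity
          simpa using h3
      rw [Fin.sum_univ_eq_sum_range (fun i => (p : ℤ) ^ i) n] at hg2
      have h4 : (0 : ℤ) < ∑ i ∈ range n, (p : ℤ) ^ i := by
        apply Finset.sum_pos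
        · intro i _; positivity
        · exact ⟨0, Finset.mem_range.2 hn⟩
      have h5 : (1 : ℤ) ≤ (p : ℤ) - 1 := by
        have : (2 : ℤ) ≤ (p : ℤ) := by exact_mod_cast hp
        linarith
      nlinarith
    intro hdv
    have := Int.le_of_dvd hpos hdv
    omega
  -- conclusion
  by_contra hcon
  push_neg at hcon
  have h1 : ((L : ℝ) ^ n - (((L : ℝ) - 1) ^ n + 1)) * ((1 / 2 + 3 * ε) * n) ≤
      ∑ ξ ∈ Ξ, (S p n (Z ξ) + S p n (-(e * Z ξ))) := by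
    calc ((L : ℝ) ^ n - (((L : ℝ) - 1) ^ n + 1)) * ((1 / 2 + 3 * ε) * n)
        ≤ ((Ξ \ B).card : ℝ) * ((1 / 2 + 3 * ε) * n) := by
          apply mul_le_mul_of_nonneg_right _ (by positivity)
          have h2 : Ξ.card ≤ (Ξ \ B).card + B.card := by
            rw [← Finset.card_union_of_disjoint Finset.sdiff_disjoint]
            apply Finset.card_le_card
            intro ξ hξ
            by_cases hb : ξ ∈ B
            · exact Finset.mem_union_right _ hb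
            · exact Finset.mem_union_left _ (Finset.mem_sdiff.2 ⟨hξ, hb⟩)
          have h3 : (Ξ.card : ℝ) ≤ ((Ξ \ B).card : ℝ) + (B.card : ℝ) := by exact_mod_cast h2
          rw [hcard] at h3
          linarith
      _ = ∑ ξ ∈ Ξ \ B, ((1 / 2 + 3 * ε) * n) := by rw [Finset.sum_const, nsmul_eq_mul]
      _ ≤ ∑ ξ ∈ Ξ \ B, (S p n (Z ξ) + S p n (-(e * Z ξ))) := by
          refine Finset.sum_le_sum fun ξ hξ => ?_
          rw [Finset.mem_sdiff] at hξ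
          exact (hcon (Z ξ) (hgood ξ hξ.1 hξ.2)).le
      _ ≤ ∑ ξ ∈ Ξ, (S p n (Z ξ) + S p n (-(e * Z ξ))) := by
          apply Finset.sum_le_sum_of_subset_of_nonneg Finset.sdiff_subset
          intro ξ _ _
          exact add_nonneg (S_nonneg _ _ _) (S_nonneg _ _ _)
  rw [Finset.sum_add_distrib] at h1
  have h2 : n * (((L : ℝ) ^ n - (((L : ℝ) - 1) ^ n + 1)) * (1 / 2 + 3 * ε)) ≤
      n * ((1 / 2 + 2 * ε) * (L : ℝ) ^ n) := by
    linarith
  have h3 := le_of_mul_le_mul_left h2 (by linarith)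
  have h4 : (((L : ℝ) - 1) ^ n + 1) * (1 / 2 + 3 * ε) ≤ ε / 2 * (L : ℝ) ^ n := by
    have h5 : 0 < (1 / 2 + 3 * ε) := by positivity
    calc (((L : ℝ) - 1) ^ n + 1) * (1 / 2 + 3 * ε)
        ≤ (ε / (2 * (1 / 2 + 3 * ε)) * (L : ℝ) ^ n) * (1 / 2 + 3 * ε) :=
          mul_le_mul_of_nonneg_right hn0 h5.le
      _ = ε / 2 * (L : ℝ) ^ n := by
          field_simp
  have h6 : 0 < ε * (L : ℝ) ^ n := by positivity
  linarith

end Pool.Agent.WVal
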