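import Pool.Agent.WVal.Defs

/-!
Elementary properties of `S`.
-/

set_option autoImplicit false

namespace Pool.Agent.WVal

open Finset

theorem S_nonneg (p n : ℕ) (y : ℤ) : 0 ≤ S p n y :=
  Finset.sum_nonneg fun _ _ => Int.fract_nonneg _

theorem N_pos (p n : ℕ) (hp : 2 ≤ p) (hn : 1 ≤ n) : 0 < (p : ℝ) ^ n - 1 := by
  have h1 : (1 : ℝ) < (p : ℝ) := by exact_mod_cast hp
  have h2 : (1 : ℝ) < (p : ℝ) ^ n := one_lt_pow₀ h1 (by omega)
  linarith

theorem NZ_pos (p n : ℕ) (hp : 2 ≤ p) (hn : 1 ≤ n) : 0 < (p : ℤ) ^ n - 1 := by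
  have h := N_pos p n hp hn
  have : (0 : ℝ) < (((p : ℤ) ^ n - 1 : ℤ) : ℝ) := by push_cast; exact h
  exact_mod_cast this

theorem fract_congr (p n : ℕ) (hp : 2 ≤ p) (hn : 1 ≤ n) (y y' : ℤ)
    (h : ((p : ℤ) ^ n - 1) ∣ y - y') :
    Int.fract ((y : ℝ) / ((p : ℝ) ^ n - 1)) = Int.fract ((y' : ℝ) / ((p : ℝ) ^ n - 1)) := by
  obtain ⟨k, hk⟩ := h
  have hN := N_pos p n hp hn
  have e : (y : ℝ) / ((p : ℝ) ^ n - 1) = (y' : ℝ) / ((p : ℝ) ^ n - 1) + (k : ℝ) := by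
    have h2 : (y : ℝ) = (y' : ℝ) + ((p : ℝ) ^ n - 1) * k := by
      have : (y : ℤ) = y' + ((p : ℤ) ^ n - 1) * k := by linarith
      exact_mod_cast this
    rw [h2]
    field_simp
  rw [e, Int.fract_add_intCast]

theorem S_eq (p n : ℕ) (y : ℤ) :
    S p n y = ∑ i ∈ range n, Int.fract ((((p : ℤ) ^ i * y : ℤ) : ℝ) / ((p : ℝ) ^ n - 1)) := by
  unfold S
  refine Finset.sum_congr rfl fun i _ => ?_
  push_cast
  rfl

theorem S_congr (p n : ℕ) (hp : 2 ≤ p) (hn : 1 ≤ n) (y y' : ℤ) (h : ((p : ℤ) ^ n - 1) ∣ y - y') :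
    S p n y = S p n y' := by
  rw [S_eq, S_eq]
  refine Finset.sum_congr rfl fun i _ => ?_
  apply fract_congr p n hp hn
  rw [← mul_sub]
  exact Dvd.dvd.mul_left h _

/-- any function of `p^i y`, `i < n`, periodic modulo `p^n-1`, product over a Frobenius orbit is
invariant under `y ↦ p^j y` -/
theorem prod_shift (p n : ℕ) (F : ℤ → ℝ) (hF : ∀ a b : ℤ, ((p : ℤ) ^ n - 1) ∣ a - b → F a = F b)
    (j : ℕ) (y : ℤ) :
    ∏ i ∈ range n, F ((p : ℤ) ^ i * ((p : ℤ) ^ j * y)) = ∏ i ∈ range n, F ((p : ℤ) ^ i * y) := by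
  induction j with
  | zero => simp
  | succ j ih =>
    rw [← ih]
    set w := (p : ℤ) ^ j * y with hw
    have e1 : ∀ i, (p : ℤ) ^ i * ((p : ℤ) ^ (j + 1) * y) = (p : ℤ) ^ (i + 1) * w := by
      intro i; rw [hw]; ring
    simp only [e1]
    have h1 := Finset.prod_range_succ (fun i => F ((p : ℤ) ^ i * w)) n
    have h2 := Finset.prod_range_succ' (fun i => F ((p : ℤ) ^ i * w)) n
    have h3 : F ((p : ℤ) ^ n * w) = F ((p : ℤ) ^ 0 * w) := by
      apply hF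
      refine ⟨w, by ring⟩
    by_cases h0 : F ((p : ℤ) ^ 0 * w) = 0
    · -- both products vanish when n ≥ 1, or are empty
      rcases Nat.eq_zero_or_pos n with hn | hn
      · subst hn; simp
      · have hz1 : ∏ i ∈ range n, F ((p : ℤ) ^ i * w) = 0 :=
          Finset.prod_eq_zero (Finset.mem_range.2 hn) h0
        have hz2 : ∏ i ∈ range n, F ((p : ℤ) ^ (i + 1) * w) = 0 := by
          apply Finset.prod_eq_zero (Finset.mem_range.2 (Nat.sub_lt hn one_pos))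
          rw [show n - 1 + 1 = n from by omega, h3, h0]
        rw [hz1, hz2]
    · rw [h3] at h1
      rw [h1] at h2
      exact (mul_right_cancel₀ h0 h2).symm

theorem sum_shift (p n : ℕ) (F : ℤ → ℝ) (hF : ∀ a b : ℤ, ((p : ℤ) ^ n - 1) ∣ a - b → F a = F b)
    (j : ℕ) (y : ℤ) :
    ∑ i ∈ range n, F ((p : ℤ) ^ i * ((p : ℤ) ^ j * y)) = ∑ i ∈ range n, F ((p : ℤ) ^ i * y) := by
  induction j with
  | zero => simp
  | succ j ih =>
    rw [← ih]
    set w := (p : ℤ) ^ j * y with hw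
    have e1 : ∀ i, (p : ℤ) ^ i * ((p : ℤ) ^ (j + 1) * y) = (p : ℤ) ^ (i + 1) * w := by
      intro i; rw [hw]; ring
    simp only [e1]
    have h1 := Finset.sum_range_succ (fun i => F ((p : ℤ) ^ i * w)) n
    have h2 := Finset.sum_range_succ' (fun i => F ((p : ℤ) ^ i * w)) n
    have h3 : F ((p : ℤ) ^ n * w) = F ((p : ℤ) ^ 0 * w) := by
      apply hF
      refine ⟨w, by ring⟩
    rw [h3] at h1
    rw [h1] at h2
    linarith

theorem S_pow_mul (p n : ℕ) (hp : 2 ≤ p) (hn : 1 ≤ n) (j : ℕ) (y : ℤ) :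
    S p n ((p : ℤ) ^ j * y) = S p n y := by
  rw [S_eq, S_eq]
  exact sum_shift p n (fun a => Int.fract ((a : ℝ) / ((p : ℝ) ^ n - 1)))
    (fun a b h => fract_congr p n hp hn a b h) j y

theorem S_add_le (p n : ℕ) (y z : ℤ) : S p n (y + z) ≤ S p n y + S p n z := by
  unfold S
  rw [← Finset.sum_add_distrib]
  refine Finset.sum_le_sum fun i _ => ?_
  have e : (p : ℝ) ^ i * ((y + z : ℤ) : ℝ) / ((p : ℝ) ^ n - 1) =
      (p : ℝ) ^ i * (y : ℝ) / ((p : ℝ) ^ n - 1) + (p : ℝ) ^ i * (z : ℝ) / ((p : ℝ) ^ n - 1) := by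
    push_cast; ring
  rw [e]
  exact Int.fract_add_le _ _

theorem S_zero (p n : ℕ) : S p n 0 = 0 := by
  unfold S
  simp

theorem S_one (p n : ℕ) (hp : 2 ≤ p) (hn : 1 ≤ n) : S p n 1 ≤ 1 / ((p : ℝ) - 1) := by
  have hN := N_pos p n hp hn
  have hp1 : (0 : ℝ) < (p : ℝ) - 1 := by
    have : (2 : ℝ) ≤ (p : ℝ) := by exact_mod_cast hp
    linarith
  unfold S
  calc ∑ i ∈ range n, Int.fract ((p : ℝ) ^ i * ((1 : ℤ) : ℝ) / ((p : ℝ) ^ n - 1))
      ≤ ∑ i ∈ range n, (p : ℝ) ^ i / ((p : ℝ) ^ n - 1) := by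
        refine Finset.sum_le_sum fun i _ => ?_
        rw [Int.cast_one, mul_one]
        have h0 : 0 ≤ (p : ℝ) ^ i / ((p : ℝ) ^ n - 1) := by positivity
        have := Int.self_sub_floor ((p : ℝ) ^ i / ((p : ℝ) ^ n - 1))
        rw [← this]
        have hf : (0 : ℝ) ≤ (⌊(p : ℝ) ^ i / ((p : ℝ) ^ n - 1)⌋ : ℝ) := by
          exact_mod_cast Int.floor_nonneg.2 h0
        linarith
    _ = (∑ i ∈ range n, (p : ℝ) ^ i) / ((p : ℝ) ^ n - 1) := by rw [Finset.sum_div]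
    _ = 1 / ((p : ℝ) - 1) := by
        have hg := geom_sum_mul (p : ℝ) n
        rw [div_eq_div_iff hN.ne' hp1.ne', one_mul]
        exact hg

theorem S_nsmul_le (p n : ℕ) (k : ℕ) (y : ℤ) : S p n ((k : ℤ) * y) ≤ (k : ℝ) * S p n y := by
  induction k with
  | zero => simp [S_zero]
  | succ k ih =>
    have e : ((k + 1 : ℕ) : ℤ) * y = (k : ℤ) * y + y := by push_cast; ring
    rw [e]
    have := S_add_le p n ((k : ℤ) * y) y
    push_cast
    linarith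

theorem S_natCast_le (p n : ℕ) (hp : 2 ≤ p) (hn : 1 ≤ n) (k : ℕ) :
    S p n (k : ℤ) ≤ (k : ℝ) / ((p : ℝ) - 1) := by
  have h := S_nsmul_le p n k 1
  rw [mul_one] at h
  have h1 := S_one p n hp hn
  calc S p n (k : ℤ) ≤ (k : ℝ) * S p n 1 := h
    _ ≤ (k : ℝ) * (1 / ((p : ℝ) - 1)) := by gcongr
    _ = (k : ℝ) / ((p : ℝ) - 1) := by ring

theorem S_sum_le (p n : ℕ) (hp : 2 ≤ p) (hn : 1 ≤ n) (a : ℕ → ℕ) (t : ℕ) :
    S p n (∑ i ∈ range t, (a i : ℤ) * (p : ℤ) ^ i) ≤ (∑ i ∈ range t, (a i : ℝ)) / ((p : ℝ) - 1) := by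
  induction t with
  | zero => simp [S_zero]
  | succ t ih =>
    rw [Finset.sum_range_succ, Finset.sum_range_succ]
    have h1 := S_add_le p n (∑ i ∈ range t, (a i : ℤ) * (p : ℤ) ^ i) ((a t : ℤ) * (p : ℤ) ^ t)
    have h2 : S p n ((a t : ℤ) * (p : ℤ) ^ t) ≤ (a t : ℝ) / ((p : ℝ) - 1) := by
      rw [mul_comm, S_pow_mul p n hp hn]
      exact S_natCast_le p n hp hn _
    rw [add_div]
    linarith

theorem not_dvd_pow_mul (p n : ℕ) (hn : 1 ≤ n) (y : ℤ) (h : ¬ ((p : ℤ) ^ n - 1) ∣ y) (i : ℕ) :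
    ¬ ((p : ℤ) ^ n - 1) ∣ (p : ℤ) ^ i * y := by
  intro hd
  apply h
  have hc : IsCoprime ((p : ℤ) ^ n - 1) ((p : ℤ) ^ i) := by
    apply IsCoprime.pow_right
    refine ⟨-1, (p : ℤ) ^ (n - 1), ?_⟩
    have : (p : ℤ) ^ n = (p : ℤ) ^ (n - 1) * p := by
      rw [← pow_succ, Nat.sub_add_cancel hn]
    rw [this]; ring
  exact hc.dvd_of_dvd_mul_left hd

theorem S_neg (p n : ℕ) (hp : 2 ≤ p) (hn : 1 ≤ n) (y : ℤ) (h : ¬ ((p : ℤ) ^ n - 1) ∣ y) :
    S p n (-y) = n - S p n y := by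
  have hN := N_pos p n hp hn
  rw [S_eq, S_eq, eq_sub_iff_add_eq, ← Finset.sum_add_distrib]
  have : ∀ i ∈ range n, Int.fract ((((p : ℤ) ^ i * (-y) : ℤ) : ℝ) / ((p : ℝ) ^ n - 1)) +
      Int.fract ((((p : ℤ) ^ i * y : ℤ) : ℝ) / ((p : ℝ) ^ n - 1)) = 1 := by
    intro i _
    have e : (((p : ℤ) ^ i * (-y) : ℤ) : ℝ) / ((p : ℝ) ^ n - 1) =
        -((((p : ℤ) ^ i * y : ℤ) : ℝ) / ((p : ℝ) ^ n - 1)) := by push_cast; ring
    rw [e, Int.fract_neg]
    · ring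
    · intro h0
      rw [Int.fract_eq_iff] at h0
      obtain ⟨_, _, k, hk⟩ := h0
      apply not_dvd_pow_mul p n hn y h i
      refine ⟨k, ?_⟩
      rw [sub_zero, div_eq_iff hN.ne'] at hk
      have : (((p : ℤ) ^ i * y : ℤ) : ℝ) = ((((p : ℤ) ^ n - 1) * k : ℤ) : ℝ) := by
        rw [hk]; push_cast; ring
      exact_mod_cast this
  rw [Finset.sum_congr rfl this]
  simp

/-- digits of the residue of `y`. -/
theorem digits_of_S (p n : ℕ) (hp : 2 ≤ p) (hn : 1 ≤ n) (y : ℤ) :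
    ∃ a : ℕ → ℕ, ((p : ℤ) ^ n - 1) ∣ (∑ i ∈ range n, (a i : ℤ) * (p : ℤ) ^ i) - y ∧
      ((∑ i ∈ range n, a i : ℕ) : ℝ) = ((p : ℝ) - 1) * S p n y := by
  have hN := N_pos p n hp hn
  have hp0 : (0 : ℝ) < p := by
    have : (2 : ℝ) ≤ (p : ℝ) := by exact_mod_cast hp
    linarith
  -- f i = fract (p^i y / N)
  set f : ℕ → ℝ := fun i => Int.fract ((((p : ℤ) ^ i * y : ℤ) : ℝ) / ((p : ℝ) ^ n - 1)) with hf
  have hf0 : ∀ i, 0 ≤ f i := fun i => Int.fract_nonneg _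
  have hf1 : ∀ i, f i < 1 := fun i => Int.fract_lt_one _
  have hint : ∀ i, ∃ b : ℤ, (b : ℝ) = p * f i - f (i + 1) := by
    intro i
    refine ⟨⌊(((p : ℤ) ^ (i+1) * y : ℤ) : ℝ) / ((p : ℝ) ^ n - 1)⌋ -
      p * ⌊(((p : ℤ) ^ i * y : ℤ) : ℝ) / ((p : ℝ) ^ n - 1)⌋, ?_⟩
    simp only [hf, Int.fract]
    push_cast
    ring
  choose b hb using hint
  have hb0 : ∀ i, 0 ≤ b i := by
    intro i
    have h1 : (-1 : ℝ) < (b i : ℝ) := by
      rw [hb]
      have := mul_nonneg hp0.le (hf0 i)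
      linarith [hf1 (i + 1)]
    have h2 : (-1 : ℤ) < b i := by exact_mod_cast h1
    omega
  have hper : f n = f 0 := by
    simp only [hf]
    apply fract_congr p n hp hn
    exact ⟨y, by ring⟩
  -- a i = b (n-1-i)
  refine ⟨fun i => (b (n - 1 - i)).toNat, ?_, ?_⟩
  · have hcast : ∀ i, (((b (n - 1 - i)).toNat : ℕ) : ℤ) = b (n - 1 - i) := fun i =>
      Int.toNat_of_nonneg (hb0 _)
    simp only [hcast]
    have e1 : ∑ i ∈ range n, b (n - 1 - i) * (p : ℤ) ^ i =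
        ∑ i ∈ range n, b i * (p : ℤ) ^ (n - 1 - i) := by
      rw [← Finset.sum_range_reflect (fun i => b i * (p : ℤ) ^ (n - 1 - i)) n]
      refine Finset.sum_congr rfl fun i hi => ?_
      have hi' : i < n := Finset.mem_range.1 hi
      have : n - 1 - (n - 1 - i) = i := by omega
      rw [this]
    rw [e1]
    -- telescoping over ℝ
    have htel : ∀ t, t ≤ n → ∑ i ∈ range t, (b i : ℝ) * (p : ℝ) ^ (n - 1 - i) =
        f 0 * (p : ℝ) ^ n - f t * (p : ℝ) ^ (n - t) := by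
      intro t
      induction t with
      | zero => intro _; simp
      | succ t ih =>
        intro ht
        rw [Finset.sum_range_succ, ih (by omega), hb]
        have e2 : n - t = (n - 1 - t) + 1 := by omega
        have e3 : n - (t + 1) = n - 1 - t := by omega
        rw [e2, e3, pow_succ]
        ring
    have h2 := htel n le_rfl
    rw [Nat.sub_self, pow_zero, mul_one, hper] at h2
    have h3 : (f 0) * ((p : ℝ) ^ n - 1) = y - ((p : ℝ) ^ n - 1) * ⌊(y : ℝ) / ((p : ℝ) ^ n - 1)⌋ := by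
      simp only [hf, Int.fract, pow_zero, one_mul]
      field_simp
    refine ⟨-⌊(y : ℝ) / ((p : ℝ) ^ n - 1)⌋, ?_⟩
    have h4 : ((∑ i ∈ range n, b i * (p : ℤ) ^ (n - 1 - i) - y : ℤ) : ℝ) =
        ((((p : ℤ) ^ n - 1) * -⌊(y : ℝ) / ((p : ℝ) ^ n - 1)⌋ : ℤ) : ℝ) := by
      push_cast
      rw [h2]
      linear_combination h3
    exact_mod_cast h4
  · push_cast
    have hcast : ∀ i, (((b (n - 1 - i)).toNat : ℕ) : ℝ) = b (n - 1 - i) := fun i => by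
      have := Int.toNat_of_nonneg (hb0 (n - 1 - i))
      exact_mod_cast this
    simp only [hcast]
    have e1 : ∑ i ∈ range n, (b (n - 1 - i) : ℝ) = ∑ i ∈ range n, (b i : ℝ) :=
      Finset.sum_range_reflect (fun i => (b i : ℝ)) n
    rw [e1]
    simp only [hb]
    rw [Finset.sum_sub_distrib, ← Finset.mul_sum]
    have h1 := Finset.sum_range_succ f n
    have h2 := Finset.sum_range_succ' f n
    rw [hper] at h1
    have h3 : ∑ i ∈ range n, f (i + 1) = ∑ i ∈ range n, f i := by linarith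
    rw [h3, S_eq]
    ring

end Pool.Agent.WVal
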