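import Pool.Agent.WVal.Defs

/-!
Bounds for the geometric sum `G L β = ∑_{k<L} e(kβ)`.
-/

set_option autoImplicit false

namespace Pool.Agent.WVal

open Finset

theorem norm_e (x : ℝ) : ‖Complex.exp (2 * (Real.pi : ℂ) * Complex.I * ((x : ℝ) : ℂ))‖ = 1 := by
  have : 2 * (Real.pi : ℂ) * Complex.I * ((x : ℝ) : ℂ) = ((2 * Real.pi * x : ℝ) : ℂ) * Complex.I := by
    push_cast; ring
  rw [this, Complex.norm_exp_ofReal_mul_I]

theorem G_norm_le (L : ℕ) (β : ℝ) : ‖G L β‖ ≤ L := by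
  unfold G
  calc _ ≤ ∑ k ∈ range L, ‖Complex.exp (2 * (Real.pi : ℂ) * Complex.I * (((k : ℝ) * β : ℝ) : ℂ))‖ :=
        norm_sum_le _ _
    _ = L := by
        simp only [norm_e]
        simp

theorem G_add_int (L : ℕ) (β : ℝ) (k : ℤ) : G L (β + k) = G L β := by
  unfold G
  refine Finset.sum_congr rfl fun j _ => ?_
  have : 2 * (Real.pi : ℂ) * Complex.I * (((j : ℝ) * (β + k) : ℝ) : ℂ) =
      2 * (Real.pi : ℂ) * Complex.I * (((j : ℝ) * β : ℝ) : ℂ) +
        ((j * k : ℤ) : ℂ) * (2 * (Real.pi : ℂ) * Complex.I) := by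
    push_cast; ring
  rw [this, Complex.exp_add, Complex.exp_int_mul_two_pi_mul_I, mul_one]

theorem G_neg_norm (L : ℕ) (β : ℝ) : ‖G L (-β)‖ = ‖G L β‖ := by
  have : G L (-β) = (starRingEnd ℂ) (G L β) := by
    unfold G
    rw [map_sum]
    refine Finset.sum_congr rfl fun j _ => ?_
    rw [← Complex.exp_conj]
    congr 1
    simp only [map_mul, Complex.conj_I, Complex.conj_ofReal, map_ofNat]
    push_cast; ring
  rw [this, RCLike.norm_conj]

theorem norm_one_sub_e (x : ℝ) :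
    ‖Complex.exp (2 * (Real.pi : ℂ) * Complex.I * ((x : ℝ) : ℂ)) - 1‖ = 2 * |Real.sin (Real.pi * x)| := by
  have h := Complex.norm_exp_I_mul_ofReal_sub_one (2 * Real.pi * x)
  have e : 2 * (Real.pi : ℂ) * Complex.I * ((x : ℝ) : ℂ) = Complex.I * ((2 * Real.pi * x : ℝ) : ℂ) := by
    push_cast; ring
  rw [e, h]
  have : 2 * Real.pi * x / 2 = Real.pi * x := by ring
  rw [this, norm_mul]
  simp [Real.norm_eq_abs]

theorem abs_sin_ge (x : ℝ) (h : |x| ≤ 1 / 2) : 2 * |x| ≤ |Real.sin (Real.pi * x)| := by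
  have hpi := Real.pi_pos
  have key : ∀ t : ℝ, 0 ≤ t → t ≤ 1 / 2 → 2 * t ≤ Real.sin (Real.pi * t) := by
    intro t ht0 ht1
    have h1 := Real.mul_le_sin (x := Real.pi * t) (by positivity) (by nlinarith)
    have : 2 / Real.pi * (Real.pi * t) = 2 * t := by field_simp
    linarith
  rcases le_or_gt 0 x with hx | hx
  · rw [abs_of_nonneg hx] at h ⊢
    exact (key x hx h).trans (le_abs_self _)
  · rw [abs_of_neg hx] at h ⊢
    have := key (-x) (by linarith) h
    rw [show Real.pi * -x = -(Real.pi * x) by ring, Real.sin_neg] at this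
    exact this.trans (neg_le_abs _)

theorem G_geom (L : ℕ) (β : ℝ) :
    G L β * (Complex.exp (2 * (Real.pi : ℂ) * Complex.I * ((β : ℝ) : ℂ)) - 1) =
      Complex.exp (2 * (Real.pi : ℂ) * Complex.I * (((L : ℝ) * β : ℝ) : ℂ)) - 1 := by
  have h := geom_sum_mul (Complex.exp (2 * (Real.pi : ℂ) * Complex.I * ((β : ℝ) : ℂ))) L
  have e : ∀ k : ℕ, Complex.exp (2 * (Real.pi : ℂ) * Complex.I * (((k : ℝ) * β : ℝ) : ℂ)) =
      Complex.exp (2 * (Real.pi : ℂ) * Complex.I * ((β : ℝ) : ℂ)) ^ k := by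
    intro k
    rw [← Complex.exp_nat_mul]
    congr 1
    push_cast; ring
  unfold G
  simp only [e]
  exact h

theorem G_le_inv (L : ℕ) (β : ℝ) (h0 : β ≠ 0) (h : |β| ≤ 1 / 2) : ‖G L β‖ ≤ 1 / (2 * |β|) := by
  have h1 := congrArg norm (G_geom L β)
  rw [norm_mul, norm_one_sub_e, norm_one_sub_e] at h1
  have h2 := abs_sin_ge β h
  have h3 : |Real.sin (Real.pi * (L * β))| ≤ 1 := Real.abs_sin_le_one _
  have hb : 0 < |β| := abs_pos.2 h0
  rw [le_div_iff₀ (by positivity)]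
  have h4 : ‖G L β‖ * (2 * (2 * |β|)) ≤ ‖G L β‖ * (2 * |Real.sin (Real.pi * β)|) := by
    gcongr
  have h5 : ‖G L β‖ * (2 * (2 * |β|)) ≤ 2 := by
    rw [h1] at h4
    linarith
  linarith

theorem abs_cos_le (t : ℝ) (h : |t| ≤ 1 / 2) : |Real.cos (Real.pi * t)| ≤ 1 - 4 * t ^ 2 := by
  have hpi := Real.pi_pos
  have ht := abs_le.1 h
  have hc0 : 0 ≤ Real.cos (Real.pi * t) := by
    apply Real.cos_nonneg_of_neg_pi_div_two_le_of_le
    · nlinarith [ht.1]
    · nlinarith [ht.2]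
  rw [abs_of_nonneg hc0]
  -- cos (π t) = 1 - 2 sin² (π t / 2)
  have hcos : Real.cos (Real.pi * t) = 1 - 2 * Real.sin (Real.pi * t / 2) ^ 2 := by
    have := Real.cos_two_mul (Real.pi * t / 2)
    have h2 := Real.sin_sq_add_cos_sq (Real.pi * t / 2)
    have h3 : 2 * (Real.pi * t / 2) = Real.pi * t := by ring
    rw [h3] at this
    nlinarith
  rw [hcos]
  -- concavity: sin (π s / 2) ≥ √2 s for 0 ≤ s ≤ 1/2
  have key : ∀ s : ℝ, 0 ≤ s → s ≤ 1 / 2 → √2 * s ≤ Real.sin (Real.pi * s / 2) := by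
    intro s hs0 hs1
    have hconc := strictConcaveOn_sin_Icc.concaveOn
    have hx : (0 : ℝ) ∈ Set.Icc 0 Real.pi := ⟨le_rfl, hpi.le⟩
    have hy : Real.pi / 4 ∈ Set.Icc 0 Real.pi := ⟨by positivity, by linarith⟩
    have := hconc.2 hx hy (by linarith : (0 : ℝ) ≤ 1 - 2 * s) (by linarith : (0 : ℝ) ≤ 2 * s)
      (by ring)
    simp only [smul_eq_mul, mul_zero, Real.sin_zero, zero_add, Real.sin_pi_div_four] at this
    have e : 2 * s * (Real.pi / 4) = Real.pi * s / 2 := by ring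
    rw [e] at this
    calc √2 * s = 2 * s * (√2 / 2) := by ring
      _ ≤ _ := this
  have hsq : 2 * t ^ 2 ≤ Real.sin (Real.pi * t / 2) ^ 2 := by
    rcases le_or_gt 0 t with ht0 | ht0
    · have := key t ht0 ht.2
      have h2 : (√2 * t) ^ 2 ≤ Real.sin (Real.pi * t / 2) ^ 2 := by
        apply pow_le_pow_left₀ (by positivity) this
      rw [mul_pow, Real.sq_sqrt (by norm_num)] at h2
      exact h2
    · have := key (-t) (by linarith) (by linarith [ht.1])
      have e : Real.pi * -t / 2 = -(Real.pi * t / 2) := by ring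
      rw [e, Real.sin_neg] at this
      have h2 : (√2 * -t) ^ 2 ≤ (-Real.sin (Real.pi * t / 2)) ^ 2 := by
        apply pow_le_pow_left₀ _ this
        have : 0 ≤ -t := by linarith
        positivity
      rw [mul_pow, Real.sq_sqrt (by norm_num)] at h2
      nlinarith
  linarith

theorem G_double (h : ℕ) (β : ℝ) :
    G (2 * h) β = (1 + Complex.exp (2 * (Real.pi : ℂ) * Complex.I * (((h : ℝ) * β : ℝ) : ℂ))) * G h β := by
  unfold G
  rw [two_mul, Finset.sum_range_add, add_mul, one_mul, Finset.mul_sum]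
  congr 1
  refine Finset.sum_congr rfl fun j _ => ?_
  rw [← Complex.exp_add]
  congr 1
  push_cast; ring

theorem norm_one_add_e (x : ℝ) :
    ‖1 + Complex.exp (2 * (Real.pi : ℂ) * Complex.I * ((x : ℝ) : ℂ))‖ = 2 * |Real.cos (Real.pi * x)| := by
  have e : 1 + Complex.exp (2 * (Real.pi : ℂ) * Complex.I * ((x : ℝ) : ℂ)) =
      Complex.exp (((Real.pi * x : ℝ) : ℂ) * Complex.I) * (2 * Complex.cos ((Real.pi * x : ℝ) : ℂ)) := by
    rw [Complex.cos]
    have h1 : Complex.exp (2 * (Real.pi : ℂ) * Complex.I * ((x : ℝ) : ℂ)) =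
        Complex.exp (((Real.pi * x : ℝ) : ℂ) * Complex.I) *
          Complex.exp (((Real.pi * x : ℝ) : ℂ) * Complex.I) := by
      rw [← Complex.exp_add]; congr 1; push_cast; ring
    have h2 : (1 : ℂ) = Complex.exp (((Real.pi * x : ℝ) : ℂ) * Complex.I) *
        Complex.exp (-((Real.pi * x : ℝ) : ℂ) * Complex.I) := by
      rw [← Complex.exp_add]; simp
    rw [h1]
    conv_lhs => rw [h2]
    ring
  rw [e, norm_mul, Complex.norm_exp_ofReal_mul_I, one_mul, norm_mul, ← Complex.ofReal_cos,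
    Complex.norm_real, Real.norm_eq_abs]
  simp

theorem G_two_mul (h : ℕ) (β : ℝ) (hβ : (h : ℝ) * |β| ≤ 1 / 2) :
    ‖G (2 * h) β‖ ≤ (2 * h : ℝ) * (1 - 4 * ((h : ℝ) * β) ^ 2) := by
  rw [G_double, norm_mul, norm_one_add_e]
  have h1 : |(h : ℝ) * β| ≤ 1 / 2 := by
    rw [abs_mul, Nat.abs_cast]; exact hβ
  have h2 := abs_cos_le _ h1
  have h3 := G_norm_le h β
  have h4 : 0 ≤ |Real.cos (Real.pi * ((h : ℝ) * β))| := abs_nonneg _
  calc 2 * |Real.cos (Real.pi * (↑h * β))| * ‖G h β‖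
      ≤ 2 * (1 - 4 * ((h : ℝ) * β) ^ 2) * (h : ℝ) := by
        apply mul_le_mul _ h3 (norm_nonneg _) (by linarith)
        linarith
    _ = (2 * h : ℝ) * (1 - 4 * ((h : ℝ) * β) ^ 2) := by ring

end Pool.Agent.WVal
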