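import Pool.Agent.WVal.BernAvg
import Pool.Agent.WVal.Geo
import Pool.Agent.WVal.Basic

/-!
Analogue of `sparse` (`Sparse.lean`, same proof) for the generating function `H L β = (L-1) + e(β)`.

`‖H L β‖² = (L-1)² + 2 (L-1) cos(2πβ) + 1 = L² - 4 (L-1) sin²(πβ) ≤ L² - 16 (L-1) β²` for `|β| ≤ 1/2`
(`abs_sin_ge`). With `β_i = <p^i y/N> ∈ [-1/2,1/2]`, `b_i = p β_i - β_{i+1}` integer: if `b_i ≠ 0` then
`|β_i| ≥ 1/(2p) ≥ 1/(2P)` and `‖H L β_i‖/L ≤ r < 1` with `r` depending only on `P, L`; so at most `K(P, L, ε')` indices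
have `b_i ≠ 0`, and `|b_i| ≤ (p + 1)/2 ≤ P`.
-/

set_option autoImplicit false

namespace Pool.Agent.WVal

open Finset

private theorem H_add_int (L : ℕ) (β : ℝ) (k : ℤ) : H L (β + k) = H L β := by
  unfold H E
  congr 1
  have : 2 * (Real.pi : ℂ) * Complex.I * ((β + k : ℝ) : ℂ) =
      2 * (Real.pi : ℂ) * Complex.I * ((β : ℝ) : ℂ) + (k : ℂ) * (2 * (Real.pi : ℂ) * Complex.I) := by
    push_cast; ring
  rw [this, Complex.exp_add, Complex.exp_int_mul_two_pi_mul_I, mul_one]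

private theorem H_norm_le {L : ℕ} (hL : 2 ≤ L) (β : ℝ) : ‖H L β‖ ≤ L := by
  have h2 : (2 : ℝ) ≤ (L : ℝ) := by exact_mod_cast hL
  unfold H
  refine (norm_add_le _ _).trans ?_
  have h1 : ‖(L : ℂ) - 1‖ = (L : ℝ) - 1 := by
    have : (L : ℂ) - 1 = (((L : ℝ) - 1 : ℝ) : ℂ) := by push_cast; ring
    rw [this, Complex.norm_real, Real.norm_of_nonneg (by linarith)]
  have h3 : ‖E β‖ = 1 := norm_e β
  rw [h1, h3]
  linarith

private theorem H_sq_le {L : ℕ} (hL : 2 ≤ L) {β : ℝ} (hβ : |β| ≤ 1 / 2) :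
    ‖H L β‖ ^ 2 ≤ (L : ℝ) ^ 2 - 16 * ((L : ℝ) - 1) * β ^ 2 := by
  have h2 : (2 : ℝ) ≤ (L : ℝ) := by exact_mod_cast hL
  have h1 : H L β = (((L : ℝ) - 1 + Real.cos (2 * Real.pi * β) : ℝ) : ℂ) +
      ((Real.sin (2 * Real.pi * β) : ℝ) : ℂ) * Complex.I := by
    unfold H E
    have : 2 * (Real.pi : ℂ) * Complex.I * ((β : ℝ) : ℂ) = ((2 * Real.pi * β : ℝ) : ℂ) * Complex.I := by
      push_cast; ring
    rw [this, Complex.exp_mul_I]
    push_cast
    ring
  have h3 : ‖H L β‖ ^ 2 = ((L : ℝ) - 1 + Real.cos (2 * Real.pi * β)) ^ 2 +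
      Real.sin (2 * Real.pi * β) ^ 2 := by
    rw [h1, ← Complex.normSq_eq_norm_sq, Complex.normSq_add_mul_I]
  have h4 : Real.cos (2 * Real.pi * β) = 1 - 2 * Real.sin (Real.pi * β) ^ 2 := by
    have := Real.cos_two_mul (Real.pi * β)
    have h5 := Real.sin_sq_add_cos_sq (Real.pi * β)
    rw [show 2 * Real.pi * β = 2 * (Real.pi * β) by ring, this]
    linarith
  have h5 := Real.sin_sq_add_cos_sq (2 * Real.pi * β)
  have h6 : ‖H L β‖ ^ 2 = (L : ℝ) ^ 2 - 4 * ((L : ℝ) - 1) * Real.sin (Real.pi * β) ^ 2 := by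
    rw [h3]
    have : Real.sin (2 * Real.pi * β) ^ 2 = 1 - Real.cos (2 * Real.pi * β) ^ 2 := by linarith
    rw [this, h4]
    ring
  rw [h6]
  have h7 := abs_sin_ge β hβ
  have h8 : (2 * |β|) ^ 2 ≤ Real.sin (Real.pi * β) ^ 2 := by
    rw [← sq_abs (Real.sin (Real.pi * β))]
    exact pow_le_pow_left₀ (by positivity) h7 2
  rw [mul_pow, sq_abs] at h8
  have h9 : 0 ≤ 4 * ((L : ℝ) - 1) := by linarith
  have := mul_le_mul_of_nonneg_left h8 h9
  linarith

theorem bern_sparse (P L : ℕ) (hL : 2 ≤ L) (ε' : ℝ) (hε' : 0 < ε') : ∃ K : ℕ, ∀ p n : ℕ, 2 ≤ p →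
    p ≤ P → 1 ≤ n → ∀ y : ℤ,
    ε' * (L : ℝ) ^ n < ∏ x ∈ range n, ‖H L ((p : ℝ) ^ x * (y : ℝ) / ((p : ℝ) ^ n - 1))‖ →
    ∃ c : ℕ → ℤ, ((p : ℤ) ^ n - 1) ∣ (∑ x ∈ range n, c x * (p : ℤ) ^ x) - y ∧
      ((range n).filter (fun x => c x ≠ 0)).card ≤ K ∧ ∀ x ∈ range n, |c x| ≤ P := by
  set r : ℝ := max (1 / 2) (Real.sqrt (1 - 4 * ((L : ℝ) - 1) / ((L : ℝ) ^ 2 * ((P : ℝ) + 2) ^ 2))) with hr
  have hL2 : (2 : ℝ) ≤ (L : ℝ) := by exact_mod_cast hL
  have hr1 : r < 1 := by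
    apply max_lt (by norm_num)
    have h1 : 0 < 4 * ((L : ℝ) - 1) / ((L : ℝ) ^ 2 * ((P : ℝ) + 2) ^ 2) := by
      have : 0 < (L : ℝ) - 1 := by linarith
      positivity
    rw [Real.sqrt_lt' one_pos]
    linarith
  have hr0 : 0 < r := lt_of_lt_of_le (by norm_num) (le_max_left _ _)
  obtain ⟨K, hK⟩ := exists_pow_lt_of_lt_one hε' hr1
  refine ⟨K, ?_⟩
  intro p n hp hpP hn y hprod
  have hN := N_pos p n hp hn
  have hp0 : (0 : ℝ) < p := by
    have : (2 : ℝ) ≤ (p : ℝ) := by exact_mod_cast hp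
    linarith
  have hL0 : (0 : ℝ) < (L : ℝ) := by
    have : (2 : ℝ) ≤ (L : ℝ) := by exact_mod_cast hL
    linarith
  set u : ℕ → ℝ := fun i => (p : ℝ) ^ i * (y : ℝ) / ((p : ℝ) ^ n - 1) with hu
  set β : ℕ → ℝ := fun i => u i - round (u i) with hβ
  have hβ2 : ∀ i, |β i| ≤ 1 / 2 := fun i => abs_sub_round (u i)
  have husucc : ∀ i, u (i + 1) = p * u i := by
    intro i; simp only [hu]; rw [pow_succ]; ring
  set b : ℕ → ℤ := fun i => round (u (i + 1)) - p * round (u i) with hb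
  have hbβ : ∀ i, (b i : ℝ) = - (p * β i - β (i + 1)) + 2 * (p * β i - β (i + 1)) := by
    intro i
    simp only [hb, hβ]
    rw [husucc]
    push_cast
    ring
  have hbβ' : ∀ i, (b i : ℝ) = p * β i - β (i + 1) := by
    intro i; rw [hbβ]; ring
  have hper : β n = β 0 := by
    have e : u n = u 0 + (y : ℤ) := by
      simp only [hu]
      field_simp
      ring
    simp only [hβ, e, round_add_intCast]
    push_cast
    ring
  have hG : ∀ i, ‖H L (u i)‖ = ‖H L (β i)‖ := by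
    intro i
    have : u i = β i + (round (u i) : ℤ) := by simp only [hβ]; ring
    conv_lhs => rw [this, H_add_int]
  set g : ℕ → ℝ := fun i => ‖H L (β i)‖ / (L : ℝ) with hg
  have hg0 : ∀ i, 0 ≤ g i := fun i => by simp only [hg]; positivity
  have hg1 : ∀ i, g i ≤ 1 := fun i => by
    simp only [hg]
    rw [div_le_one hL0]
    exact H_norm_le hL _
  have hβlow : ∀ i, b i ≠ 0 → |(b i : ℝ)| / (2 * p) ≤ |β i| := by
    intro i hi
    have h1 : (1 : ℝ) ≤ |(b i : ℝ)| := by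
      have := Int.one_le_abs hi
      exact_mod_cast this
    have h2 : |(b i : ℝ)| ≤ p * |β i| + |β (i + 1)| := by
      rw [hbβ']
      calc |p * β i - β (i + 1)| ≤ |p * β i| + |β (i + 1)| := abs_sub _ _
        _ = p * |β i| + |β (i + 1)| := by rw [abs_mul, abs_of_pos hp0]
    have h3 := hβ2 (i + 1)
    rw [div_le_iff₀ (by positivity)]
    nlinarith
  have hgb : ∀ i, b i ≠ 0 → g i ≤ r := by
    intro i hi
    have h1 : (1 : ℝ) ≤ |(b i : ℝ)| := by
      have := Int.one_le_abs hi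
      exact_mod_cast this
    have h2 := hβlow i hi
    have h3 : 1 / (2 * ((P : ℝ) + 2)) ≤ |β i| := by
      refine le_trans ?_ h2
      have hpP' : (p : ℝ) ≤ (P : ℝ) := by exact_mod_cast hpP
      rw [div_le_div_iff₀ (by positivity) (by positivity)]
      nlinarith
    have h4 := H_sq_le hL (hβ2 i)
    simp only [hg]
    rw [div_le_iff₀ hL0]
    have h5 : ‖H L (β i)‖ ^ 2 ≤ (L : ℝ) ^ 2 * (1 - 4 * ((L : ℝ) - 1) / ((L : ℝ) ^ 2 * ((P : ℝ) + 2) ^ 2)) := by
      refine h4.trans ?_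
      have h6 : (1 / (2 * ((P : ℝ) + 2))) ^ 2 ≤ (β i) ^ 2 := by
        rw [← sq_abs (β i)]
        exact pow_le_pow_left₀ (by positivity) h3 2
      have h7 : (L : ℝ) ^ 2 * (1 - 4 * ((L : ℝ) - 1) / ((L : ℝ) ^ 2 * ((P : ℝ) + 2) ^ 2)) =
          (L : ℝ) ^ 2 - 16 * ((L : ℝ) - 1) * (1 / (2 * ((P : ℝ) + 2))) ^ 2 := by
        field_simp
        ring
      rw [h7]
      have h8 : 0 ≤ 16 * ((L : ℝ) - 1) := by
        have : (2 : ℝ) ≤ (L : ℝ) := by exact_mod_cast hL
        linarith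
      have := mul_le_mul_of_nonneg_left h6 h8
      linarith
    have h9 : ‖H L (β i)‖ ≤ Real.sqrt ((L : ℝ) ^ 2 * (1 - 4 * ((L : ℝ) - 1) / ((L : ℝ) ^ 2 * ((P : ℝ) + 2) ^ 2))) :=
      Real.le_sqrt_of_sq_le h5
    rw [Real.sqrt_mul (by positivity), Real.sqrt_sq hL0.le, mul_comm] at h9
    refine h9.trans ?_
    gcongr
    exact le_max_right _ _
  have hprod' : ε' < ∏ i ∈ range n, g (n - 1 - i) := by
    rw [Finset.prod_range_reflect (fun i => g i) n]
    simp only [hg]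
    rw [Finset.prod_div_distrib, Finset.prod_const, Finset.card_range, lt_div_iff₀ (by positivity)]
    refine lt_of_lt_of_eq hprod ?_
    refine Finset.prod_congr rfl fun i _ => ?_
    exact hG i
  refine ⟨fun i => b (n - 1 - i), ?_, ?_, ?_⟩
  · have e1 : ∑ i ∈ range n, b (n - 1 - i) * (p : ℤ) ^ i =
        ∑ i ∈ range n, b i * (p : ℤ) ^ (n - 1 - i) := by
      rw [← Finset.sum_range_reflect (fun i => b i * (p : ℤ) ^ (n - 1 - i)) n]
      refine Finset.sum_congr rfl fun i hi => ?_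
      have hi' : i < n := Finset.mem_range.1 hi
      have : n - 1 - (n - 1 - i) = i := by omega
      rw [this]
    rw [e1]
    have htel : ∀ t, t ≤ n → ∑ i ∈ range t, (b i : ℝ) * (p : ℝ) ^ (n - 1 - i) =
        β 0 * (p : ℝ) ^ n - β t * (p : ℝ) ^ (n - t) := by
      intro t
      induction t with
      | zero => intro _; simp
      | succ t ih =>
        intro ht
        rw [Finset.sum_range_succ, ih (by omega), hbβ']
        have e2 : n - t = (n - 1 - t) + 1 := by omega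
        have e3 : n - (t + 1) = n - 1 - t := by omega
        rw [e2, e3, pow_succ]
        ring
    have h2 := htel n le_rfl
    rw [Nat.sub_self, pow_zero, mul_one, hper] at h2
    have h3 : β 0 * ((p : ℝ) ^ n - 1) = y - ((p : ℝ) ^ n - 1) * round (u 0) := by
      simp only [hβ, hu, pow_zero, one_mul]
      field_simp
    refine ⟨-round (u 0), ?_⟩
    have h4 : ((∑ i ∈ range n, b i * (p : ℤ) ^ (n - 1 - i) - y : ℤ) : ℝ) =
        ((((p : ℤ) ^ n - 1) * -round (u 0) : ℤ) : ℝ) := by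
      push_cast
      rw [h2]
      linear_combination h3
    exact_mod_cast h4
  · -- count
    by_contra hcon
    push_neg at hcon
    have h1 : ∏ i ∈ range n, g (n - 1 - i) ≤
        r ^ ((range n).filter (fun x => b (n - 1 - x) ≠ 0)).card := by
      rw [← Finset.prod_filter_mul_prod_filter_not (range n) (fun x => b (n - 1 - x) ≠ 0)]
      calc _ ≤ (∏ i ∈ (range n).filter (fun x => b (n - 1 - x) ≠ 0), r) * 1 := by
            apply mul_le_mul
            · apply Finset.prod_le_prod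
              · intro i _; exact hg0 _
              · intro i hi; exact hgb _ (Finset.mem_filter.1 hi).2
            · apply Finset.prod_le_one
              · intro i _; exact hg0 _
              · intro i _; exact hg1 _
            · exact Finset.prod_nonneg fun i _ => hg0 _
            · exact Finset.prod_nonneg fun i _ => hr0.le
        _ = _ := by rw [Finset.prod_const, mul_one]
    have h2 : r ^ ((range n).filter (fun x => b (n - 1 - x) ≠ 0)).card ≤ r ^ K :=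
      pow_le_pow_of_le_one hr0.le hr1.le hcon.le
    linarith
  · intro i hi
    have hpP' : (p : ℝ) ≤ (P : ℝ) := by exact_mod_cast hpP
    have hp2 : (2 : ℝ) ≤ (p : ℝ) := by exact_mod_cast hp
    have h2 : |(b (n - 1 - i) : ℝ)| ≤ p * |β (n - 1 - i)| + |β (n - 1 - i + 1)| := by
      rw [hbβ']
      calc |p * β (n - 1 - i) - β (n - 1 - i + 1)| ≤ |p * β (n - 1 - i)| + |β (n - 1 - i + 1)| :=
            abs_sub _ _
        _ = p * |β (n - 1 - i)| + |β (n - 1 - i + 1)| := by rw [abs_mul, abs_of_pos hp0]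
    have h3 := hβ2 (n - 1 - i)
    have h4 := hβ2 (n - 1 - i + 1)
    have h5 : |(b (n - 1 - i) : ℝ)| ≤ P := by nlinarith
    exact_mod_cast h5

end Pool.Agent.WVal
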