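import Mathlib

/-!
Counting the residues `d` modulo `N = p^n - 1` such that some small multiple `m d` has a sparse bounded
representation.

Proof. The pairs (`m`, representation): a function `c` with at most `K` nonzero values on `range n`, all in `[-C, C]`,
agrees on `range n` with `x ↦ ∑_{t<K} (if s t = x then v t else 0)` for some injective-on-support choice
`s : Fin K → range n`, `v : Fin K → [-C, C]` (`v t = 0` for the unused slots), so the sum `A = ∑ c x p^x` takes at most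
`((2C+1) n)^K` values. For given `1 ≤ m ≤ M` and `A` the `d ∈ [0, N)` with `N ∣ A - m d` are at most `m ≤ M` many
(`d ≡ d' mod N/gcd(m,N)`). Total `≤ M² ((2C+1) n)^K`.
-/

set_option autoImplicit false

namespace Pool.Agent.WVal

open Finset

/-- possible values of sums with at most `K` terms -/
noncomputable def spF (p n C : ℕ) : ℕ → Finset ℤ
  | 0 => {0}
  | K + 1 => image₂ (fun a b => a + b) (spF p n C K)
      (image₂ (fun (s : ℕ) (v : ℤ) => v * (p : ℤ) ^ s) (range n) (Icc (-(C : ℤ)) C))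

theorem spF_card (p n C K : ℕ) : (spF p n C K).card ≤ ((2 * C + 1) * n) ^ K := by
  induction K with
  | zero => simp [spF]
  | succ K ih =>
    have h1 : (image₂ (fun (s : ℕ) (v : ℤ) => v * (p : ℤ) ^ s) (range n)
        (Icc (-(C : ℤ)) C)).card ≤ n * (2 * C + 1) := by
      refine (card_image₂_le _ _ _).trans ?_
      rw [card_range, Int.card_Icc]
      exact Nat.mul_le_mul_left _ (by omega)
    calc (spF p n C (K + 1)).card
        ≤ (spF p n C K).card * (image₂ (fun (s : ℕ) (v : ℤ) => v * (p : ℤ) ^ s) (range n)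
        (Icc (-(C : ℤ)) C)).card := card_image₂_le _ _ _
      _ ≤ ((2 * C + 1) * n) ^ K * (n * (2 * C + 1)) := Nat.mul_le_mul ih h1
      _ = ((2 * C + 1) * n) ^ (K + 1) := by ring

theorem spF_zero_mem (p n C : ℕ) (hn : 1 ≤ n) (K : ℕ) : (0 : ℤ) ∈ spF p n C K := by
  induction K with
  | zero => simp [spF]
  | succ K ih =>
    refine mem_image₂.2 ⟨0, ih, 0, mem_image₂.2 ⟨0, ?_, 0, ?_, ?_⟩, ?_⟩
    · exact mem_range.2 hn
    · simp
    · simp
    · simp

theorem spF_zero_sum (p n : ℕ) (c : ℕ → ℤ)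
    (h : ((range n).filter (fun x => c x ≠ 0)) = ∅) :
    ∑ x ∈ range n, c x * (p : ℤ) ^ x = 0 := by
  refine sum_eq_zero fun x hx => ?_
  have h1 : c x = 0 := by
    by_contra h2
    have h3 : x ∈ (range n).filter (fun x => c x ≠ 0) := mem_filter.2 ⟨hx, h2⟩
    rw [h] at h3
    simp at h3
  rw [h1, zero_mul]

theorem spF_mem (p n C : ℕ) (hn : 1 ≤ n) (K : ℕ) : ∀ c : ℕ → ℤ,
    ((range n).filter (fun x => c x ≠ 0)).card ≤ K → (∀ x ∈ range n, |c x| ≤ (C : ℤ)) →
    ∑ x ∈ range n, c x * (p : ℤ) ^ x ∈ spF p n C K := by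
  induction K with
  | zero =>
    intro c hc _
    rw [spF_zero_sum p n c (card_eq_zero.1 (Nat.le_zero.1 hc))]
    exact spF_zero_mem p n C hn 0
  | succ K ih =>
    intro c hc hb
    rcases ((range n).filter (fun x => c x ≠ 0)).eq_empty_or_nonempty with he | ⟨x0, hx0⟩
    · rw [spF_zero_sum p n c he]
      exact spF_zero_mem p n C hn _
    · have hx1 := mem_filter.1 hx0
      have h1 : (range n).filter (fun x => Function.update c x0 0 x ≠ 0)
          ⊆ ((range n).filter (fun x => c x ≠ 0)).erase x0 := by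
        intro x hx
        have h2 := mem_filter.1 hx
        by_cases h3 : x = x0
        · exact absurd (by rw [h3, Function.update_self]) h2.2
        · have h4 : Function.update c x0 0 x = c x := Function.update_of_ne h3 _ _
          rw [h4] at h2
          exact mem_erase.2 ⟨h3, mem_filter.2 h2⟩
      have hcard : ((range n).filter (fun x => Function.update c x0 0 x ≠ 0)).card ≤ K := by
        refine (card_le_card h1).trans ?_
        rw [card_erase_of_mem hx0]
        omega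
      have hb' : ∀ x ∈ range n, |Function.update c x0 0 x| ≤ (C : ℤ) := by
        intro x hx
        by_cases h3 : x = x0
        · rw [h3, Function.update_self]
          simp
        · rw [Function.update_of_ne h3]
          exact hb x hx
      have h5 := ih _ hcard hb'
      have hsum : ∑ x ∈ range n, c x * (p : ℤ) ^ x
          = ∑ x ∈ range n, Function.update c x0 0 x * (p : ℤ) ^ x + c x0 * (p : ℤ) ^ x0 := by
        rw [← sum_erase_add _ _ hx1.1, ← sum_erase_add (range n)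
          (fun x => Function.update c x0 0 x * (p : ℤ) ^ x) hx1.1]
        rw [Function.update_self, zero_mul, add_zero]
        congr 1
        refine sum_congr rfl fun x hx => ?_
        rw [Function.update_of_ne (mem_erase.1 hx).1]
      rw [hsum]
      exact mem_image₂.2 ⟨_, h5, _, mem_image₂.2 ⟨x0, hx1.1, c x0,
        mem_Icc.2 (abs_le.1 (hb x0 hx1.1)), rfl⟩, rfl⟩

theorem count_sparse (p n K C M : ℕ) (hp : 2 ≤ p) (hn : 1 ≤ n) :
    {d : ℕ | d < p ^ n - 1 ∧ ∃ m : ℕ, 1 ≤ m ∧ m ≤ M ∧ ∃ c : ℕ → ℤ,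
      ((p : ℤ) ^ n - 1) ∣ (∑ x ∈ range n, c x * (p : ℤ) ^ x) - (m : ℤ) * (d : ℤ) ∧
      ((range n).filter (fun x => c x ≠ 0)).card ≤ K ∧ ∀ x ∈ range n, |c x| ≤ (C : ℤ)}.ncard ≤
      M ^ 2 * ((2 * C + 1) * n) ^ K := by
  classical
  have hpn : 2 ≤ p ^ n := hp.trans (Nat.le_self_pow (by omega) p)
  obtain ⟨N, hN⟩ : ∃ N, N = p ^ n - 1 := ⟨_, rfl⟩
  have hNz : ((N : ℕ) : ℤ) = (p : ℤ) ^ n - 1 := by
    rw [hN, Nat.cast_sub (by omega)]
    push_cast
    rfl
  have hN0 : 0 < N := by omega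
  rw [← hN, ← hNz]
  set S : Set ℕ := {d : ℕ | d < N ∧ ∃ m : ℕ, 1 ≤ m ∧ m ≤ M ∧ ∃ c : ℕ → ℤ,
      (N : ℤ) ∣ (∑ x ∈ range n, c x * (p : ℤ) ^ x) - (m : ℤ) * (d : ℤ) ∧
      ((range n).filter (fun x => c x ≠ 0)).card ≤ K ∧ ∀ x ∈ range n, |c x| ≤ (C : ℤ)} with hS
  have h : ∀ d : ℕ, d ∈ S → ∃ t : ℕ × ℤ × ℕ,
      t ∈ (Icc 1 M) ×ˢ ((spF p n C K) ×ˢ (range M)) ∧
      ((N : ℤ) ∣ t.2.1 - (t.1 : ℤ) * (d : ℤ)) ∧ t.2.2 = t.1 * d / N := by
    rintro d ⟨hd, m, hm1, hmM, c, hdvd, hcard, hb⟩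
    refine ⟨(m, ∑ x ∈ range n, c x * (p : ℤ) ^ x, m * d / N), ?_, hdvd, rfl⟩
    rw [mem_product, mem_product]
    refine ⟨mem_Icc.2 ⟨hm1, hmM⟩, spF_mem p n C hn K c hcard hb, mem_range.2 ?_⟩
    refine lt_of_lt_of_le ((Nat.div_lt_iff_lt_mul hN0).2 ?_) hmM
    exact Nat.mul_lt_mul_of_pos_left hd (by omega)
  choose! g hg1 hg2 hg3 using h
  have hinj : Set.InjOn g S := by
    intro d hd d' hd' he
    have h1 := hg2 d hd
    have h2 := hg2 d' hd'
    have h3 := hg3 d hd
    have h4 := hg3 d' hd'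
    have h5 := (mem_Icc.1 (mem_product.1 (hg1 d hd)).1).1
    rw [← he] at h2 h4
    have h6 : (N : ℤ) ∣ ((g d).1 * d' : ℕ) - ((g d).1 * d : ℕ) := by
      have h0 := dvd_sub h1 h2
      have e : ((((g d).1 * d' : ℕ) : ℤ) - (((g d).1 * d : ℕ) : ℤ))
          = ((g d).2.1 - ((g d).1 : ℤ) * (d : ℤ)) - ((g d).2.1 - ((g d).1 : ℤ) * (d' : ℤ)) := by
        push_cast
        ring
      rw [e]
      exact h0
    have h7 : (g d).1 * d % N = (g d).1 * d' % N := by
      have := (Nat.modEq_iff_dvd (n := N) (a := (g d).1 * d) (b := (g d).1 * d')).2 h6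
      exact this
    have h8 : (g d).1 * d = (g d).1 * d' := by
      rw [← Nat.div_add_mod ((g d).1 * d) N, ← Nat.div_add_mod ((g d).1 * d') N, h7, ← h3, ← h4]
    exact Nat.eq_of_mul_eq_mul_left (by omega) h8
  calc S.ncard ≤ (((Icc 1 M) ×ˢ ((spF p n C K) ×ˢ (range M)) : Finset (ℕ × ℤ × ℕ)) :
        Set (ℕ × ℤ × ℕ)).ncard :=
        Set.ncard_le_ncard_of_injOn g (fun d hd => hg1 d hd) hinj (Finset.finite_toSet _)
    _ = M * ((spF p n C K).card * M) := by
        rw [Set.ncard_coe_finset, card_product, card_product, card_range, Nat.card_Icc,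
          Nat.add_sub_cancel]
    _ ≤ M * (((2 * C + 1) * n) ^ K * M) :=
        Nat.mul_le_mul_left _ (Nat.mul_le_mul_right _ (spF_card p n C K))
    _ = M ^ 2 * ((2 * C + 1) * n) ^ K := by ring

end Pool.Agent.WVal
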