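import Pool.Agent.WVal.Basic
import Pool.Agent.WVal.Geo

/-!
A large product of digit sums forces a sparse representation.
-/

set_option autoImplicit false

namespace Pool.Agent.WVal

open Finset

theorem sparse (ε ε' : ℝ) (hε : 0 < ε) (hε' : 0 < ε') : ∃ K C : ℕ, ∀ p n h : ℕ, 2 ≤ p → 1 ≤ n →
    ε * (p : ℝ) ≤ h → ∀ y : ℤ,
    ε' * ((2 * h : ℕ) : ℝ) ^ n < ∏ x ∈ range n, ‖G (2 * h) ((p : ℝ) ^ x * (y : ℝ) / ((p : ℝ) ^ n - 1))‖ →
    ∃ c : ℕ → ℤ, ((p : ℤ) ^ n - 1) ∣ (∑ x ∈ range n, c x * (p : ℤ) ^ x) - y ∧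
      ((range n).filter (fun x => c x ≠ 0)).card ≤ K ∧ ∀ x ∈ range n, |c x| ≤ C := by
  set r : ℝ := max (1 / 2) (1 - ε ^ 2) with hr
  have hr1 : r < 1 := max_lt (by norm_num) (by nlinarith [sq_nonneg ε, mul_pos hε hε])
  have hr0 : 0 < r := lt_of_lt_of_le (by norm_num) (le_max_left _ _)
  obtain ⟨K, hK⟩ := exists_pow_lt_of_lt_one hε' hr1
  obtain ⟨C, hC⟩ := exists_nat_ge (1 / (2 * ε * ε'))
  refine ⟨K, C, ?_⟩
  intro p n h hp hn hh y hprod
  have hN := N_pos p n hp hn
  have hp0 : (0 : ℝ) < p := by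
    have : (2 : ℝ) ≤ (p : ℝ) := by exact_mod_cast hp
    linarith
  have hh0 : (0 : ℝ) < h := lt_of_lt_of_le (by positivity) hh
  have h2h : (0 : ℝ) < ((2 * h : ℕ) : ℝ) := by push_cast; positivity
  set u : ℕ → ℝ := fun i => (p : ℝ) ^ i * (y : ℝ) / ((p : ℝ) ^ n - 1) with hu
  set β : ℕ → ℝ := fun i => u i - round (u i) with hβ
  have hβ2 : ∀ i, |β i| ≤ 1 / 2 := fun i => abs_sub_round (u i)
  have husucc : ∀ i, u (i + 1) = p * u i := by
    intro i; simp only [hu]; rw [pow_succ]; ring
  set b : ℕ → ℤ := fun i => round (u (i + 1)) - p * round (u i) with hb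
  have hbβ : ∀ i, (b i : ℝ) = - (p * β i - β (i + 1)) + 2 * (p * β i - β (i + 1)) := by
    intro i
    simp only [hb, hβ]
    rw [husucc]
    push_cast
    ring
  have hbβ' : ∀ i, (b i : ℝ) = p * β i - β (i + 1) := by
    intro i; rw [hbβ]; ring
  have hper : β n = β 0 := by
    have e : u n = u 0 + (y : ℤ) := by
      simp only [hu]
      field_simp
      ring
    simp only [hβ, e, round_add_intCast]
    push_cast
    ring
  have hG : ∀ i, ‖G (2 * h) (u i)‖ = ‖G (2 * h) (β i)‖ := by
    intro i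
    have : u i = β i + (round (u i) : ℤ) := by simp only [hβ]; ring
    conv_lhs => rw [this, G_add_int]
  set g : ℕ → ℝ := fun i => ‖G (2 * h) (β i)‖ / ((2 * h : ℕ) : ℝ) with hg
  have hg0 : ∀ i, 0 ≤ g i := fun i => by simp only [hg]; positivity
  have hg1 : ∀ i, g i ≤ 1 := fun i => by
    simp only [hg]
    rw [div_le_one h2h]
    exact G_norm_le _ _
  have hβlow : ∀ i, b i ≠ 0 → |(b i : ℝ)| / (2 * p) ≤ |β i| := by
    intro i hi
    have h1 : (1 : ℝ) ≤ |(b i : ℝ)| := by
      have := Int.one_le_abs hi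
      exact_mod_cast this
    have h2 : |(b i : ℝ)| ≤ p * |β i| + |β (i + 1)| := by
      rw [hbβ']
      calc |p * β i - β (i + 1)| ≤ |p * β i| + |β (i + 1)| := abs_sub _ _
        _ = p * |β i| + |β (i + 1)| := by rw [abs_mul, abs_of_pos hp0]
    have h3 := hβ2 (i + 1)
    rw [div_le_iff₀ (by positivity)]
    nlinarith
  have hga : ∀ i, b i ≠ 0 → g i ≤ 1 / (2 * ε * |(b i : ℝ)|) := by
    intro i hi
    have h1 : (1 : ℝ) ≤ |(b i : ℝ)| := by
      have := Int.one_le_abs hi
      exact_mod_cast this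
    have h2 := hβlow i hi
    have hpos : 0 < |β i| := lt_of_lt_of_le (by positivity) h2
    have h3 := G_le_inv (2 * h) (β i) (abs_pos.1 hpos) (hβ2 i)
    simp only [hg]
    rw [div_le_div_iff₀ h2h (by positivity), one_mul]
    have h4 : |(b i : ℝ)| * (1 / (2 * |β i|)) ≤ p := by
      rw [mul_one_div, div_le_iff₀ (by positivity)]
      rw [div_le_iff₀ (by positivity)] at h2
      linarith
    calc ‖G (2 * h) (β i)‖ * (2 * ε * |(b i : ℝ)|) ≤ (1 / (2 * |β i|)) * (2 * ε * |(b i : ℝ)|) := by
          gcongr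
      _ = 2 * ε * (|(b i : ℝ)| * (1 / (2 * |β i|))) := by ring
      _ ≤ 2 * ε * p := by gcongr
      _ ≤ ((2 * h : ℕ) : ℝ) := by push_cast; linarith
  have hgb : ∀ i, b i ≠ 0 → g i ≤ r := by
    intro i hi
    have h1 : (1 : ℝ) ≤ |(b i : ℝ)| := by
      have := Int.one_le_abs hi
      exact_mod_cast this
    have h2 := hβlow i hi
    have hpos : 0 < |β i| := lt_of_lt_of_le (by positivity) h2
    simp only [hg]
    rw [div_le_iff₀ h2h]
    rcases le_or_gt ((h : ℝ) * |β i|) (1 / 2) with hc | hc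
    · have h3 := G_two_mul h (β i) hc
      have h4 : ε / 2 ≤ (h : ℝ) * |β i| := by
        calc ε / 2 = (ε * p) * (1 / (2 * p)) := by field_simp
          _ ≤ (h : ℝ) * |β i| := by
            apply mul_le_mul hh _ (by positivity) hh0.le
            refine le_trans ?_ h2
            gcongr
      have h5 : ε ^ 2 ≤ 4 * ((h : ℝ) * β i) ^ 2 := by
        have : ((h : ℝ) * β i) ^ 2 = ((h : ℝ) * |β i|) ^ 2 := by
          rw [mul_pow, mul_pow, sq_abs]
        rw [this]
        nlinarith
      calc ‖G (2 * h) (β i)‖ ≤ (2 * h : ℝ) * (1 - 4 * ((h : ℝ) * β i) ^ 2) := h3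
        _ ≤ (2 * h : ℝ) * (1 - ε ^ 2) := by gcongr
        _ ≤ (2 * h : ℝ) * r := by
          gcongr
          exact le_max_right _ _
        _ = r * ((2 * h : ℕ) : ℝ) := by push_cast; ring
    · have h3 := G_le_inv (2 * h) (β i) (abs_pos.1 hpos) (hβ2 i)
      have h4 : 1 / (2 * |β i|) ≤ h := by
        rw [div_le_iff₀ (by positivity)]
        linarith
      calc ‖G (2 * h) (β i)‖ ≤ h := h3.trans h4
        _ = 1 / 2 * ((2 * h : ℕ) : ℝ) := by push_cast; ring
        _ ≤ r * ((2 * h : ℕ) : ℝ) := by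
          gcongr
          exact le_max_left _ _
  have hprod' : ε' < ∏ i ∈ range n, g (n - 1 - i) := by
    rw [Finset.prod_range_reflect (fun i => g i) n]
    simp only [hg]
    rw [Finset.prod_div_distrib, Finset.prod_const, Finset.card_range, lt_div_iff₀ (by positivity)]
    refine lt_of_lt_of_eq hprod ?_
    refine Finset.prod_congr rfl fun i _ => ?_
    exact hG i
  refine ⟨fun i => b (n - 1 - i), ?_, ?_, ?_⟩
  · have e1 : ∑ i ∈ range n, b (n - 1 - i) * (p : ℤ) ^ i =
        ∑ i ∈ range n, b i * (p : ℤ) ^ (n - 1 - i) := by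
      rw [← Finset.sum_range_reflect (fun i => b i * (p : ℤ) ^ (n - 1 - i)) n]
      refine Finset.sum_congr rfl fun i hi => ?_
      have hi' : i < n := Finset.mem_range.1 hi
      have : n - 1 - (n - 1 - i) = i := by omega
      rw [this]
    rw [e1]
    have htel : ∀ t, t ≤ n → ∑ i ∈ range t, (b i : ℝ) * (p : ℝ) ^ (n - 1 - i) =
        β 0 * (p : ℝ) ^ n - β t * (p : ℝ) ^ (n - t) := by
      intro t
      induction t with
      | zero => intro _; simp
      | succ t ih =>
        intro ht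
        rw [Finset.sum_range_succ, ih (by omega), hbβ']
        have e2 : n - t = (n - 1 - t) + 1 := by omega
        have e3 : n - (t + 1) = n - 1 - t := by omega
        rw [e2, e3, pow_succ]
        ring
    have h2 := htel n le_rfl
    rw [Nat.sub_self, pow_zero, mul_one, hper] at h2
    have h3 : β 0 * ((p : ℝ) ^ n - 1) = y - ((p : ℝ) ^ n - 1) * round (u 0) := by
      simp only [hβ, hu, pow_zero, one_mul]
      field_simp
    refine ⟨-round (u 0), ?_⟩
    have h4 : ((∑ i ∈ range n, b i * (p : ℤ) ^ (n - 1 - i) - y : ℤ) : ℝ) =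
        ((((p : ℤ) ^ n - 1) * -round (u 0) : ℤ) : ℝ) := by
      push_cast
      rw [h2]
      linear_combination h3
    exact_mod_cast h4
  · -- count
    by_contra hcon
    push_neg at hcon
    have h1 : ∏ i ∈ range n, g (n - 1 - i) ≤
        r ^ ((range n).filter (fun x => b (n - 1 - x) ≠ 0)).card := by
      rw [← Finset.prod_filter_mul_prod_filter_not (range n) (fun x => b (n - 1 - x) ≠ 0)]
      calc _ ≤ (∏ i ∈ (range n).filter (fun x => b (n - 1 - x) ≠ 0), r) * 1 := by
            apply mul_le_mul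
            · apply Finset.prod_le_prod
              · intro i _; exact hg0 _
              · intro i hi; exact hgb _ (Finset.mem_filter.1 hi).2
            · apply Finset.prod_le_one
              · intro i _; exact hg0 _
              · intro i _; exact hg1 _
            · exact Finset.prod_nonneg fun i _ => hg0 _
            · exact Finset.prod_nonneg fun i _ => hr0.le
        _ = _ := by rw [Finset.prod_const, mul_one]
    have h2 : r ^ ((range n).filter (fun x => b (n - 1 - x) ≠ 0)).card ≤ r ^ K :=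
      pow_le_pow_of_le_one hr0.le hr1.le hcon.le
    linarith
  · intro i hi
    by_cases hbi : b (n - 1 - i) = 0
    · simp [hbi]
    · have h1 : (1 : ℝ) ≤ |(b (n - 1 - i) : ℝ)| := by
        have := Int.one_le_abs hbi
        exact_mod_cast this
      have h2 : ∏ i ∈ range n, g (n - 1 - i) ≤ g (n - 1 - i) := by
        rw [← Finset.mul_prod_erase _ _ hi]
        calc _ ≤ g (n - 1 - i) * 1 := by
              apply mul_le_mul_of_nonneg_left _ (hg0 _)
              apply Finset.prod_le_one
              · intro i _; exact hg0 _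
              · intro i _; exact hg1 _
          _ = _ := mul_one _
      have h3 := hga _ hbi
      have h4 : ε' < 1 / (2 * ε * |(b (n - 1 - i) : ℝ)|) := by linarith
      rw [lt_div_iff₀ (by positivity)] at h4
      have h5 : |(b (n - 1 - i) : ℝ)| ≤ C := by
        refine le_trans ?_ hC
        rw [le_div_iff₀ (by positivity)]
        nlinarith
      exact_mod_cast h5

end Pool.Agent.WVal
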