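import Pool.Agent.WVal.Avg
import Pool.Agent.WVal.Sparse
import Pool.Agent.WVal.BernAvg
import Pool.Agent.WVal.BernSparse
import Pool.Agent.WVal.Count
import Pool.Agent.WVal.Final

/-!
All but polynomially many (in `n`) exponents `d` modulo `p^n - 1` satisfy `V ≤ (1/2 + ε) n`.
-/

set_option autoImplicit false

namespace Pool.Agent.WVal

open Finset

/-- large `p`: a structured exponent or a good `z`. -/
theorem large_p (ε : ℝ) (hε : 0 < ε) : ∃ M K C p₁ : ℕ, ∀ p n : ℕ, p₁ ≤ p → 1 ≤ n → ∀ d : ℤ,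
    (¬ ∃ z : ℤ, ¬ ((p : ℤ) ^ n - 1) ∣ z ∧ S p n z + S p n (-(d * z)) ≤ (1 / 2 + ε) * n) →
    ∃ m : ℕ, 1 ≤ m ∧ m ≤ M ∧ ∃ c : ℕ → ℤ,
      ((p : ℤ) ^ n - 1) ∣ (∑ x ∈ range n, c x * (p : ℤ) ^ x) - (m : ℤ) * d ∧
      ((range n).filter (fun x => c x ≠ 0)).card ≤ K ∧ ∀ x ∈ range n, |c x| ≤ (C : ℤ) := by
  set ε₁ : ℝ := min ε 1 / 4 with hε₁
  have hmin : 0 < min ε 1 := lt_min hε one_pos
  have hε₁0 : 0 < ε₁ := by rw [hε₁]; positivity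
  have hε₁1 : ε₁ ≤ 1 / 4 := by
    rw [hε₁]
    have := min_le_right ε 1
    linarith
  have hε₁ε : 4 * ε₁ ≤ ε := by
    rw [hε₁]
    have := min_le_left ε 1
    linarith
  obtain ⟨M, ε', hε'0, havg⟩ := avg ε₁ hε₁0
  obtain ⟨K, C, hsparse⟩ := sparse (ε₁ / 8) ε' (by positivity) hε'0
  obtain ⟨A, hA⟩ := exists_nat_ge (8 / ε₁ ^ 2)
  refine ⟨M, K, C, A + 8, ?_⟩
  intro p n hp₀ hn d hcon
  have hp : 2 ≤ p := by omega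
  have hN := N_pos p n hp hn
  have hnR : (1 : ℝ) ≤ n := by exact_mod_cast hn
  have hpA : (A : ℝ) + 8 ≤ p := by exact_mod_cast hp₀
  have hp0R : (0 : ℝ) < p := by
    have : (0 : ℝ) ≤ A := by positivity
    linarith
  have hεp : 8 / ε₁ ^ 2 ≤ p := by linarith
  have hεp2 : 8 ≤ ε₁ ^ 2 * p := by
    rw [div_le_iff₀ (by positivity)] at hεp
    linarith
  have hεp1 : 32 ≤ ε₁ * p := by nlinarith
  set h : ℕ := ⌊ε₁ * p / 4⌋₊ with hh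
  have hh1 : (h : ℝ) ≤ ε₁ * p / 4 := Nat.floor_le (by positivity)
  have hh2 : ε₁ * p / 4 < (h : ℝ) + 1 := Nat.lt_floor_add_one _
  have hh3 : ε₁ / 8 * (p : ℝ) ≤ h := by linarith
  have hh4 : (1 : ℝ) ≤ h := by linarith
  have hh4' : 1 ≤ h := by exact_mod_cast hh4
  have hL1 : 1 ≤ 2 * h := by omega
  have hLp : 2 * h + 1 ≤ p := by
    have : (2 : ℝ) * h + 1 ≤ p := by nlinarith
    exact_mod_cast this
  have hLε : (1 / 2 + 2 * ε₁) ≤ ε₁ * ((2 * h : ℕ) : ℝ) := by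
    push_cast
    nlinarith
  have hLn : (((2 * h : ℕ) : ℝ) - 1) * n / ((p : ℝ) - 1) ≤ ε₁ * n := by
    have hp1 : (0 : ℝ) < (p : ℝ) - 1 := by linarith
    rw [div_le_iff₀ hp1]
    push_cast
    have : (2 : ℝ) * h - 1 ≤ ε₁ * ((p : ℝ) - 1) := by nlinarith
    nlinarith
  by_cases hA1 : ∀ m : ℕ, 1 ≤ m → m ≤ M →
      ∏ x ∈ range n, ‖G (2 * h) (((p : ℝ) ^ x * ((m : ℝ) * (d : ℝ))) / ((p : ℝ) ^ n - 1))‖
        ≤ ε' * ((2 * h : ℕ) : ℝ) ^ n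
  · exfalso
    apply hcon
    obtain ⟨z, hz, hz1, hz2⟩ := havg p n (2 * h) hp hn hL1 hLp hLε d hA1
    refine ⟨z, hz, ?_⟩
    have := hz1.trans hLn
    nlinarith
  push Not at hA1
  obtain ⟨m, hm1, hmM, hm⟩ := hA1
  have hmd : ε' * ((2 * h : ℕ) : ℝ) ^ n <
      ∏ x ∈ range n, ‖G (2 * h) ((p : ℝ) ^ x * (((m : ℤ) * d : ℤ) : ℝ) / ((p : ℝ) ^ n - 1))‖ := by
    push_cast at hm ⊢
    exact hm
  obtain ⟨c, hc1, hc2, hc3⟩ := hsparse p n h hp hn hh3 _ hmd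
  exact ⟨m, hm1, hmM, c, hc1, hc2, hc3⟩

/-- small `p`, large `n`. -/
theorem small_p (P : ℕ) (ε : ℝ) (hε : 0 < ε) : ∃ M K n₀ : ℕ, ∀ p n : ℕ, 2 ≤ p → p ≤ P →
    n₀ ≤ n → 1 ≤ n → ∀ d : ℤ,
    (¬ ∃ z : ℤ, ¬ ((p : ℤ) ^ n - 1) ∣ z ∧ S p n z + S p n (-(d * z)) ≤ (1 / 2 + ε) * n) →
    ∃ m : ℕ, 1 ≤ m ∧ m ≤ M ∧ ∃ c : ℕ → ℤ,
      ((p : ℤ) ^ n - 1) ∣ (∑ x ∈ range n, c x * (p : ℤ) ^ x) - (m : ℤ) * d ∧
      ((range n).filter (fun x => c x ≠ 0)).card ≤ K ∧ ∀ x ∈ range n, |c x| ≤ (P : ℤ) := by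
  obtain ⟨L, hL⟩ := exists_nat_ge (1 / (ε / 3) + 2)
  have hε3 : 0 < ε / 3 := by positivity
  have hL2 : 2 ≤ L := by
    have : (2 : ℝ) ≤ L := by
      have : 0 < 1 / (ε / 3) := by positivity
      linarith
    exact_mod_cast this
  have hLε : 1 ≤ ε / 3 * (L : ℝ) := by
    have h1 : 1 / (ε / 3) ≤ L := by linarith
    rw [div_le_iff₀ hε3] at h1
    linarith
  obtain ⟨M, n₀, ε', hε'0, havg⟩ := bern_avg (ε / 3) hε3 L hL2 hLε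
  obtain ⟨K, hsparse⟩ := bern_sparse P L hL2 ε' hε'0
  refine ⟨M, K, n₀, ?_⟩
  intro p n hp hpP hn₀ hn d hcon
  by_cases hA1 : ∀ m : ℕ, 1 ≤ m → m ≤ M →
      ∏ x ∈ range n, ‖H L (((p : ℝ) ^ x * ((m : ℝ) * (d : ℝ))) / ((p : ℝ) ^ n - 1))‖
        ≤ ε' * (L : ℝ) ^ n
  · exfalso
    apply hcon
    obtain ⟨z, hz, hz1⟩ := havg p n hp hn₀ d hA1
    refine ⟨z, hz, ?_⟩
    have : (1 / 2 + 3 * (ε / 3)) * (n : ℝ) = (1 / 2 + ε) * n := by ring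
    rwa [this] at hz1
  push Not at hA1
  obtain ⟨m, hm1, hmM, hm⟩ := hA1
  have hmd : ε' * (L : ℝ) ^ n <
      ∏ x ∈ range n, ‖H L ((p : ℝ) ^ x * (((m : ℤ) * d : ℤ) : ℝ) / ((p : ℝ) ^ n - 1))‖ := by
    push_cast at hm ⊢
    exact hm
  obtain ⟨c, hc1, hc2, hc3⟩ := hsparse p n hp hpP hn _ hmd
  exact ⟨m, hm1, hmM, c, hc1, hc2, hc3⟩

theorem digit_almost (ε : ℝ) (hε : 0 < ε) : ∃ C : ℕ, ∀ p n : ℕ, 2 ≤ p → 1 ≤ n →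
    {d : ℕ | d < p ^ n - 1 ∧ ¬ ∃ z : ℤ, ¬ ((p : ℤ) ^ n - 1) ∣ z ∧
      S p n z + S p n (-((d : ℤ) * z)) ≤ (1 / 2 + ε) * n}.ncard ≤ C * n ^ C := by
  obtain ⟨M₁, K₁, C₁, p₁, h₁⟩ := large_p ε hε
  obtain ⟨M₂, K₂, n₀, h₂⟩ := small_p p₁ ε hε
  set a₁ : ℕ := M₁ ^ 2 * (2 * C₁ + 1) ^ K₁ with ha₁
  set a₂ : ℕ := M₂ ^ 2 * (2 * p₁ + 1) ^ K₂ with ha₂
  set a₃ : ℕ := p₁ ^ n₀ with ha₃
  refine ⟨a₁ + a₂ + a₃ + K₁ + K₂, ?_⟩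
  intro p n hp hn
  set T : ℕ := a₁ + a₂ + a₃ + K₁ + K₂ with hT
  have hpow : ∀ a K : ℕ, a ≤ T → K ≤ T → a * n ^ K ≤ T * n ^ T := fun a K ha hK =>
    Nat.mul_le_mul ha (Nat.pow_le_pow_right hn hK)
  have hfin : ∀ Q : ℕ → Prop, {d : ℕ | d < p ^ n - 1 ∧ Q d}.Finite := fun Q =>
    (Set.finite_Iio (p ^ n - 1)).subset fun d hd => hd.1
  rcases le_total p₁ p with hpp | hpp
  · calc _ ≤ {d : ℕ | d < p ^ n - 1 ∧ ∃ m : ℕ, 1 ≤ m ∧ m ≤ M₁ ∧ ∃ c : ℕ → ℤ,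
          ((p : ℤ) ^ n - 1) ∣ (∑ x ∈ range n, c x * (p : ℤ) ^ x) - (m : ℤ) * (d : ℤ) ∧
          ((range n).filter (fun x => c x ≠ 0)).card ≤ K₁ ∧ ∀ x ∈ range n, |c x| ≤ (C₁ : ℤ)}.ncard := by
          apply Set.ncard_le_ncard _ (hfin _)
          intro d hd
          exact ⟨hd.1, h₁ p n hpp hn (d : ℤ) hd.2⟩
      _ ≤ M₁ ^ 2 * ((2 * C₁ + 1) * n) ^ K₁ := count_sparse p n K₁ C₁ M₁ hp hn
      _ = a₁ * n ^ K₁ := by rw [ha₁, mul_pow]; ring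
      _ ≤ T * n ^ T := hpow _ _ (by omega) (by omega)
  · rcases le_total n₀ n with hnn | hnn
    · calc _ ≤ {d : ℕ | d < p ^ n - 1 ∧ ∃ m : ℕ, 1 ≤ m ∧ m ≤ M₂ ∧ ∃ c : ℕ → ℤ,
            ((p : ℤ) ^ n - 1) ∣ (∑ x ∈ range n, c x * (p : ℤ) ^ x) - (m : ℤ) * (d : ℤ) ∧
            ((range n).filter (fun x => c x ≠ 0)).card ≤ K₂ ∧ ∀ x ∈ range n, |c x| ≤ (p₁ : ℤ)}.ncard := by
            apply Set.ncard_le_ncard _ (hfin _)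
            intro d hd
            exact ⟨hd.1, h₂ p n hp hpp hnn hn (d : ℤ) hd.2⟩
        _ ≤ M₂ ^ 2 * ((2 * p₁ + 1) * n) ^ K₂ := count_sparse p n K₂ p₁ M₂ hp hn
        _ = a₂ * n ^ K₂ := by rw [ha₂, mul_pow]; ring
        _ ≤ T * n ^ T := hpow _ _ (by omega) (by omega)
    · calc _ ≤ (Set.Iio (p ^ n - 1)).ncard := by
            apply Set.ncard_le_ncard _ (Set.finite_Iio _)
            intro d hd
            exact hd.1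
        _ = p ^ n - 1 := by
            rw [Set.ncard_eq_toFinset_card', Set.toFinset_Iio, Nat.card_Iio]
        _ ≤ p ^ n := Nat.sub_le _ _
        _ ≤ p₁ ^ n := Nat.pow_le_pow_left hpp n
        _ ≤ p₁ ^ n₀ := Nat.pow_le_pow_right (by omega) hnn
        _ = a₃ * n ^ 0 := by rw [ha₃, pow_zero, mul_one]
        _ ≤ T * n ^ T := hpow _ _ (by omega) (by omega)

theorem weil_almost (ε : ℝ) (hε : 0 < ε) : ∃ C : ℕ,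
    ∀ (p : ℕ) [Fact p.Prime] (F : Type) [Field F] [Fintype F] [Algebra (ZMod p) F],
      {d : ℕ | d < Fintype.card F - 1 ∧ Nat.Coprime d (Fintype.card F - 1) ∧
        ¬ ∃ a : F, a ≠ 0 ∧ ∃ m : ℤ, m ≠ 0 ∧
        (m : ℂ) = ∏ j ∈ Finset.Ico 1 p,
          ∑ x : F, Complex.exp (2 * (Real.pi : ℂ) * Complex.I * (j : ℂ) *
            ((Algebra.trace (ZMod p) F (x ^ d - a * x)).val : ℂ) / (p : ℂ)) ∧
        (padicValInt p m : ℝ) ≤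
          ((p : ℝ) - 1) * (1 / 2 + ε) * (Module.finrank (ZMod p) F : ℝ)}.ncard ≤
      C * (Module.finrank (ZMod p) F) ^ C := by
  obtain ⟨C, hC⟩ := digit_almost ε hε
  refine ⟨C, ?_⟩
  intro p hpf F _ _ _
  have hp : p.Prime := Fact.out
  set n := Module.finrank (ZMod p) F with hn
  have hn1 : 1 ≤ n := Module.finrank_pos
  have hcard : Fintype.card F = p ^ n := by
    have := Module.card_eq_pow_finrank (K := ZMod p) (V := F)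
    rwa [ZMod.card] at this
  refine le_trans ?_ (hC p n hp.two_le hn1)
  apply Set.ncard_le_ncard _ ((Set.finite_Iio (p ^ n - 1)).subset fun d hd => hd.1)
  intro d hd
  obtain ⟨hd1, hd2, hd3⟩ := hd
  rw [hcard] at hd1
  refine ⟨hd1, ?_⟩
  rintro ⟨z, hz, hS⟩
  apply hd3
  obtain ⟨a, ha, m, hm, hmC, hval⟩ := weil_of_digit_all (F := F) d hd2 ((1 / 2 + ε) * n) z hz hS
  exact ⟨a, ha, m, hm, hmC, by rw [mul_assoc]; exact hval⟩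

end Pool.Agent.WVal
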