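import Pool.Agent.WVal.Defs

/-!
Trigonometric polynomial majorant of the fractional part.

Proof. Let `0 < δ ≤ 1` and `h(t) = max t (1 - t/δ)` on `[0,1]`, `h(0) = h(1) = 1`; so `h ∘ Int.fract` is
continuous (`ContinuousOn.comp_fract''`), `≥ Int.fract` and has mean `≤ 1/2 + δ` (`h t ≤ t + 1_{t ≤ δ}`).
View it as an element of `C(AddCircle (1:ℝ), ℂ)` (or `C(UnitAddCircle, ℂ)`) and use
`span_fourier_closure_eq_top` to find a trigonometric polynomial `P = ∑ c_m fourier m` with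
`‖h + ε/4 - P‖ ≤ ε/4`. Then `Re P ≥ h ≥ fract`, and `Re (c_0) = Re ∫ P ≤ 1/2 + δ + ε/2`.
-/

set_option autoImplicit false

namespace Pool.Agent.WVal

open Finset

private noncomputable def hh (δ t : ℝ) : ℝ := max t (1 - t / δ)

private lemma hh_ge (δ t : ℝ) : t ≤ hh δ t := le_max_left _ _

private lemma hh_le (δ t : ℝ) (hδ : 0 < δ) (ht : 0 ≤ t) :
    hh δ t ≤ t + (if t ≤ δ then 1 else 0) := by
  unfold hh
  have h0 : 0 ≤ t / δ := div_nonneg ht hδ.le
  split_ifs with h
  · apply max_le <;> linarith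
  · have h1 : 1 < t / δ := by rw [lt_div_iff₀ hδ]; linarith
    apply max_le <;> linarith

private lemma hh_cont (δ : ℝ) : Continuous (hh δ) := by
  unfold hh
  fun_prop

private lemma exp_sum_zero (N : ℕ) (m : ℤ) (hm : m ≠ 0) (hmN : |m| < (N : ℤ)) :
    ∑ k ∈ range N, Complex.exp (2 * (Real.pi : ℂ) * Complex.I *
      (((m : ℝ) * ((k : ℝ) / (N : ℝ)) : ℝ) : ℂ)) = 0 := by
  have hN : (N : ℂ) ≠ 0 := by
    have : 0 < (N : ℤ) := lt_of_le_of_lt (abs_nonneg m) hmN
    exact_mod_cast this.ne'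
  set w : ℂ := Complex.exp (2 * (Real.pi : ℂ) * Complex.I * ((m : ℂ) / (N : ℂ))) with hw
  have h1 : ∀ k ∈ range N, Complex.exp (2 * (Real.pi : ℂ) * Complex.I *
      (((m : ℝ) * ((k : ℝ) / (N : ℝ)) : ℝ) : ℂ)) = w ^ k := by
    intro k _
    rw [hw, ← Complex.exp_nat_mul]
    congr 1
    push_cast
    field_simp
  rw [sum_congr rfl h1]
  have hw1 : w ≠ 1 := by
    intro h
    rw [hw, Complex.exp_eq_one_iff] at h
    obtain ⟨n, hn⟩ := h
    have hpi : (2 * (Real.pi : ℂ) * Complex.I) ≠ 0 := by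
      simp [Real.pi_ne_zero]
    have h2 : (m : ℂ) / (N : ℂ) = n := by
      have : (2 * (Real.pi : ℂ) * Complex.I) * ((m : ℂ) / (N : ℂ)) =
          (2 * (Real.pi : ℂ) * Complex.I) * n := by
        rw [hn]; ring
      exact mul_left_cancel₀ hpi this
    rw [div_eq_iff hN] at h2
    have h3 : m = n * (N : ℤ) := by exact_mod_cast h2
    have h4 : (N : ℤ) ∣ m := ⟨n, by rw [h3]; ring⟩
    exact hm (Int.eq_zero_of_abs_lt_dvd h4 hmN)
  have hwN : w ^ N = 1 := by
    rw [hw, ← Complex.exp_nat_mul]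
    have : (N : ℂ) * (2 * (Real.pi : ℂ) * Complex.I * ((m : ℂ) / (N : ℂ))) =
        (m : ℂ) * (2 * (Real.pi : ℂ) * Complex.I) := by
      field_simp
    rw [this]
    exact Complex.exp_int_mul_two_pi_mul_I m
  have := geom_sum_mul w N
  rw [hwN, sub_self] at this
  rcases mul_eq_zero.mp this with h | h
  · exact h
  · exact absurd (sub_eq_zero.mp h) hw1

theorem majorant (ε : ℝ) (hε : 0 < ε) : ∃ (M : ℕ) (q : ℤ → ℂ), (q 0).re ≤ 1 / 2 + ε ∧
    ∀ x : ℝ, Int.fract x ≤ (∑ m ∈ Icc (-(M : ℤ)) (M : ℤ),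
      q m * Complex.exp (2 * (Real.pi : ℂ) * Complex.I * (((m : ℝ) * x : ℝ) : ℂ))).re := by
  classical
  set δ : ℝ := min (ε / 4) 1 with hδd
  have hδ : 0 < δ := lt_min (by linarith) one_pos
  have hδε : δ ≤ ε / 4 := min_le_left _ _
  have hδ1 : δ ≤ 1 := min_le_right _ _
  have : Fact ((0 : ℝ) < 1) := ⟨one_pos⟩
  have hends : (fun t : ℝ => ((hh δ t : ℝ) : ℂ)) 0 = (fun t : ℝ => ((hh δ t : ℝ) : ℂ)) 1 := by
    have h0 : hh δ 0 = 1 := by simp [hh]
    have h1 : hh δ 1 = 1 := by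
      unfold hh
      have : 1 ≤ 1 / δ := by rw [le_div_iff₀ hδ]; linarith
      exact max_eq_left (by linarith)
    simp only [h0, h1]
  have hFc : Continuous (AddCircle.liftIco (1 : ℝ) 0 (fun t : ℝ => ((hh δ t : ℝ) : ℂ))) :=
    AddCircle.liftIco_zero_continuous hends
      ((Complex.continuous_ofReal.comp (hh_cont δ)).continuousOn)
  let F : C(AddCircle (1 : ℝ), ℂ) :=
    ⟨AddCircle.liftIco (1 : ℝ) 0 (fun t : ℝ => ((hh δ t : ℝ) : ℂ)), hFc⟩ +
      ContinuousMap.const _ ((ε / 4 : ℝ) : ℂ)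
  have hF : ∀ x : ℝ, F (x : AddCircle (1 : ℝ)) = ((hh δ (Int.fract x) + ε / 4 : ℝ) : ℂ) := by
    intro x
    have hx : (x : AddCircle (1 : ℝ)) = ((Int.fract x : ℝ) : AddCircle (1 : ℝ)) := by
      have h0 : ((⌊x⌋ : ℝ) : AddCircle (1 : ℝ)) = 0 := by
        rw [AddCircle.coe_eq_zero_iff]
        exact ⟨⌊x⌋, by simp⟩
      rw [← Int.self_sub_floor, AddCircle.coe_sub, h0, sub_zero]
    simp only [F, ContinuousMap.add_apply, ContinuousMap.const_apply, ContinuousMap.coe_mk]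
    rw [hx, AddCircle.liftIco_zero_coe_apply ⟨Int.fract_nonneg x, Int.fract_lt_one x⟩]
    push_cast
    ring
  have hmem : F ∈ (Submodule.span ℂ (Set.range (@fourier (1 : ℝ)))).topologicalClosure := by
    rw [span_fourier_closure_eq_top]
    trivial
  have hcl : F ∈ closure ((Submodule.span ℂ (Set.range (@fourier (1 : ℝ))) :
      Submodule ℂ C(AddCircle (1 : ℝ), ℂ)) : Set C(AddCircle (1 : ℝ), ℂ)) := hmem
  rw [Metric.mem_closure_iff] at hcl
  obtain ⟨P, hP, hdist⟩ := hcl (ε / 4) (by linarith)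
  obtain ⟨c, hc⟩ := (Finsupp.mem_span_range_iff_exists_finsupp).mp hP
  set M : ℕ := c.support.sup Int.natAbs with hM
  have hPx : ∀ x : ℝ, P (x : AddCircle (1 : ℝ)) = ∑ m ∈ Icc (-(M : ℤ)) (M : ℤ),
      c m * Complex.exp (2 * (Real.pi : ℂ) * Complex.I * (((m : ℝ) * x : ℝ) : ℂ)) := by
    intro x
    have h1 : P (x : AddCircle (1 : ℝ)) = ∑ m ∈ c.support,
        c m * fourier m (x : AddCircle (1 : ℝ)) := by
      rw [← hc, Finsupp.sum, ContinuousMap.coe_sum, Finset.sum_apply]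
      rfl
    rw [h1]
    have hsub : c.support ⊆ Icc (-(M : ℤ)) (M : ℤ) := by
      intro m hm
      have : m.natAbs ≤ M := Finset.le_sup (f := Int.natAbs) hm
      rw [mem_Icc]
      omega
    rw [← Finset.sum_subset hsub]
    · refine sum_congr rfl fun m _ => ?_
      rw [fourier_coe_apply]
      congr 2
      push_cast
      ring
    · intro m _ hm
      rw [Finsupp.notMem_support_iff.mp hm, zero_mul]
  have hre : ∀ x : ℝ, |(P (x : AddCircle (1 : ℝ))).re - (hh δ (Int.fract x) + ε / 4)| ≤ ε / 4 := by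
    intro x
    have h1 : ‖P (x : AddCircle (1 : ℝ)) - F (x : AddCircle (1 : ℝ))‖ ≤ ε / 4 := by
      rw [← dist_eq_norm, dist_comm]
      exact (ContinuousMap.dist_apply_le_dist _).trans hdist.le
    have h2 := (Complex.abs_re_le_norm _).trans h1
    rw [Complex.sub_re, hF x, Complex.ofReal_re] at h2
    exact h2
  refine ⟨M, c, ?_, ?_⟩
  · -- the mean
    obtain ⟨N₀, hN₀⟩ := exists_nat_gt (4 / ε)
    set N : ℕ := max N₀ (M + 1) with hN
    have hNM : M < N := lt_of_lt_of_le (Nat.lt_succ_self M) (le_max_right _ _)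
    have hNpos : 0 < N := by omega
    have hNR : (0 : ℝ) < N := by exact_mod_cast hNpos
    have hNε : 1 ≤ ε / 4 * N := by
      have h1 : 4 / ε < (N : ℝ) := lt_of_lt_of_le hN₀ (by exact_mod_cast le_max_left _ _)
      rw [div_lt_iff₀ hε] at h1
      linarith
    have hsum : ∑ k ∈ range N, P (((k : ℝ) / (N : ℝ) : ℝ) : AddCircle (1 : ℝ)) = N * c 0 := by
      have : ∀ k ∈ range N, P (((k : ℝ) / (N : ℝ) : ℝ) : AddCircle (1 : ℝ)) =
          ∑ m ∈ Icc (-(M : ℤ)) (M : ℤ), c m * Complex.exp (2 * (Real.pi : ℂ) * Complex.I *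
            (((m : ℝ) * ((k : ℝ) / (N : ℝ)) : ℝ) : ℂ)) := fun k _ => hPx _
      rw [sum_congr rfl this, sum_comm, Finset.sum_eq_single (0 : ℤ)]
      · simp
      · intro m hm hm0
        rw [← mul_sum, exp_sum_zero N m hm0, mul_zero]
        rw [mem_Icc] at hm
        rw [abs_lt]
        constructor <;> omega
      · intro h
        exfalso
        apply h
        rw [mem_Icc]
        constructor <;> omega
    have hsum' : ∑ k ∈ range N, (P (((k : ℝ) / (N : ℝ) : ℝ) : AddCircle (1 : ℝ))).re =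
        N * (c 0).re := by
      rw [← Complex.re_sum, hsum]
      simp
    have hbound : ∀ k ∈ range N, (P (((k : ℝ) / (N : ℝ) : ℝ) : AddCircle (1 : ℝ))).re ≤
        (k : ℝ) / N + (if (k : ℝ) / N ≤ δ then 1 else 0) + ε / 2 := by
      intro k hk
      have hk' : k < N := mem_range.mp hk
      have hfr : Int.fract ((k : ℝ) / N) = (k : ℝ) / N := by
        rw [Int.fract_eq_self]
        refine ⟨by positivity, ?_⟩
        rw [div_lt_one hNR]
        exact_mod_cast hk'
      have h1 := (abs_le.mp (hre ((k : ℝ) / N))).2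
      rw [hfr] at h1
      have h2 := hh_le δ ((k : ℝ) / N) hδ (by positivity)
      linarith
    have h3 := sum_le_sum hbound
    rw [hsum', sum_add_distrib, sum_add_distrib, sum_const, card_range, nsmul_eq_mul,
      ← sum_div] at h3
    have h4 : ∑ k ∈ range N, (k : ℝ) = (N : ℝ) * ((N : ℝ) - 1) / 2 := by
      have := Finset.sum_range_id_mul_two N
      have h5 : ((∑ i ∈ range N, i : ℕ) : ℝ) * 2 = (N : ℝ) * ((N : ℝ) - 1) := by
        have h6 : ((N - 1 : ℕ) : ℝ) = (N : ℝ) - 1 := by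
          rw [Nat.cast_sub (by omega)]; simp
        rw [← h6]
        exact_mod_cast this
      push_cast at h5
      linarith
    have h7 : ∑ k ∈ range N, (if (k : ℝ) / N ≤ δ then (1 : ℝ) else 0) ≤ δ * N + 1 := by
      rw [← sum_filter, sum_const, nsmul_eq_mul, mul_one]
      have hsub : (range N).filter (fun k : ℕ => (k : ℝ) / N ≤ δ) ⊆ range (⌊δ * N⌋₊ + 1) := by
        intro k hk
        rw [mem_filter] at hk
        rw [mem_range, Nat.lt_succ_iff]
        apply Nat.le_floor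
        rw [← div_le_iff₀ hNR]
        exact hk.2
      have h8 := card_le_card hsub
      rw [card_range] at h8
      have h9 : (⌊δ * N⌋₊ : ℝ) ≤ δ * N := Nat.floor_le (by positivity)
      have h10 : (((range N).filter (fun k : ℕ => (k : ℝ) / N ≤ δ)).card : ℝ) ≤
          (⌊δ * N⌋₊ : ℝ) + 1 := by exact_mod_cast h8
      linarith
    rw [h4] at h3
    have h11 : (N : ℝ) * ((N : ℝ) - 1) / 2 / N = ((N : ℝ) - 1) / 2 := by
      field_simp
    rw [h11] at h3
    have h12 : (N : ℝ) * (c 0).re ≤ N * (1 / 2 + ε) := by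
      have h13 : δ * N ≤ ε / 4 * N := mul_le_mul_of_nonneg_right hδε hNR.le
      nlinarith
    exact le_of_mul_le_mul_left h12 hNR
  · intro x
    rw [← hPx x]
    have h1 := (abs_le.mp (hre x)).1
    have h2 := hh_ge δ (Int.fract x)
    linarith

end Pool.Agent.WVal
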