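import Pool.Agent.WVal.Basic
import Pool.Agent.WVal.Major
import Pool.Agent.WVal.Geo

/-!
Averaging over random digits: unstructured multipliers.
-/

set_option autoImplicit false

namespace Pool.Agent.WVal

open Finset

/-- `e(t)` -/
noncomputable def E (t : ℝ) : ℂ := Complex.exp (2 * (Real.pi : ℂ) * Complex.I * ((t : ℝ) : ℂ))

theorem E_add (s t : ℝ) : E (s + t) = E s * E t := by
  unfold E
  rw [← Complex.exp_add]
  congr 1
  push_cast; ring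

theorem E_zero : E 0 = 1 := by
  unfold E; simp

theorem E_sum {ι : Type} (s : Finset ι) (f : ι → ℝ) : E (∑ i ∈ s, f i) = ∏ i ∈ s, E (f i) := by
  classical
  induction s using Finset.induction_on with
  | empty => simp [E_zero]
  | insert a s ha ih => rw [Finset.sum_insert ha, Finset.prod_insert ha, E_add, ih]

theorem G_periodic (p n L : ℕ) (hp : 2 ≤ p) (hn : 1 ≤ n) (a b : ℤ)
    (h : ((p : ℤ) ^ n - 1) ∣ a - b) :
    ‖G L ((a : ℝ) / ((p : ℝ) ^ n - 1))‖ = ‖G L ((b : ℝ) / ((p : ℝ) ^ n - 1))‖ := by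
  obtain ⟨k, hk⟩ := h
  have hN := N_pos p n hp hn
  have e : (a : ℝ) / ((p : ℝ) ^ n - 1) = (b : ℝ) / ((p : ℝ) ^ n - 1) + (k : ℝ) := by
    have h2 : (a : ℝ) = (b : ℝ) + ((p : ℝ) ^ n - 1) * k := by
      have : (a : ℤ) = b + ((p : ℤ) ^ n - 1) * k := by linarith
      exact_mod_cast this
    rw [h2]
    field_simp
  rw [e, G_add_int]

theorem avg (ε : ℝ) (hε : 0 < ε) : ∃ M : ℕ, ∃ ε' : ℝ, 0 < ε' ∧ ∀ p n L : ℕ, 2 ≤ p → 1 ≤ n →
    1 ≤ L → L + 1 ≤ p → (1 / 2 + 2 * ε) ≤ ε * (L : ℝ) → ∀ e : ℤ,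
    (∀ m : ℕ, 1 ≤ m → m ≤ M →
      ∏ x ∈ range n, ‖G L (((p : ℝ) ^ x * ((m : ℝ) * (e : ℝ))) / ((p : ℝ) ^ n - 1))‖
        ≤ ε' * (L : ℝ) ^ n) →
    ∃ z : ℤ, ¬ ((p : ℤ) ^ n - 1) ∣ z ∧ S p n z ≤ ((L : ℝ) - 1) * n / ((p : ℝ) - 1) ∧
      S p n (-(e * z)) ≤ (1 / 2 + 2 * ε) * n := by
  obtain ⟨M, q, hq0, hq⟩ := majorant (ε / 2) (by positivity)
  set Q : ℝ := ∑ m ∈ Icc (-(M : ℤ)) (M : ℤ), ‖q m‖ with hQ
  have hQ0 : 0 ≤ Q := Finset.sum_nonneg fun _ _ => norm_nonneg _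
  refine ⟨M, ε / (2 * (Q + 1)), by positivity, ?_⟩
  set ε' : ℝ := ε / (2 * (Q + 1)) with hε'
  have hε'0 : 0 < ε' := by rw [hε']; positivity
  have hQε' : Q * ε' ≤ ε / 2 := by
    rw [hε', ← mul_div_assoc, div_le_div_iff₀ (by positivity) (by norm_num)]
    nlinarith
  intro p n L hp hn hL hLp hLε e hprod
  have hN := N_pos p n hp hn
  have hNZ := NZ_pos p n hp hn
  have hLR : (1 : ℝ) ≤ L := by exact_mod_cast hL
  have hnR : (1 : ℝ) ≤ n := by exact_mod_cast hn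
  -- random digits
  set Ξ : Finset (Fin n → ℕ) := Fintype.piFinset (fun _ => range L) with hΞ
  have hcard : (Ξ.card : ℝ) = (L : ℝ) ^ n := by
    rw [hΞ, Fintype.card_piFinset]
    simp
  set Z : (Fin n → ℕ) → ℤ := fun ξ => ∑ x : Fin n, (ξ x : ℤ) * (p : ℤ) ^ (x : ℕ) with hZ
  -- claim A
  have claimA : ∀ i : ℕ, ∀ m : ℤ, m ≠ 0 → m.natAbs ≤ M →
      ‖∑ ξ ∈ Ξ, E ((m : ℝ) * ((((p : ℤ) ^ i * (-(e * Z ξ)) : ℤ) : ℝ) / ((p : ℝ) ^ n - 1)))‖ ≤
        ε' * (L : ℝ) ^ n := by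
    intro i m hm hmM
    have h1 : ∀ ξ : Fin n → ℕ,
        E ((m : ℝ) * ((((p : ℤ) ^ i * (-(e * Z ξ)) : ℤ) : ℝ) / ((p : ℝ) ^ n - 1))) =
        ∏ x : Fin n, E ((ξ x : ℝ) *
          (-(((p : ℤ) ^ (x : ℕ) * ((p : ℤ) ^ i * (m * e)) : ℤ) : ℝ) / ((p : ℝ) ^ n - 1))) := by
      intro ξ
      rw [← E_sum]
      congr 1
      simp only [hZ]
      push_cast
      rw [Finset.mul_sum, ← Finset.sum_neg_distrib, Finset.mul_sum, Finset.sum_div, Finset.mul_sum]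
      refine Finset.sum_congr rfl fun x _ => ?_
      ring
    have h2 : ∑ ξ ∈ Ξ, E ((m : ℝ) * ((((p : ℤ) ^ i * (-(e * Z ξ)) : ℤ) : ℝ) / ((p : ℝ) ^ n - 1))) =
        ∏ x : Fin n,
          G L (-(((p : ℤ) ^ (x : ℕ) * ((p : ℤ) ^ i * (m * e)) : ℤ) : ℝ) / ((p : ℝ) ^ n - 1)) := by
      simp only [h1]
      have := Finset.prod_univ_sum (fun _ : Fin n => range L)
        (fun (x : Fin n) (k : ℕ) => E ((k : ℝ) *
          (-(((p : ℤ) ^ (x : ℕ) * ((p : ℤ) ^ i * (m * e)) : ℤ) : ℝ) / ((p : ℝ) ^ n - 1))))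
      rw [hΞ, ← this]
      rfl
    rw [h2, norm_prod]
    have h3 : ∀ x : Fin n,
        ‖G L (-(((p : ℤ) ^ (x : ℕ) * ((p : ℤ) ^ i * (m * e)) : ℤ) : ℝ) / ((p : ℝ) ^ n - 1))‖ =
        ‖G L ((((p : ℤ) ^ (x : ℕ) * ((p : ℤ) ^ i * ((m.natAbs : ℤ) * e)) : ℤ) : ℝ) /
          ((p : ℝ) ^ n - 1))‖ := by
      intro x
      rcases Int.natAbs_eq m with hm' | hm'
      · have : ∀ t : ℤ, -((t : ℤ) : ℝ) / ((p : ℝ) ^ n - 1) = -((t : ℝ) / ((p : ℝ) ^ n - 1)) := by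
          intro t; ring
        rw [this, G_neg_norm, ← hm']
      · congr 2
        have : (m : ℤ) = -(m.natAbs : ℤ) := hm'
        conv_lhs => rw [this]
        push_cast
        ring
    simp only [h3]
    have h4 := Fin.prod_univ_eq_prod_range (fun x => ‖G L ((((p : ℤ) ^ x *
      ((p : ℤ) ^ i * ((m.natAbs : ℤ) * e)) : ℤ) : ℝ) / ((p : ℝ) ^ n - 1))‖) n
    rw [h4]
    have h5 := prod_shift p n (fun a => ‖G L ((a : ℝ) / ((p : ℝ) ^ n - 1))‖)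
      (fun a b hab => G_periodic p n L hp hn a b hab) i ((m.natAbs : ℤ) * e)
    rw [h5]
    have h6 := hprod m.natAbs (Int.natAbs_pos.2 hm) hmM
    refine le_trans (le_of_eq ?_) h6
    refine Finset.prod_congr rfl fun x _ => ?_
    congr 3
    simp only [Int.cast_mul, Int.cast_pow, Int.cast_natCast]
  -- claim B
  have claimB : ∀ i : ℕ,
      ∑ ξ ∈ Ξ, Int.fract ((((p : ℤ) ^ i * (-(e * Z ξ)) : ℤ) : ℝ) / ((p : ℝ) ^ n - 1)) ≤
        (1 / 2 + ε) * (L : ℝ) ^ n := by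
    intro i
    set w : (Fin n → ℕ) → ℝ := fun ξ =>
      (((p : ℤ) ^ i * (-(e * Z ξ)) : ℤ) : ℝ) / ((p : ℝ) ^ n - 1) with hw
    have h1 : ∑ ξ ∈ Ξ, Int.fract (w ξ) ≤
        (∑ m ∈ Icc (-(M : ℤ)) (M : ℤ), q m * ∑ ξ ∈ Ξ, E ((m : ℝ) * w ξ)).re := by
      have e1 : ∑ m ∈ Icc (-(M : ℤ)) (M : ℤ), q m * ∑ ξ ∈ Ξ, E ((m : ℝ) * w ξ) =
          ∑ ξ ∈ Ξ, ∑ m ∈ Icc (-(M : ℤ)) (M : ℤ), q m * E ((m : ℝ) * w ξ) := by
        simp only [Finset.mul_sum]
        rw [Finset.sum_comm]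
      rw [e1, Complex.re_sum]
      refine Finset.sum_le_sum fun ξ _ => ?_
      exact hq (w ξ)
    refine h1.trans ?_
    have h0mem : (0 : ℤ) ∈ Icc (-(M : ℤ)) (M : ℤ) := by
      rw [Finset.mem_Icc]; constructor <;> omega
    rw [← Finset.add_sum_erase _ _ h0mem, Complex.add_re]
    have h2 : (q 0 * ∑ ξ ∈ Ξ, E (((0 : ℤ) : ℝ) * w ξ)).re ≤ (1 / 2 + ε / 2) * (L : ℝ) ^ n := by
      have : ∑ ξ ∈ Ξ, E (((0 : ℤ) : ℝ) * w ξ) = (((L : ℝ) ^ n : ℝ) : ℂ) := by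
        simp only [Int.cast_zero, zero_mul, E_zero, Finset.sum_const, nsmul_eq_mul, mul_one]
        rw [← hcard]
        simp
      rw [this, Complex.re_mul_ofReal]
      gcongr
    have h3 : (∑ m ∈ (Icc (-(M : ℤ)) (M : ℤ)).erase 0, q m * ∑ ξ ∈ Ξ, E ((m : ℝ) * w ξ)).re ≤
        Q * (ε' * (L : ℝ) ^ n) := by
      refine (Complex.re_le_norm _).trans ?_
      refine (norm_sum_le _ _).trans ?_
      rw [hQ, Finset.sum_mul]
      calc ∑ m ∈ (Icc (-(M : ℤ)) (M : ℤ)).erase 0, ‖q m * ∑ ξ ∈ Ξ, E ((m : ℝ) * w ξ)‖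
          ≤ ∑ m ∈ (Icc (-(M : ℤ)) (M : ℤ)).erase 0, ‖q m‖ * (ε' * (L : ℝ) ^ n) := by
            refine Finset.sum_le_sum fun m hm => ?_
            rw [Finset.mem_erase, Finset.mem_Icc] at hm
            rw [norm_mul]
            apply mul_le_mul_of_nonneg_left _ (norm_nonneg _)
            exact claimA i m hm.1 (by omega)
        _ ≤ ∑ m ∈ Icc (-(M : ℤ)) (M : ℤ), ‖q m‖ * (ε' * (L : ℝ) ^ n) := by
            apply Finset.sum_le_sum_of_subset_of_nonneg (Finset.erase_subset _ _)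
            intro m _ _
            positivity
    have h4 : Q * (ε' * (L : ℝ) ^ n) ≤ ε / 2 * (L : ℝ) ^ n := by
      rw [← mul_assoc]
      gcongr
    linarith
  -- claim C
  have claimC : ∑ ξ ∈ Ξ, S p n (-(e * Z ξ)) ≤ n * ((1 / 2 + ε) * (L : ℝ) ^ n) := by
    simp only [S_eq]
    rw [Finset.sum_comm]
    calc _ ≤ ∑ i ∈ range n, (1 / 2 + ε) * (L : ℝ) ^ n := Finset.sum_le_sum fun i _ => claimB i
      _ = _ := by simp
  have h0Ξ : (fun _ => 0 : Fin n → ℕ) ∈ Ξ := by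
    rw [hΞ, Fintype.mem_piFinset]
    intro x
    exact Finset.mem_range.2 (by omega)
  -- find a good nonzero digit vector
  obtain ⟨ξ, hξ, hξ0, hξS⟩ : ∃ ξ ∈ Ξ, ξ ≠ (fun _ => 0) ∧
      S p n (-(e * Z ξ)) ≤ (1 / 2 + 2 * ε) * n := by
    by_contra hcon
    push_neg at hcon
    have h1 : ∑ ξ ∈ Ξ.erase (fun _ => 0), ((1 / 2 + 2 * ε) * n) ≤ ∑ ξ ∈ Ξ, S p n (-(e * Z ξ)) := by
      calc ∑ ξ ∈ Ξ.erase (fun _ => 0), ((1 / 2 + 2 * ε) * n)
          ≤ ∑ ξ ∈ Ξ.erase (fun _ => 0), S p n (-(e * Z ξ)) := by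
            refine Finset.sum_le_sum fun ξ hξ => ?_
            rw [Finset.mem_erase] at hξ
            exact (hcon ξ hξ.2 hξ.1).le
        _ ≤ ∑ ξ ∈ Ξ, S p n (-(e * Z ξ)) := by
            apply Finset.sum_le_sum_of_subset_of_nonneg (Finset.erase_subset _ _)
            intro ξ _ _
            exact S_nonneg _ _ _
    rw [Finset.sum_const, nsmul_eq_mul, Finset.card_erase_of_mem h0Ξ] at h1
    have h2 : ((Ξ.card - 1 : ℕ) : ℝ) = (L : ℝ) ^ n - 1 := by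
      rw [Nat.cast_sub (Finset.card_pos.2 ⟨_, h0Ξ⟩), hcard]
      simp
    rw [h2] at h1
    have h3 : (L : ℝ) ≤ (L : ℝ) ^ n := by
      calc (L : ℝ) = (L : ℝ) ^ 1 := (pow_one _).symm
        _ ≤ (L : ℝ) ^ n := pow_le_pow_right₀ hLR hn
    -- (L^n - 1)(1/2+2ε) n ≤ n (1/2+ε) L^n  ⟹ ε L^n ≤ 1/2 + 2ε ; equality is excluded by strictness below
    have h4 : ((L : ℝ) ^ n - 1) * (1 / 2 + 2 * ε) ≤ (1 / 2 + ε) * (L : ℝ) ^ n := by
      have h5 := h1.trans claimC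
      have h6 : n * (((L : ℝ) ^ n - 1) * (1 / 2 + 2 * ε)) ≤ n * ((1 / 2 + ε) * (L : ℝ) ^ n) := by
        linarith
      exact le_of_mul_le_mul_left h6 (by linarith)
    have h5 : ε * (L : ℝ) ^ n ≤ 1 / 2 + 2 * ε := by linarith
    have h6 : ε * (L : ℝ) ≤ ε * (L : ℝ) ^ n := by gcongr
    -- so equality throughout: L^n = L and the sum is attained; use strictness of one term
    have h7 : (L : ℝ) ^ n * ε = 1 / 2 + 2 * ε := by linarith
    have hLgt : (1 : ℝ) < L := by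
      by_contra hle
      push_neg at hle
      have : (L : ℝ) = 1 := le_antisymm hle hLR
      rw [this] at hLε
      linarith
    -- there is a nonzero vector
    have hL2 : 1 < L := by exact_mod_cast hLgt
    set ξ₁ : Fin n → ℕ := fun _ => 1 with hξ₁
    have hξ₁Ξ : ξ₁ ∈ Ξ.erase (fun _ => 0) := by
      rw [Finset.mem_erase, hΞ, Fintype.mem_piFinset]
      refine ⟨?_, fun x => Finset.mem_range.2 hL2⟩
      intro h
      have := congrFun h ⟨0, hn⟩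
      simp [hξ₁] at this
    have h8 : ∑ ξ ∈ Ξ.erase (fun _ => 0), ((1 / 2 + 2 * ε) * n) < ∑ ξ ∈ Ξ, S p n (-(e * Z ξ)) := by
      calc ∑ ξ ∈ Ξ.erase (fun _ => 0), ((1 / 2 + 2 * ε) * n)
          < ∑ ξ ∈ Ξ.erase (fun _ => 0), S p n (-(e * Z ξ)) := by
            refine Finset.sum_lt_sum (fun ξ hξ => ?_) ⟨ξ₁, hξ₁Ξ, ?_⟩
            · rw [Finset.mem_erase] at hξ
              exact (hcon ξ hξ.2 hξ.1).le
            · rw [Finset.mem_erase] at hξ₁Ξ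
              exact hcon ξ₁ hξ₁Ξ.2 hξ₁Ξ.1
        _ ≤ ∑ ξ ∈ Ξ, S p n (-(e * Z ξ)) := by
            apply Finset.sum_le_sum_of_subset_of_nonneg (Finset.erase_subset _ _)
            intro ξ _ _
            exact S_nonneg _ _ _
    rw [Finset.sum_const, nsmul_eq_mul, Finset.card_erase_of_mem h0Ξ, h2] at h8
    have h9 := lt_of_lt_of_le h8 claimC
    have h10 : n * (((L : ℝ) ^ n - 1) * (1 / 2 + 2 * ε)) < n * ((1 / 2 + ε) * (L : ℝ) ^ n) := by
      linarith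
    have h11 := lt_of_mul_lt_mul_left h10 (by linarith)
    linarith
  -- properties of ξ
  have hξL : ∀ x, ξ x ≤ L - 1 := by
    intro x
    rw [hΞ, Fintype.mem_piFinset] at hξ
    have := Finset.mem_range.1 (hξ x)
    omega
  set a : ℕ → ℕ := fun i => if h : i < n then ξ ⟨i, h⟩ else 0 with ha
  have hZa : Z ξ = ∑ i ∈ range n, (a i : ℤ) * (p : ℤ) ^ i := by
    simp only [hZ]
    rw [← Fin.sum_univ_eq_sum_range (fun i => (a i : ℤ) * (p : ℤ) ^ i)]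
    refine Finset.sum_congr rfl fun x _ => ?_
    simp [ha]
  have haL : ∀ i, a i ≤ L - 1 := by
    intro i
    simp only [ha]
    split_ifs with h
    · exact hξL _
    · omega
  refine ⟨Z ξ, ?_, ?_, hξS⟩
  · -- 0 < Z < N
    have hpos : 0 < Z ξ := by
      obtain ⟨x, hx⟩ : ∃ x, ξ x ≠ 0 := by
        by_contra hcon
        push_neg at hcon
        exact hξ0 (funext hcon)
      simp only [hZ]
      apply Finset.sum_pos' (fun i _ => by positivity)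
      refine ⟨x, Finset.mem_univ _, ?_⟩
      have : (0 : ℤ) < (ξ x : ℤ) := by exact_mod_cast Nat.pos_of_ne_zero hx
      have : (0 : ℤ) < (p : ℤ) := by exact_mod_cast (by omega : 0 < p)
      positivity
    have hlt : Z ξ < (p : ℤ) ^ n - 1 := by
      have hg : (∑ i ∈ range n, (p : ℤ) ^ i) * ((p : ℤ) - 1) = (p : ℤ) ^ n - 1 := geom_sum_mul (p : ℤ) n
      rw [hZa, ← hg, Finset.sum_mul]
      apply Finset.sum_lt_sum_of_nonempty ⟨0, Finset.mem_range.2 hn⟩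
      intro i _
      have h1 : (a i : ℤ) < (p : ℤ) - 1 := by
        have : a i ≤ L - 1 := haL i
        omega
      have h2 : (0 : ℤ) < (p : ℤ) ^ i := by
        have : (0 : ℤ) < (p : ℤ) := by exact_mod_cast (by omega : 0 < p)
        positivity
      nlinarith
    intro hdv
    have := Int.le_of_dvd hpos hdv
    omega
  · rw [hZa]
    refine (S_sum_le p n hp hn a n).trans ?_
    have hp1 : (0 : ℝ) < (p : ℝ) - 1 := by
      have : (2 : ℝ) ≤ (p : ℝ) := by exact_mod_cast hp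
      linarith
    apply div_le_div_of_nonneg_right _ hp1.le
    calc ∑ i ∈ range n, (a i : ℝ) ≤ ∑ i ∈ range n, ((L : ℝ) - 1) := by
          refine Finset.sum_le_sum fun i _ => ?_
          have : (a i : ℝ) ≤ ((L - 1 : ℕ) : ℝ) := by exact_mod_cast haL i
          rwa [Nat.cast_sub hL, Nat.cast_one] at this
      _ = ((L : ℝ) - 1) * n := by
          rw [Finset.sum_const, Finset.card_range, nsmul_eq_mul]
          ring

end Pool.Agent.WVal
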