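import Mathlib

/-!
# MP_830da8_nt (valuation of Weil sums of binomials): common definitions

`S p n y = ∑_{i<n} {p^i y / (p^n - 1)}` (so `(p-1) * S p n y` is the base-`p` digit sum of the residue
of `y` modulo `p^n - 1`), and `G L β = ∑_{k<L} e(k β)`.
-/

set_option autoImplicit false

namespace Pool.Agent.WVal

open Finset

/-- `∑_{i<n} {p^i y / (p^n - 1)}`. -/
noncomputable def S (p n : ℕ) (y : ℤ) : ℝ :=
  ∑ i ∈ range n, Int.fract ((p : ℝ) ^ i * (y : ℝ) / ((p : ℝ) ^ n - 1))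

/-- `∑_{k<L} e(k β)`. -/
noncomputable def G (L : ℕ) (β : ℝ) : ℂ :=
  ∑ k ∈ range L, Complex.exp (2 * (Real.pi : ℂ) * Complex.I * (((k : ℝ) * β : ℝ) : ℂ))

end Pool.Agent.WVal
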