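import Pool.Agent.WVal.Basic

/-!
Lifting of digit sums from `p^k` to `p^(2k)`.
-/

set_option autoImplicit false

namespace Pool.Agent.WVal

open Finset

theorem S_lift (p k : ℕ) (hp : 2 ≤ p) (hk : 1 ≤ k) (z : ℤ) :
    S p (2 * k) (z * ((p : ℤ) ^ k + 1)) = 2 * S p k z := by
  have hN := N_pos p k hp hk
  have hN2 := N_pos p (2 * k) hp (by omega)
  have h1 : ∀ i : ℕ, (p : ℝ) ^ i * ((z * ((p : ℤ) ^ k + 1) : ℤ) : ℝ) / ((p : ℝ) ^ (2 * k) - 1) =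
      (p : ℝ) ^ i * (z : ℝ) / ((p : ℝ) ^ k - 1) := by
    intro i
    rw [div_eq_div_iff hN2.ne' hN.ne']
    push_cast
    ring
  unfold S
  simp only [h1]
  have e : 2 * k = k + k := by ring
  rw [e, Finset.sum_range_add]
  have h2 : ∀ i : ℕ, Int.fract ((p : ℝ) ^ (k + i) * (z : ℝ) / ((p : ℝ) ^ k - 1)) =
      Int.fract ((p : ℝ) ^ i * (z : ℝ) / ((p : ℝ) ^ k - 1)) := by
    intro i
    have : (p : ℝ) ^ (k + i) * (z : ℝ) / ((p : ℝ) ^ k - 1) =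
        (p : ℝ) ^ i * (z : ℝ) / ((p : ℝ) ^ k - 1) + (((p : ℤ) ^ i * z : ℤ) : ℝ) := by
      push_cast
      rw [pow_add]
      field_simp
      ring
    rw [this, Int.fract_add_intCast]
  simp only [h2]
  ring

theorem lift_dvd (p k : ℕ) (hp : 2 ≤ p) (z : ℤ)
    (h : ((p : ℤ) ^ (2 * k) - 1) ∣ z * ((p : ℤ) ^ k + 1)) : ((p : ℤ) ^ k - 1) ∣ z := by
  have e : (p : ℤ) ^ (2 * k) - 1 = ((p : ℤ) ^ k - 1) * ((p : ℤ) ^ k + 1) := by ring
  rw [e] at h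
  have hne : ((p : ℤ) ^ k + 1) ≠ 0 := by
    have : (0 : ℤ) < (p : ℤ) ^ k := by
      have : (0 : ℤ) < p := by exact_mod_cast (by omega : 0 < p)
      positivity
    omega
  exact (mul_dvd_mul_iff_right hne).1 h

end Pool.Agent.WVal
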