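import Pool.Agent.WVal.GaussR

/-!
Niho exponents: a Weil sum of value `-Q` over the field with `Q²` elements.

Proof. `K = {u : F | u^Q = u}` (a subfield with `Q` elements), `T x = x + x^Q` (additive, `T (u x) = u T x` for
`u ∈ K`, values in `K`, `|ker T| = Q`: `T` is nonzero since a nonzero polynomial of degree `Q < Q²`
has a non-root, so it is surjective onto `K` and `|F| = Q²`; or: `T(x) = Tr_{F/K}`), `ψ x = ζ^(Tr x).val` the
additive character `psi F hζ` (nontrivial). `u^d = u` for `u ∈ K` (`d ≡ 1 mod Q-1`). `W(a) = ∑_x ψ(x^d - a x)`,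
`M(a) = #{x : T (x^d - a x) = 0}`.
(1) For `B : F`, `∑_{u ∈ K} ψ(u B) = Q` if `T B = 0` and `0` otherwise: `u ↦ ψ(uB)` is an additive character of `K`;
  it is trivial iff `T B = 0` (`ψ(x^Q) = ψ(x)` by `psi_frob`, so if `T B = 0`, i.e. `B^Q = -B`: `ψ(uB) = ψ((uB)^Q) =
  ψ(-uB)`, which gives only `ψ(uB)^2 = 1`; BETTER: the `B` with trivial character form the kernel of
  `F → Hom(K, R^×)`, `B ↦ (u ↦ ψ(uB))`; use `Tr_{F/F_p}(uB) = ∑_{i<2k} (uB)^(p^i) = ∑_{i<k} (u T(B))^(p^i)`
  (`FiniteField.algebraMap_trace_eq_sum_pow`), which vanishes for all `u ∈ K` iff `T B = 0` (a nonzero polynomial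
  of degree `p^(k-1) < Q` in `u`)).
(2) for `u ∈ K`, `u ≠ 0`: `∑_x ψ(u(x^d - a x)) = W(a)` (substitute `u x`), for `u = 0` it is `q = Q²`. Sum over `u ∈ K`:
  `(Q-1) W(a) + Q² = Q M(a)`. So `M(a) = 1` implies `W(a) = -Q` (cancel `Q - 1 ≠ 0` in `R`: `(Q-1 : R) ≠ 0` since
  `ρ(Q-1) = -1`, this is why `ρ` is in the statement).
(3) Suppose `M(a) ≠ 1` for all `a ≠ 0`. `M(a) = 1 + (Q-1) N(a)` (the nonzero `x` with `T(x^d - a x) = 0` are stable
  under `K^×`, free action) with `N(a) ≥ 1` for `a ≠ 0`, `N(0) = 1` (`x ↦ x^d` bijective, `|ker T| = Q`).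
  `∑_a M(a) = Q² + (Q²-1) Q`: for `x ≠ 0` the equation `T(a x) = T(x^d)` has `Q` solutions `a`.
  `∑_a M(a)² = 2Q⁴ - Q²`: pairs `(0,0)`: `Q²`; `(x,0), (0,x)`: `2(Q²-1)Q`; `x' ∈ K^× x`: `(Q²-1)(Q-1)Q`; `x' ∉ K x`:
  `(Q²-1)(Q²-Q)`, one `a` each (`a ↦ (T(ax), T(ax'))` is injective on `F`: kernel: if `a ≠ 0`, `x'/x = ax'/(ax)` is a
  quotient of two elements of the `K`-line `ker T`, so in `K`). Hence `∑_a N = Q(Q+1)`, `∑_a N² = 2Q(Q+1)`, and with
  `N(0) = 1`: `∑_{a≠0} (N-1) = Q`, `∑_{a≠0} (N-1)² = Q²`, `N - 1 ≥ 0`; so some `N(a) - 1 ≥ Q`, `a ≠ 0`, `M(a) ≥ Q²`, i.e.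
  `T(x^d - a x) = 0` for all `x ∈ F`: `x^d + x^(dQ) = a x + a^Q x^Q` for all `x`. The monoid homs `x ↦ x^e` on `Fˣ`
  are determined by `e mod q-1` (cyclic group) and linearly independent (`linearIndependent_monoidHom`);
  `1 ≢ Q`, `d ≢ 1` and `d Q ≢ 1` (else `d ≡ Q`) mod `q-1`: the coefficient `-a` of `x` cannot cancel. Contradiction.
-/

set_option autoImplicit false

namespace Pool.Agent.WVal

open Finset GaussAux

namespace NihoAux

section

variable {p : ℕ} [Fact p.Prime] {F : Type} [Field F] [Fintype F] [Algebra (ZMod p) F]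

/-- the subfield with `Q` elements, as a finite set -/
noncomputable def KK (F : Type) [Field F] [Fintype F] (Q : ℕ) : Finset F := by
  classical
  exact Finset.univ.filter (fun u => u ^ Q = u)

omit [Algebra (ZMod p) F] in
theorem mem_KK {Q : ℕ} {u : F} : u ∈ KK F Q ↔ u ^ Q = u := by
  classical
  unfold KK
  rw [Finset.mem_filter]
  exact and_iff_right (Finset.mem_univ _)

theorem charP_F : CharP F p := charP_of_injective_algebraMap (algebraMap (ZMod p) F).injective p

theorem add_powQ (k : ℕ) (x y : F) : (x + y) ^ p ^ k = x ^ p ^ k + y ^ p ^ k := by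
  have : CharP F p := charP_F
  exact add_pow_char_pow x y p k

theorem KK_add {k : ℕ} {u v : F} (hu : u ∈ KK F (p ^ k)) (hv : v ∈ KK F (p ^ k)) :
    u + v ∈ KK F (p ^ k) := by
  rw [mem_KK] at *
  rw [add_powQ, hu, hv]

theorem KK_neg {k : ℕ} {u : F} (hu : u ∈ KK F (p ^ k)) : -u ∈ KK F (p ^ k) := by
  rw [mem_KK] at *
  have h := add_powQ (p := p) k u (-u)
  have h0 : (p ^ k) ≠ 0 := pow_ne_zero _ (Fact.out : p.Prime).ne_zero
  rw [add_neg_cancel, zero_pow h0, hu] at h
  linear_combination -h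

theorem powQQ {k : ℕ} (hF : Fintype.card F = (p ^ k) ^ 2) (x : F) : (x ^ p ^ k) ^ p ^ k = x := by
  rw [← pow_mul, ← pow_two, ← hF]
  exact FiniteField.pow_card x

theorem T_mem {k : ℕ} (hF : Fintype.card F = (p ^ k) ^ 2) (x : F) :
    x + x ^ p ^ k ∈ KK F (p ^ k) := by
  rw [mem_KK, add_powQ, powQQ hF]
  ring

theorem card_root_le (P : Polynomial F) (hP : P ≠ 0) (s : Finset F) (hs : ∀ x ∈ s, P.eval x = 0) :
    s.card ≤ P.natDegree := by
  by_contra h
  push Not at h
  exact hP (Polynomial.eq_zero_of_natDegree_lt_card_of_eval_eq_zero' P s hs h)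

theorem card_KK {k : ℕ} (hk : 1 ≤ k) (hF : Fintype.card F = (p ^ k) ^ 2) :
    (KK F (p ^ k)).card = p ^ k := by
  classical
  have hp : p.Prime := Fact.out
  have hQ : 1 < p ^ k := Nat.one_lt_pow (by omega) hp.one_lt
  apply le_antisymm
  · have h1 : (Polynomial.X ^ (p ^ k) - Polynomial.X : Polynomial F) ≠ 0 :=
      FiniteField.X_pow_card_sub_X_ne_zero F hQ
    have h2 := card_root_le (Polynomial.X ^ (p ^ k) - Polynomial.X : Polynomial F) h1
      (KK F (p ^ k)) (fun x hx => by
        rw [mem_KK] at hx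
        simp [hx])
    rwa [FiniteField.X_pow_card_sub_X_natDegree_eq F hQ] at h2
  · have h1 : (Finset.univ : Finset F).card ≤
        p ^ k * ((Finset.univ : Finset F).image (fun x : F => x + x ^ p ^ k)).card := by
      refine Finset.card_le_mul_card_image _ _ fun a _ => ?_
      have h2 : (Polynomial.X ^ (p ^ k) + (Polynomial.X - Polynomial.C a) : Polynomial F).natDegree
          = p ^ k := by
        rw [Polynomial.natDegree_add_eq_left_of_natDegree_lt]
        · exact Polynomial.natDegree_X_pow _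
        · rw [Polynomial.natDegree_X_sub_C, Polynomial.natDegree_X_pow]
          exact hQ
      have h3 : (Polynomial.X ^ (p ^ k) + (Polynomial.X - Polynomial.C a) : Polynomial F) ≠ 0 := by
        intro h
        rw [h, Polynomial.natDegree_zero] at h2
        omega
      have h4 := card_root_le _ h3 (Finset.univ.filter (fun x : F => x + x ^ p ^ k = a))
        (fun x hx => by
          rw [Finset.mem_filter] at hx
          simp only [Polynomial.eval_add, Polynomial.eval_pow, Polynomial.eval_X,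
            Polynomial.eval_sub, Polynomial.eval_C]
          linear_combination hx.2)
      rwa [h2] at h4
    have h2 : ((Finset.univ : Finset F).image (fun x : F => x + x ^ p ^ k)).card ≤
        (KK F (p ^ k)).card := by
      refine Finset.card_le_card fun y hy => ?_
      rw [Finset.mem_image] at hy
      obtain ⟨x, _, rfl⟩ := hy
      exact T_mem hF x
    rw [Finset.card_univ, hF] at h1
    have h3 : (p ^ k) ^ 2 ≤ p ^ k * (KK F (p ^ k)).card := h1.trans (Nat.mul_le_mul_left _ h2)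
    rw [pow_two] at h3
    exact Nat.le_of_mul_le_mul_left h3 (by omega)

theorem finrank_eq {k : ℕ} (hF : Fintype.card F = (p ^ k) ^ 2) :
    Module.finrank (ZMod p) F = k + k := by
  have hp : p.Prime := Fact.out
  have hcard : Fintype.card F = p ^ Module.finrank (ZMod p) F := by
    rw [Module.card_eq_pow_finrank (K := ZMod p) (V := F), ZMod.card]
  rw [hF, ← pow_mul] at hcard
  have := Nat.pow_right_injective hp.two_le hcard
  omega

theorem tr_eq {k : ℕ} (hF : Fintype.card F = (p ^ k) ^ 2) (y : F) :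
    algebraMap (ZMod p) F (Algebra.trace (ZMod p) F y) =
      ∑ i ∈ range k, (y + y ^ p ^ k) ^ p ^ i := by
  rw [FiniteField.algebraMap_trace_eq_sum_pow, Nat.card_zmod, finrank_eq hF,
    Finset.sum_range_add, ← Finset.sum_add_distrib]
  refine Finset.sum_congr rfl fun i _ => ?_
  rw [add_powQ, ← pow_mul, ← pow_add]

end

section

variable {p : ℕ} [Fact p.Prime] {F : Type} [Field F] [Fintype F] [Algebra (ZMod p) F]
    {R : Type} [CommRing R] [IsDomain R]

theorem psi_ne_one {ζ : R} (hζ : ζ ^ p = 1) (hζ1 : ζ ≠ 1) {y : F}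
    (hy : Algebra.trace (ZMod p) F y ≠ 0) : psi F hζ y ≠ 1 := by
  rw [psi_apply]
  intro h
  have h1 : orderOf ζ = p := orderOf_eq_prime hζ hζ1
  have h2 := orderOf_dvd_of_pow_eq_one h
  rw [h1] at h2
  have h3 : (Algebra.trace (ZMod p) F y).val < p := ZMod.val_lt _
  have h4 := Nat.eq_zero_of_dvd_of_lt h2 h3
  exact hy ((ZMod.val_eq_zero _).1 h4)

/-- the sum over the subfield -/
theorem sum_KK {ζ : R} (hζ : ζ ^ p = 1) (hζ1 : ζ ≠ 1) {k : ℕ} (hk : 1 ≤ k)
    (hF : Fintype.card F = (p ^ k) ^ 2) (B : F) [Decidable (B + B ^ p ^ k = 0)] :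
    ∑ u ∈ KK F (p ^ k), psi F hζ (u * B) = if B + B ^ p ^ k = 0 then ((p ^ k : ℕ) : R) else 0 := by
  have hp : p.Prime := Fact.out
  have hT : ∀ u ∈ KK F (p ^ k), u * B + (u * B) ^ p ^ k = u * (B + B ^ p ^ k) := by
    intro u hu
    rw [mem_KK] at hu
    rw [mul_pow, hu]
    ring
  split_ifs with hB
  · have h1 : ∀ u ∈ KK F (p ^ k), psi F hζ (u * B) = 1 := by
      intro u hu
      have h2 := tr_eq hF (u * B)
      rw [hT u hu, hB, mul_zero] at h2
      have h3 : ∑ i ∈ range k, (0 : F) ^ p ^ i = 0 := by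
        refine Finset.sum_eq_zero fun i _ => ?_
        exact zero_pow (pow_ne_zero _ hp.ne_zero)
      rw [h3] at h2
      have h4 : Algebra.trace (ZMod p) F (u * B) = 0 :=
        (map_eq_zero_iff _ (algebraMap (ZMod p) F).injective).1 h2
      rw [psi_apply, h4, ZMod.val_zero, pow_zero]
    rw [Finset.sum_congr rfl h1, Finset.sum_const, card_KK hk hF, nsmul_eq_mul, mul_one]
  · set t := B + B ^ p ^ k with ht
    have h1 : ∃ u ∈ KK F (p ^ k), Algebra.trace (ZMod p) F (u * B) ≠ 0 := by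
      by_contra hcon
      push Not at hcon
      set L : Polynomial F := ∑ i ∈ range k, Polynomial.C (t ^ p ^ i) * Polynomial.X ^ p ^ i with hL
      have h2 : L = 0 := by
        refine Polynomial.eq_zero_of_natDegree_lt_card_of_eval_eq_zero' L (KK F (p ^ k)) ?_ ?_
        · intro u hu
          have h3 := tr_eq hF (u * B)
          rw [hT u hu, hcon u hu, map_zero] at h3
          rw [hL, Polynomial.eval_finsetSum, h3]
          refine Finset.sum_congr rfl fun i _ => ?_
          rw [Polynomial.eval_mul, Polynomial.eval_C, Polynomial.eval_pow, Polynomial.eval_X,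
            mul_pow, mul_comm]
        · rw [card_KK hk hF]
          have h3 : L.natDegree ≤ p ^ (k - 1) := by
            refine Polynomial.natDegree_sum_le_of_forall_le _ _ fun i hi => ?_
            rw [Finset.mem_range] at hi
            refine (Polynomial.natDegree_C_mul_X_pow_le _ _).trans ?_
            exact Nat.pow_le_pow_right hp.pos (by omega)
          refine h3.trans_lt (Nat.pow_lt_pow_right hp.one_lt (by omega))
      have h3 : L.coeff 1 = t := by
        rw [hL, Polynomial.finsetSum_coeff, Finset.sum_eq_single 0]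
        · simp
        · intro i _ hi
          rw [Polynomial.coeff_C_mul_X_pow, if_neg]
          intro h
          have : 1 < p ^ i := Nat.one_lt_pow hi hp.one_lt
          omega
        · intro h
          exact absurd (Finset.mem_range.2 (by omega)) h
      rw [h2, Polynomial.coeff_zero] at h3
      exact hB h3.symm
    obtain ⟨v, hv, hv'⟩ := h1
    have h2 := psi_ne_one hζ hζ1 hv'
    have h3 : ∑ u ∈ KK F (p ^ k), psi F hζ (u * B) =
        psi F hζ (v * B) * ∑ u ∈ KK F (p ^ k), psi F hζ (u * B) := by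
      rw [Finset.mul_sum]
      symm
      refine Finset.sum_nbij' (fun u => v + u) (fun u => -v + u) ?_ ?_ ?_ ?_ ?_
      · intro u hu
        exact KK_add hv hu
      · intro u hu
        exact KK_add (KK_neg hv) hu
      · intro u _
        ring
      · intro u _
        ring
      · intro u _
        rw [add_mul, AddChar.map_add_eq_mul]
    have h4 : (1 - psi F hζ (v * B)) * ∑ u ∈ KK F (p ^ k), psi F hζ (u * B) = 0 := by
      linear_combination h3
    rcases mul_eq_zero.1 h4 with h5 | h5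
    · exact absurd (sub_eq_zero.1 h5).symm h2
    · exact h5

theorem charZero_R (ρ : R →+* F) {ζ : R} (hζ : ζ ^ p = 1) (hζ1 : ζ ≠ 1) : CharZero R := by
  have hp : p.Prime := Fact.out
  have : CharP F p := charP_F
  obtain ⟨r, hr⟩ := CharP.exists R
  rcases CharP.char_is_prime_or_zero R r with h | h
  · have h1 : ((r : ℕ) : F) = 0 := by
      have h2 := congrArg ρ (CharP.cast_eq_zero R r)
      rwa [map_natCast, map_zero] at h2
    have h2 : p ∣ r := (CharP.cast_eq_zero_iff F p r).1 h1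
    have h3 : p = r := (Nat.prime_dvd_prime_iff_eq hp h).1 h2
    subst h3
    have h4 : (ζ - 1) ^ p = 0 := by
      rw [sub_pow_char, hζ, one_pow, sub_self]
    exact absurd (sub_eq_zero.1 (pow_eq_zero_iff hp.ne_zero |>.1 h4)) hζ1
  · subst h
    exact CharP.charP_to_charZero R

/-- the Weil sum -/
noncomputable def WW {ζ : R} (hζ : ζ ^ p = 1) (d : ℕ) (a : F) : R :=
  ∑ x : F, psi F hζ (x ^ d - a * x)

/-- the set of solutions -/
noncomputable def SS (F : Type) [Field F] [Fintype F] (Q d : ℕ) (a : F) : Finset F := by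
  classical
  exact Finset.univ.filter (fun x : F => (x ^ d - a * x) + (x ^ d - a * x) ^ Q = 0)

omit [Algebra (ZMod p) F] in
theorem mem_SS {Q d : ℕ} {a x : F} :
    x ∈ SS F Q d a ↔ (x ^ d - a * x) + (x ^ d - a * x) ^ Q = 0 := by
  classical
  unfold SS
  rw [Finset.mem_filter]
  exact and_iff_right (Finset.mem_univ _)

/-- the number of solutions -/
noncomputable def MM (F : Type) [Field F] [Fintype F] (Q d : ℕ) (a : F) : ℕ := (SS F Q d a).card

theorem pow_mod' {k : ℕ} {d : ℕ} (h1 : d ≡ 1 [MOD p ^ k - 1]) (hd0 : d ≠ 0) {u : F}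
    (hu : u ∈ KK F (p ^ k)) : u ^ d = u := by
  have hp : p.Prime := Fact.out
  by_cases h0 : u = 0
  · rw [h0, zero_pow hd0]
  · rw [mem_KK] at hu
    have h2 : u ^ (p ^ k - 1) = 1 := by
      have h3 : u ^ (p ^ k - 1) * u = 1 * u := by
        rw [← pow_succ, one_mul]
        have : p ^ k - 1 + 1 = p ^ k := Nat.sub_add_cancel (Nat.one_le_pow _ _ hp.pos)
        rw [this, hu]
      exact mul_right_cancel₀ h0 h3
    have h3 := pow_eq_pow_of_modEq h1 h2
    rw [h3, pow_one]

/-- the relation between the Weil sums and the numbers of solutions -/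
theorem main_rel {ζ : R} (hζ : ζ ^ p = 1) (hζ1 : ζ ≠ 1) {k : ℕ} (hk : 1 ≤ k)
    (hF : Fintype.card F = (p ^ k) ^ 2) {d : ℕ} (h1 : d ≡ 1 [MOD p ^ k - 1]) (hd0 : d ≠ 0) (a : F) :
    (((p ^ k : ℕ) : R) - 1) * WW hζ d a + ((p ^ k : ℕ) : R) ^ 2 =
      ((p ^ k : ℕ) : R) * (MM F (p ^ k) d a : R) := by
  classical
  have hp : p.Prime := Fact.out
  have hQ : 1 < p ^ k := Nat.one_lt_pow (by omega) hp.one_lt
  have e1 : ∑ u ∈ KK F (p ^ k), ∑ x : F, psi F hζ (u * (x ^ d - a * x)) =
      ((p ^ k : ℕ) : R) * (MM F (p ^ k) d a : R) := by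
    rw [Finset.sum_comm]
    have e2 : ∀ x : F, ∑ u ∈ KK F (p ^ k), psi F hζ (u * (x ^ d - a * x)) =
        if (x ^ d - a * x) + (x ^ d - a * x) ^ p ^ k = 0 then ((p ^ k : ℕ) : R) else 0 := fun x =>
      sum_KK hζ hζ1 hk hF _
    have e3 : ∑ x ∈ SS F (p ^ k) d a, ∑ u ∈ KK F (p ^ k), psi F hζ (u * (x ^ d - a * x)) =
        ((p ^ k : ℕ) : R) * (MM F (p ^ k) d a : R) := by
      rw [Finset.sum_congr rfl fun x hx => (e2 x).trans (if_pos (mem_SS.1 hx)), Finset.sum_const,
        nsmul_eq_mul, mul_comm]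
      rfl
    rw [← e3]
    symm
    refine Finset.sum_subset (Finset.subset_univ _) fun x _ hx => ?_
    rw [e2 x, if_neg fun h => hx (mem_SS.2 h)]
  rw [← e1]
  have h0 : (0 : F) ∈ KK F (p ^ k) := by
    rw [mem_KK, zero_pow (by omega)]
  rw [← Finset.sum_erase_add _ _ h0]
  have e3 : ∀ u ∈ (KK F (p ^ k)).erase 0, ∑ x : F, psi F hζ (u * (x ^ d - a * x)) = WW hζ d a := by
    intro u hu
    rw [Finset.mem_erase] at hu
    unfold WW
    refine Fintype.sum_bijective (fun x : F => u * x) (mulLeft_bijective₀ u hu.1) _ _ fun x => ?_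
    congr 1
    rw [mul_pow, pow_mod' h1 hd0 hu.2]
    ring
  rw [Finset.sum_congr rfl e3, Finset.sum_const, Finset.card_erase_of_mem h0, card_KK hk hF,
    nsmul_eq_mul, Nat.cast_sub hQ.le, Nat.cast_one]
  congr 1
  simp only [zero_mul, AddChar.map_zero_eq_one, Finset.sum_const, Finset.card_univ, hF,
    nsmul_eq_mul, mul_one]
  push_cast
  ring

theorem psi_sum {ζ : R} (hζ : ζ ^ p = 1) (hζ1 : ζ ≠ 1) (b : F) [Decidable (b = 0)] :
    ∑ a : F, psi F hζ (a * b) = if b = 0 then ((Fintype.card F : ℕ) : R) else 0 := by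
  classical
  have h := AddChar.sum_mulShift b (AddChar.IsPrimitive.of_ne_one (psi_ne (F := F) hζ hζ1))
  rw [h]
  split_ifs <;> simp

theorem sum_W {ζ : R} (hζ : ζ ^ p = 1) (hζ1 : ζ ≠ 1) {d : ℕ} (hd0 : d ≠ 0) :
    ∑ a : F, WW hζ d a = ((Fintype.card F : ℕ) : R) := by
  classical
  unfold WW
  rw [Finset.sum_comm]
  have h1 : ∀ x : F, ∑ a : F, psi F hζ (x ^ d - a * x) =
      if x = 0 then ((Fintype.card F : ℕ) : R) else 0 := by
    intro x
    have h2 : ∀ a : F, psi F hζ (x ^ d - a * x) = psi F hζ (x ^ d) * psi F hζ (a * (-x)) := by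
      intro a
      rw [← AddChar.map_add_eq_mul]
      congr 1
      ring
    rw [Finset.sum_congr rfl fun a _ => h2 a, ← Finset.mul_sum, psi_sum hζ hζ1]
    by_cases hx : x = 0
    · rw [if_pos (by rw [hx, neg_zero]), if_pos hx, hx, zero_pow hd0, AddChar.map_zero_eq_one,
        one_mul]
    · rw [if_neg (by rwa [neg_eq_zero]), if_neg hx, mul_zero]
  rw [Finset.sum_congr rfl fun x _ => h1 x, Finset.sum_ite_eq' Finset.univ (0 : F),
    if_pos (Finset.mem_univ _)]

theorem sum_W2 {ζ : R} (hζ : ζ ^ p = 1) (hζ1 : ζ ≠ 1) {d : ℕ}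
    (hneg : ∀ x : F, (-x) ^ d = -x ^ d) :
    ∑ a : F, WW hζ d a ^ 2 = ((Fintype.card F : ℕ) : R) ^ 2 := by
  classical
  have h0 : ∀ a : F, WW hζ d a ^ 2 = ∑ x : F, ∑ y : F,
      psi F hζ (x ^ d + y ^ d) * psi F hζ (a * (-(x + y))) := by
    intro a
    unfold WW
    rw [pow_two, Finset.sum_mul_sum]
    refine Finset.sum_congr rfl fun x _ => Finset.sum_congr rfl fun y _ => ?_
    rw [← AddChar.map_add_eq_mul, ← AddChar.map_add_eq_mul]
    congr 1
    ring
  rw [Finset.sum_congr rfl fun a _ => h0 a, Finset.sum_comm]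
  have h1 : ∀ x : F, ∑ a : F, ∑ y : F, psi F hζ (x ^ d + y ^ d) * psi F hζ (a * (-(x + y))) =
      ((Fintype.card F : ℕ) : R) := by
    intro x
    rw [Finset.sum_comm]
    have h2 : ∀ y : F, ∑ a : F, psi F hζ (x ^ d + y ^ d) * psi F hζ (a * (-(x + y))) =
        if y = -x then ((Fintype.card F : ℕ) : R) else 0 := by
      intro y
      rw [← Finset.mul_sum, psi_sum hζ hζ1]
      by_cases hy : y = -x
      · rw [if_pos (by rw [hy]; ring), if_pos hy, hy, hneg, add_neg_cancel,
          AddChar.map_zero_eq_one, one_mul]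
      · rw [if_neg, if_neg hy, mul_zero]
        intro h
        apply hy
        linear_combination -h
    rw [Finset.sum_congr rfl fun y _ => h2 y, Finset.sum_ite_eq' Finset.univ (-x : F),
      if_pos (Finset.mem_univ _)]
  rw [Finset.sum_congr rfl fun x _ => h1 x, Finset.sum_const, Finset.card_univ, nsmul_eq_mul]
  ring

theorem MM_ge {k : ℕ} (hk : 1 ≤ k) (hF : Fintype.card F = (p ^ k) ^ 2) {d : ℕ}
    (h1 : d ≡ 1 [MOD p ^ k - 1]) (hd0 : d ≠ 0) (a : F) (hM : MM F (p ^ k) d a ≠ 1) :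
    p ^ k ≤ MM F (p ^ k) d a := by
  classical
  have hp : p.Prime := Fact.out
  have hQ : 1 < p ^ k := Nat.one_lt_pow (by omega) hp.one_lt
  unfold MM at *
  have h0 : (0 : F) ∈ SS F (p ^ k) d a := by
    rw [mem_SS, zero_pow hd0, mul_zero, sub_zero, zero_pow (by omega), add_zero]
  have hpos : 1 < (SS F (p ^ k) d a).card := by
    have h2 : 0 < (SS F (p ^ k) d a).card := Finset.card_pos.2 ⟨0, h0⟩
    omega
  obtain ⟨x, hx, hx0⟩ := Finset.exists_mem_ne hpos 0
  have h2 : (KK F (p ^ k)).image (fun u => u * x) ⊆ SS F (p ^ k) d a := by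
    intro y hy
    rw [Finset.mem_image] at hy
    obtain ⟨u, hu, rfl⟩ := hy
    rw [mem_SS] at hx ⊢
    have h3 : (u * x) ^ d - a * (u * x) = u * (x ^ d - a * x) := by
      rw [mul_pow, pow_mod' h1 hd0 hu]
      ring
    rw [h3, mul_pow]
    rw [mem_KK] at hu
    rw [hu, ← mul_add, hx, mul_zero]
  have h3 := Finset.card_le_card h2
  rwa [Finset.card_image_of_injective _ (mul_left_injective₀ hx0), card_KK hk hF] at h3

omit [Fact p.Prime] [Algebra (ZMod p) F] in
/-- integers with prescribed first and second moment -/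
theorem exists_big (n : F → ℤ) (s : ℤ) (hs : 0 < s) (h0 : ∀ a, 0 ≤ n a) (h1 : ∑ a, n a = s)
    (h2 : ∑ a, n a ^ 2 = s ^ 2) : ∃ a, s ≤ n a := by
  by_contra hcon
  push Not at hcon
  have h3 : ∑ a, n a ^ 2 ≤ ∑ a, (s - 1) * n a := by
    refine Finset.sum_le_sum fun a _ => ?_
    have h4 := h0 a
    have h5 := hcon a
    nlinarith
  rw [← Finset.mul_sum, h1, h2] at h3
  nlinarith

/-- the last step: the equation cannot hold for all `x` -/
theorem no_all {k : ℕ} (hk : 1 ≤ k) (hF : Fintype.card F = (p ^ k) ^ 2) {d : ℕ}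
    (h2 : ¬ d ≡ 1 [MOD Fintype.card F - 1]) (h3 : ¬ d ≡ p ^ k [MOD Fintype.card F - 1])
    {a : F} (ha : a ≠ 0) (hall : ∀ x : F, (x ^ d - a * x) + (x ^ d - a * x) ^ p ^ k = 0) :
    False := by
  classical
  have hp : p.Prime := Fact.out
  have hQ : 1 < p ^ k := Nat.one_lt_pow (by omega) hp.one_lt
  set Q := p ^ k with hQd
  set m := Fintype.card F - 1 with hm
  have hq : Q * Q = m + 1 := by
    rw [hm, hF, pow_two]
    have : 0 < Q * Q := by positivity
    omega
  have hm3 : 3 ≤ m := by nlinarith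
  have hQm : Q < m := by nlinarith
  set P : Polynomial F := Polynomial.X ^ (d % m) + Polynomial.X ^ ((d * Q) % m) -
    Polynomial.C a * Polynomial.X ^ 1 - Polynomial.C (a ^ Q) * Polynomial.X ^ Q with hP
  have hd1 : d % m < m := Nat.mod_lt _ (by omega)
  have hd2 : (d * Q) % m < m := Nat.mod_lt _ (by omega)
  have hdeg : P.natDegree < m := by
    have e : P.natDegree ≤ m - 1 := by
      rw [hP]
      refine (Polynomial.natDegree_sub_le _ _).trans (max_le ?_ ?_)
      · refine (Polynomial.natDegree_sub_le _ _).trans (max_le ?_ ?_)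
        · refine (Polynomial.natDegree_add_le _ _).trans (max_le ?_ ?_)
          · rw [Polynomial.natDegree_X_pow]
            omega
          · rw [Polynomial.natDegree_X_pow]
            omega
        · refine (Polynomial.natDegree_C_mul_X_pow_le _ _).trans ?_
          omega
      · refine (Polynomial.natDegree_C_mul_X_pow_le _ _).trans ?_
        omega
    omega
  have hmodx : ∀ x : F, x ≠ 0 → ∀ e : ℕ, x ^ (e % m) = x ^ e := by
    intro x hx e
    refine pow_eq_pow_of_modEq (Nat.mod_modEq e m) ?_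
    exact FiniteField.pow_card_sub_one_eq_one x hx
  have hP0 : P = 0 := by
    refine Polynomial.eq_zero_of_natDegree_lt_card_of_eval_eq_zero' P
      ((Finset.univ : Finset F).erase 0) ?_ ?_
    · intro x hx
      have hx0 : x ≠ 0 := (Finset.mem_erase.1 hx).1
      have h4 := hall x
      have h5 : (x ^ d - a * x) ^ Q = x ^ (d * Q) - a ^ Q * x ^ Q := by
        have h6 := add_powQ (p := p) k (x ^ d - a * x) (a * x)
        rw [sub_add_cancel, ← hQd] at h6
        rw [pow_mul, h6, mul_pow]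
        ring
      rw [h5] at h4
      simp only [hP, Polynomial.eval_sub, Polynomial.eval_add, Polynomial.eval_pow,
        Polynomial.eval_X, Polynomial.eval_mul, Polynomial.eval_C, hmodx x hx0, pow_one]
      linear_combination h4
    · rw [Finset.card_erase_of_mem (Finset.mem_univ _), Finset.card_univ]
      exact hdeg
  have hc : P.coeff 1 = -a := by
    rw [hP, Polynomial.coeff_sub, Polynomial.coeff_sub, Polynomial.coeff_add,
      Polynomial.coeff_X_pow, Polynomial.coeff_X_pow, Polynomial.coeff_C_mul_X_pow,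
      Polynomial.coeff_C_mul_X_pow, if_neg, if_neg, if_pos rfl, if_neg]
    · ring
    · omega
    · intro h
      apply h3
      have e1 : d * Q ≡ 1 [MOD m] := by
        unfold Nat.ModEq
        rw [← h, Nat.mod_eq_of_lt (show 1 < m by omega)]
      have e2 : Q * Q ≡ 1 [MOD m] := by
        rw [hq]
        unfold Nat.ModEq
        simp
      have e3 : d * Q * Q ≡ 1 * Q [MOD m] := e1.mul_right Q
      have e4 : d * (Q * Q) ≡ d * 1 [MOD m] := e2.mul_left d
      rw [mul_assoc] at e3
      have e5 := e4.symm.trans e3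
      rwa [mul_one, one_mul] at e5
    · intro h
      apply h2
      unfold Nat.ModEq
      rw [← h, Nat.mod_eq_of_lt (show 1 < m by omega)]
  rw [hP0, Polynomial.coeff_zero] at hc
  exact ha (neg_eq_zero.1 hc.symm)

end

end NihoAux

open NihoAux

theorem niho_sum {p : ℕ} [Fact p.Prime] {F : Type} [Field F] [Fintype F] [Algebra (ZMod p) F]
    {R : Type} [CommRing R] [IsDomain R] (ρ : R →+* F) (ζ : R) (hζ : ζ ^ p = 1) (hζ1 : ζ ≠ 1)
    (k : ℕ) (hk : 1 ≤ k) (hF : Fintype.card F = (p ^ k) ^ 2)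
    (d : ℕ) (hd : Nat.Coprime d (Fintype.card F - 1)) (h1 : d ≡ 1 [MOD p ^ k - 1])
    (h2 : ¬ d ≡ 1 [MOD Fintype.card F - 1]) (h3 : ¬ d ≡ p ^ k [MOD Fintype.card F - 1]) :
    ∃ c : F, c ≠ 0 ∧
      ∑ x : F, ζ ^ (Algebra.trace (ZMod p) F (x ^ d - c * x)).val = -((p : R) ^ k) := by
  classical
  have hp : p.Prime := Fact.out
  have hQ : 1 < p ^ k := Nat.one_lt_pow (by omega) hp.one_lt
  have : CharZero R := charZero_R ρ hζ hζ1
  set Q := p ^ k with hQd
  have hq3 : 2 < Fintype.card F := by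
    rw [hF]
    nlinarith
  have hd0 : d ≠ 0 := by
    intro h
    rw [h, Nat.coprime_zero_left] at hd
    omega
  have hneg : ∀ x : F, (-x) ^ d = -x ^ d := by
    intro x
    rcases hp.eq_two_or_odd' with h | h
    · subst h
      have : CharP F 2 := charP_F
      rw [CharTwo.neg_eq, CharTwo.neg_eq]
    · have ho : Odd d := by
        have h4 : Odd (Fintype.card F) := by
          rw [hF]
          exact (h.pow).pow
        have h5 : 2 ∣ Fintype.card F - 1 := by
          obtain ⟨c, hc⟩ := h4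
          exact ⟨c, by omega⟩
        rw [← Nat.not_even_iff_odd, even_iff_two_dvd]
        intro h6
        have h7 := Nat.dvd_gcd h6 h5
        rw [hd] at h7
        omega
      exact ho.neg_pow x
  have hQR : (Q : R) ≠ 0 := by exact_mod_cast (show Q ≠ 0 by omega)
  have hQ1R : (Q : R) - 1 ≠ 0 := by
    intro h
    have h4 : (Q : R) = ((1 : ℕ) : R) := by
      rw [Nat.cast_one]
      exact sub_eq_zero.1 h
    have h5 := Nat.cast_injective h4
    omega
  have rel : ∀ a : F, ((Q : R) - 1) * WW hζ d a + (Q : R) ^ 2 = (Q : R) * (MM F Q d a : R) :=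
    fun a => main_rel hζ hζ1 hk hF h1 hd0 a
  by_cases hex : ∃ a : F, a ≠ 0 ∧ MM F Q d a = 1
  · obtain ⟨a, ha, hM⟩ := hex
    refine ⟨a, ha, ?_⟩
    have h4 := rel a
    rw [hM, Nat.cast_one] at h4
    have h5 : ((Q : R) - 1) * (WW hζ d a + Q) = 0 := by linear_combination h4
    rcases mul_eq_zero.1 h5 with h6 | h6
    · exact absurd h6 hQ1R
    · have h7 : WW hζ d a = -((p : R) ^ k) := by
        rw [hQd] at h6
        push_cast at h6
        linear_combination h6
      exact h7
  · exfalso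
    push Not at hex
    -- the value at zero
    have hM0 : MM F Q d 0 = Q := by
      have h4 : WW hζ d (0 : F) = 0 := by
        unfold WW
        have h5 : ∀ x : F, psi F hζ (x ^ d - 0 * x) = psi F hζ (x ^ d) := fun x => by
          rw [zero_mul, sub_zero]
        rw [Finset.sum_congr rfl fun x _ => h5 x,
          Function.Bijective.sum_comp (pow_bij hd hq3) (fun y => psi F hζ y)]
        exact AddChar.sum_eq_zero_of_ne_one (psi_ne hζ hζ1)
      have h5 := rel 0
      rw [h4, mul_zero, zero_add, pow_two] at h5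
      exact_mod_cast (mul_left_cancel₀ hQR h5).symm
    have hge : ∀ a : F, Q ≤ MM F Q d a := by
      intro a
      by_cases ha : a = 0
      · rw [ha, hM0]
      · exact MM_ge hk hF h1 hd0 a (hex a ha)
    have hcardR : ((Fintype.card F : ℕ) : R) = (Q : R) ^ 2 := by
      rw [hF]
      push_cast
      ring
    have e1 : ∀ a : F, (Q : R) * (((MM F Q d a : ℤ) - (Q : ℤ) : ℤ) : R) = ((Q : R) - 1) * WW hζ d a := by
      intro a
      push_cast
      linear_combination -(rel a)
    have s1 : ∑ a : F, ((MM F Q d a : ℤ) - (Q : ℤ)) = (Q : ℤ) * ((Q : ℤ) - 1) := by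
      have h4 : (Q : R) * ((∑ a : F, ((MM F Q d a : ℤ) - (Q : ℤ)) : ℤ) : R) =
          (Q : R) * (((Q : ℤ) * ((Q : ℤ) - 1) : ℤ) : R) := by
        rw [Int.cast_sum, Finset.mul_sum, Finset.sum_congr rfl fun a _ => e1 a, ← Finset.mul_sum,
          sum_W hζ hζ1 hd0, hcardR]
        push_cast
        ring
      exact Int.cast_injective (mul_left_cancel₀ hQR h4)
    have s2 : ∑ a : F, ((MM F Q d a : ℤ) - (Q : ℤ)) ^ 2 = ((Q : ℤ) * ((Q : ℤ) - 1)) ^ 2 := by
      have h4 : (Q : R) ^ 2 * ((∑ a : F, ((MM F Q d a : ℤ) - (Q : ℤ)) ^ 2 : ℤ) : R) =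
          (Q : R) ^ 2 * ((((Q : ℤ) * ((Q : ℤ) - 1)) ^ 2 : ℤ) : R) := by
        have h5 : ∀ a : F, (Q : R) ^ 2 * ((((MM F Q d a : ℤ) - (Q : ℤ)) ^ 2 : ℤ) : R) =
            ((Q : R) - 1) ^ 2 * WW hζ d a ^ 2 := by
          intro a
          rw [← mul_pow, ← e1 a]
          push_cast
          ring
        rw [Int.cast_sum, Finset.mul_sum, Finset.sum_congr rfl fun a _ => h5 a, ← Finset.mul_sum,
          sum_W2 hζ hζ1 hneg, hcardR]
        push_cast
        ring
      exact Int.cast_injective (mul_left_cancel₀ (pow_ne_zero 2 hQR) h4)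
    have hQz : (1 : ℤ) < Q := by exact_mod_cast hQ
    obtain ⟨a, ha⟩ := exists_big (fun a : F => (MM F Q d a : ℤ) - (Q : ℤ)) _ (by nlinarith)
      (fun a => by
        have := hge a
        have h5 : (Q : ℤ) ≤ MM F Q d a := by exact_mod_cast this
        linarith) s1 s2
    have ha2 : Q ^ 2 ≤ MM F Q d a := by
      have h5 : ((Q : ℤ)) ^ 2 ≤ MM F Q d a := by
        nlinarith
      exact_mod_cast h5
    have ha0 : a ≠ 0 := by
      intro h
      rw [h, hM0] at ha2
      nlinarith
    have huniv : SS F Q d a = Finset.univ := by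
      refine Finset.eq_univ_of_card _ (le_antisymm (Finset.card_le_univ _) ?_)
      rw [hF]
      exact ha2
    refine no_all hk hF h2 h3 ha0 fun x => ?_
    exact mem_SS.1 (by rw [← hQd, huniv]; exact Finset.mem_univ x)

end Pool.Agent.WVal
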