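import Pool.Agent.WVal.StickLow
import Pool.Agent.WVal.NihoSum
import Pool.Agent.WVal.Ring

/-!
Niho exponents on the level of digit sums.
-/

set_option autoImplicit false

namespace Pool.Agent.WVal

open Finset

theorem niho_digit (p k : ℕ) [Fact p.Prime] (hk : 1 ≤ k) (d : ℤ)
    (hcop : IsCoprime d ((p : ℤ) ^ (2 * k) - 1)) (j : ℕ) (h1 : ((p : ℤ) ^ k - 1) ∣ d - (p : ℤ) ^ j)
    (hnd : ∀ i : ℕ, ¬ ((p : ℤ) ^ (2 * k) - 1) ∣ d - (p : ℤ) ^ i) :
    ∃ z : ℤ, ¬ ((p : ℤ) ^ (2 * k) - 1) ∣ z ∧ S p (2 * k) z + S p (2 * k) (-(d * z)) ≤ k := by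
  classical
  have hp : p.Prime := Fact.out
  have hp2 : 2 ≤ p := hp.two_le
  have hn : 1 ≤ 2 * k := by omega
  have hNpos := NZ_pos p (2 * k) hp2 hn
  have hkpos := NZ_pos p k hp2 hk
  -- normalise d
  obtain ⟨t, ht⟩ : ∃ t, j + t = (2 * k) * j := ⟨(2 * k) * j - j, by
    have : j ≤ (2 * k) * j := Nat.le_mul_of_pos_left j (by omega)
    omega⟩
  have hpow1 : ((p : ℤ) ^ (2 * k) - 1) ∣ (p : ℤ) ^ (j + t) - 1 := by
    have h := sub_dvd_pow_sub_pow ((p : ℤ) ^ (2 * k)) 1 j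
    rw [one_pow, ← pow_mul, ← ht] at h
    exact h
  have hkN : ((p : ℤ) ^ k - 1) ∣ (p : ℤ) ^ (2 * k) - 1 := ⟨(p : ℤ) ^ k + 1, by ring⟩
  set D : ℤ := ((p : ℤ) ^ t * d) % ((p : ℤ) ^ (2 * k) - 1) with hD
  have hDnn : 0 ≤ D := Int.emod_nonneg _ hNpos.ne'
  obtain ⟨d', hd'⟩ : ∃ d' : ℕ, (d' : ℤ) = D := ⟨D.toNat, Int.toNat_of_nonneg hDnn⟩
  have hDd : ((p : ℤ) ^ (2 * k) - 1) ∣ (p : ℤ) ^ t * d - (d' : ℤ) := by
    rw [hd', hD]
    exact Int.dvd_self_sub_emod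
  have hpcop : IsCoprime ((p : ℤ) ^ t) ((p : ℤ) ^ (2 * k) - 1) := by
    apply IsCoprime.pow_left
    refine ⟨(p : ℤ) ^ (2 * k - 1), -1, ?_⟩
    have : (p : ℤ) ^ (2 * k) = (p : ℤ) ^ (2 * k - 1) * p := by
      rw [← pow_succ, Nat.sub_add_cancel hn]
    rw [this]; ring
  have hd'cop : IsCoprime (d' : ℤ) ((p : ℤ) ^ (2 * k) - 1) := by
    have h2 : IsCoprime ((p : ℤ) ^ t * d) ((p : ℤ) ^ (2 * k) - 1) := hpcop.mul_left hcop
    obtain ⟨c, hc⟩ := hDd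
    have e : (d' : ℤ) = (p : ℤ) ^ t * d + ((p : ℤ) ^ (2 * k) - 1) * (-c) := by linarith
    rw [e]
    exact IsCoprime.add_mul_left_left h2 _
  -- the field
  haveI : Finite (GaloisField p (2 * k)) := inferInstance
  haveI : Fintype (GaloisField p (2 * k)) := Fintype.ofFinite _
  set F := GaloisField p (2 * k) with hFdef
  have hcard : Fintype.card F = p ^ (2 * k) := by
    rw [← Nat.card_eq_fintype_card]
    exact GaloisField.card p (2 * k) (by omega)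
  have hrank : Module.finrank (ZMod p) F = 2 * k := GaloisField.finrank p (by omega)
  have hcard2 : Fintype.card F = (p ^ k) ^ 2 := by rw [hcard, ← pow_mul]; congr 1; ring
  have hppow : 2 ≤ p ^ k := by
    calc 2 ≤ p := hp2
      _ = p ^ 1 := (pow_one _).symm
      _ ≤ p ^ k := Nat.pow_le_pow_right hp.pos hk
  have hq : 2 < Fintype.card F := by rw [hcard2]; nlinarith
  have hNcast : ((Fintype.card F - 1 : ℕ) : ℤ) = (p : ℤ) ^ (2 * k) - 1 := by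
    rw [Nat.cast_sub (by omega), hcard]; push_cast; ring
  have hkcast : ((p ^ k - 1 : ℕ) : ℤ) = (p : ℤ) ^ k - 1 := by
    rw [Nat.cast_sub (by omega)]; push_cast; ring
  have hdcop : Nat.Coprime d' (Fintype.card F - 1) := by
    rw [← Nat.isCoprime_iff_coprime, hNcast]
    exact hd'cop
  have hm1 : d' ≡ 1 [MOD p ^ k - 1] := by
    apply Nat.ModEq.symm
    rw [Nat.modEq_iff_dvd, hkcast]
    push_cast
    have h2 : ((p : ℤ) ^ k - 1) ∣ (p : ℤ) ^ t * d - (d' : ℤ) := hkN.trans hDd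
    have h3 : ((p : ℤ) ^ k - 1) ∣ (p : ℤ) ^ t * (d - (p : ℤ) ^ j) := Dvd.dvd.mul_left h1 _
    have h4 : ((p : ℤ) ^ k - 1) ∣ (p : ℤ) ^ (j + t) - 1 := hkN.trans hpow1
    have e : (d' : ℤ) - 1 = -((p : ℤ) ^ t * d - (d' : ℤ)) + (p : ℤ) ^ t * (d - (p : ℤ) ^ j) +
        ((p : ℤ) ^ (j + t) - 1) := by rw [pow_add]; ring
    rw [e]
    exact dvd_add (dvd_add ((dvd_neg).2 h2) h3) h4
  have hback : ∀ i : ℕ, ((p : ℤ) ^ (2 * k) - 1) ∣ (d' : ℤ) - (p : ℤ) ^ i → False := by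
    intro i hi
    apply hnd (i + j)
    have h2 : ((p : ℤ) ^ (2 * k) - 1) ∣ (p : ℤ) ^ j * ((p : ℤ) ^ t * d - (p : ℤ) ^ i) := by
      have := dvd_add hDd hi
      rw [sub_add_sub_cancel] at this
      exact Dvd.dvd.mul_left this _
    have e : d - (p : ℤ) ^ (i + j) = (p : ℤ) ^ j * ((p : ℤ) ^ t * d - (p : ℤ) ^ i) -
        ((p : ℤ) ^ (j + t) - 1) * d := by rw [pow_add, pow_add]; ring
    rw [e]
    exact dvd_sub h2 (Dvd.dvd.mul_right hpow1 _)
  have hm2 : ¬ d' ≡ 1 [MOD Fintype.card F - 1] := by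
    intro h
    have h2 := h.symm
    rw [Nat.modEq_iff_dvd, hNcast] at h2
    apply hback 0
    rw [pow_zero]
    exact_mod_cast h2
  have hm3 : ¬ d' ≡ p ^ k [MOD Fintype.card F - 1] := by
    intro h
    have h2 := h.symm
    rw [Nat.modEq_iff_dvd, hNcast] at h2
    apply hback k
    exact_mod_cast h2
  haveI : CharP F p := charP_of_injective_algebraMap (algebraMap (ZMod p) F).injective p
  obtain ⟨R, _, _, ρ, ζ, ω, hζ, hζ1, hρζ, hker, hω, hω0⟩ := exists_ring p F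
  obtain ⟨c, hc, hcW⟩ := niho_sum (F := F) ρ ζ hζ hζ1 k hk hcard2 d' hdcop hm1 hm2 hm3
  by_contra hcon
  push Not at hcon
  have hlow := stick_low (F := F) ρ ζ ω hζ hζ1 hρζ hker hω hω0 hq d' hdcop ((p - 1) * k + 1)
    (by
      rw [hrank]
      have : 1 ≤ (p - 1) * k := Nat.mul_pos (by omega) hk
      nlinarith)
    (by
      intro z hz
      rw [hrank] at hz ⊢
      have hS : S p (2 * k) (-((d' : ℤ) * z)) = S p (2 * k) (-(d * z)) := by
        rw [← S_pow_mul p (2 * k) hp2 hn t (-(d * z))]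
        apply S_congr p (2 * k) hp2 hn
        have e : -((d' : ℤ) * z) - (p : ℤ) ^ t * -(d * z) = ((p : ℤ) ^ t * d - (d' : ℤ)) * z := by
          ring
        rw [e]
        exact Dvd.dvd.mul_right hDd _
      rw [hS]
      have h2 := hcon z hz
      obtain ⟨a, _, ha⟩ := digits_of_S p (2 * k) hp2 hn z
      obtain ⟨b, _, hb⟩ := digits_of_S p (2 * k) hp2 hn (-(d * z))
      have hp1 : (0 : ℝ) < (p : ℝ) - 1 := by
        have : (2 : ℝ) ≤ (p : ℝ) := by exact_mod_cast hp2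
        linarith
      rw [mul_add, ← ha, ← hb]
      have h3 : (((p - 1) * k : ℕ) : ℝ) < ((∑ i ∈ range (2 * k), a i : ℕ) : ℝ) +
          ((∑ i ∈ range (2 * k), b i : ℕ) : ℝ) := by
        rw [ha, hb, ← mul_add]
        push_cast
        rw [Nat.cast_sub (by omega), Nat.cast_one]
        exact mul_lt_mul_of_pos_left h2 hp1
      have h4 : (p - 1) * k < (∑ i ∈ range (2 * k), a i) + (∑ i ∈ range (2 * k), b i) := by
        exact_mod_cast h3
      exact_mod_cast h4)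
    c hc
  rw [hcW] at hlow
  obtain ⟨v, hv, hρv⟩ := p_eq ρ ζ hζ hζ1 hρζ
  have hπ : ζ - 1 ≠ 0 := sub_ne_zero.2 hζ1
  rw [hv, dvd_neg, mul_pow, ← pow_mul, pow_succ] at hlow
  have h5 : (ζ - 1) ∣ v ^ k := (mul_dvd_mul_iff_left (pow_ne_zero _ hπ)).1 hlow
  obtain ⟨w, hw⟩ := h5
  have h6 := congrArg ρ hw
  rw [map_pow, map_mul, map_sub, hρζ, map_one, sub_self, zero_mul] at h6
  exact pow_ne_zero k hρv h6

end Pool.Agent.WVal
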