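import Mathlib

/-!
Sparse elements of `ℤ[ℤ/n]`, `n` without small prime factors.

Proof. (Dirichlet) Let `T ⊂ ZMod n` with `|T| ≤ k`, let `a ≠ b` in `T`. Claim: if every prime factor of `n` is
`> 4^k` there is `j : ℕ` with `j a ≠ j b` in `ZMod n` and for every `t ∈ T` an integer `t~` with
`|t~| < n/4`, `t~ ≡ j t (mod n)`. Let `r` be the additive order of `a - b`, a divisor `> 1` of `n`, so `r ≥` the
least prime factor of `n`, `> 4^k`. Pigeonhole on `j ∈ {0,…,r-1}`, boxes
`(⌊4 (j t mod n)/n⌋)_{t ∈ T} ∈ {0,1,2,3}^T`: two `j₁ < j₂ < r` in the same box, `j = j₂ - j₁ < r`, so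
`j (a-b) ≠ 0`.

(No zero divisors) If `c, c' : ZMod n → ℤ` are nonzero with supports of size `≤ K` and all prime factors of
`n` are `> 4^(2K)`, then the convolution `t ↦ ∑ s, c s * c' (t - s)` is not identically `0`: induction on
`|supp c| + |supp c'|`; if both supports are singletons, clear. If `a ≠ b` in `supp c` (or in `supp c'`, symmetric)
take `j` and `t~` for `T = supp c ∪ supp c'`; let `A = max of s~` over `supp c`, `A'` the same for `c'`;
`c_A` = restriction of `c` to `{s : s~ = A}`, which has smaller support (as `a~ ≠ b~`), `c'_A'` similarly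
(maybe all of `c'`). Sums: if `s ∈ supp c, s' ∈ supp c'`, `s + s' = t₀` where `t₀ = s₀ + s₀'` with
`s₀~ = A, s₀'~ = A'`: then `s~ + s'~ ≡ A + A' (mod n)`, all of absolute value `< n/4`, so
`s~ + s'~ = A + A'`, so `s~ = A`, `s'~ = A'`. Hence the convolution of `c_A` and `c'_A'` agrees at such `t₀` with the
convolution of `c` and `c'`; and the former is nonzero somewhere, necessarily at such a `t₀`.

(Monomial) If moreover the convolution is `κ δ_0`, `κ ≠ 0`, and `a ≠ b ∈ supp c`: with `j`, `A, A'` as above the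
top part of the convolution is nonzero at some `t₀` so `t₀ = 0` and `A + A' = 0`; same with minima `B + B' = 0`;
`A ≥ B`, `A' ≥ B'`, so `A = B`, contradicting `a~ ≠ b~`.
-/

set_option autoImplicit false

namespace Pool.Agent.WVal

open Finset

private lemma dirichlet {n : ℕ} [NeZero n] (T : Finset (ZMod n)) (k : ℕ) (hk : T.card ≤ k)
    (hq : ∀ q : ℕ, q.Prime → q ∣ n → 4 ^ k < q) (d : ZMod n) (hd : d ≠ 0) :
    ∃ (j : ZMod n) (l : ZMod n → ℤ), j * d ≠ 0 ∧
      ∀ t ∈ T, ((l t : ℤ) : ZMod n) = j * t ∧ 4 * |l t| < (n : ℤ) := by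
  classical
  have hn : 0 < n := NeZero.pos n
  have hrn : addOrderOf d ∣ n := by
    have := addOrderOf_dvd_card (x := d)
    rwa [ZMod.card] at this
  have hr1 : addOrderOf d ≠ 1 := by
    intro h
    exact hd (AddMonoid.addOrderOf_eq_one_iff.mp h)
  have hrk : 4 ^ k < addOrderOf d := by
    have h1 := hq _ (Nat.minFac_prime hr1) ((Nat.minFac_dvd _).trans hrn)
    have hr0 : 0 < addOrderOf d := Nat.pos_of_dvd_of_pos hrn hn
    exact lt_of_lt_of_le h1 (Nat.minFac_le hr0)
  let f : ℕ → (T → Fin 4) := fun i t => ⟨4 * (((i : ZMod n) * (t : ZMod n)).val) / n, by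
      rw [Nat.div_lt_iff_lt_mul hn]
      have := ZMod.val_lt ((i : ZMod n) * (t : ZMod n))
      omega⟩
  have hcard : (univ : Finset (T → Fin 4)).card < (range (addOrderOf d)).card := by
    rw [card_univ, Fintype.card_fun, Fintype.card_fin, Fintype.card_coe, card_range]
    exact lt_of_le_of_lt (Nat.pow_le_pow_right (by norm_num) hk) hrk
  obtain ⟨i₁, h1, i₂, h2, hne, hf⟩ :=
    exists_ne_map_eq_of_card_lt_of_maps_to hcard (f := f) (fun _ _ => mem_univ _)
  refine ⟨(i₂ : ZMod n) - (i₁ : ZMod n), fun t => ((((i₂ : ZMod n) * t).val : ℕ) : ℤ) -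
    ((((i₁ : ZMod n) * t).val : ℕ) : ℤ), ?_, ?_⟩
  · intro h0
    rw [sub_mul, sub_eq_zero] at h0
    have h3 : i₂ • d = i₁ • d := by
      rw [nsmul_eq_mul, nsmul_eq_mul, h0]
    have := nsmul_injOn_Iio_addOrderOf (x := d) (by simpa using mem_range.mp h2)
      (by simpa using mem_range.mp h1) h3
    exact hne this.symm
  · intro t ht
    constructor
    · push_cast
      rw [ZMod.natCast_val, ZMod.natCast_val, ZMod.cast_id, ZMod.cast_id]
      ring
    · have h4 := congrFun hf ⟨t, ht⟩
      simp only [f, Fin.mk.injEq] at h4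
      set x₁ := ((i₁ : ZMod n) * t).val
      set x₂ := ((i₂ : ZMod n) * t).val
      have e1 := Nat.div_add_mod (4 * x₁) n
      have e2 := Nat.div_add_mod (4 * x₂) n
      have m1 := Nat.mod_lt (4 * x₁) hn
      have m2 := Nat.mod_lt (4 * x₂) hn
      rw [h4] at e1
      have h5 : 4 * ((x₂ : ℤ) - (x₁ : ℤ)) = ((4 * x₂) % n : ℕ) - ((4 * x₁) % n : ℕ) := by
        have e1' : ((n * (4 * x₂ / n) + (4 * x₁) % n : ℕ) : ℤ) = ((4 * x₁ : ℕ) : ℤ) := by rw [e1]
        have e2' : ((n * (4 * x₂ / n) + (4 * x₂) % n : ℕ) : ℤ) = ((4 * x₂ : ℕ) : ℤ) := by rw [e2]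
        push_cast at e1' e2' ⊢
        linarith
      have h6 : (4 : ℤ) * |(x₂ : ℤ) - (x₁ : ℤ)| = |4 * ((x₂ : ℤ) - (x₁ : ℤ))| := by
        rw [abs_mul]; norm_num
      rw [h6, h5, abs_lt]
      constructor <;> omega

private lemma top_part {n : ℕ} [NeZero n] (c c' : ZMod n → ℤ) (j : ZMod n) (l : ZMod n → ℤ)
    (hl : ∀ s, (c s ≠ 0 ∨ c' s ≠ 0) → ((l s : ℤ) : ZMod n) = j * s ∧ 4 * |l s| < (n : ℤ))
    (A A' : ℤ) (hA : ∀ s, c s ≠ 0 → l s ≤ A) (hA' : ∀ s, c' s ≠ 0 → l s ≤ A') (t₀ : ZMod n)
    (h : ∑ s : ZMod n, (if l s = A then c s else 0) *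
      (if l (t₀ - s) = A' then c' (t₀ - s) else 0) ≠ 0) :
    (∑ s : ZMod n, c s * c' (t₀ - s) ≠ 0) ∧
      ((A + A' : ℤ) : ZMod n) = j * t₀ ∧ 2 * |A + A'| < (n : ℤ) := by
  obtain ⟨s₀, -, hs₀⟩ := Finset.exists_ne_zero_of_sum_ne_zero h
  have h1 : l s₀ = A := by
    by_contra hc
    rw [if_neg hc, zero_mul] at hs₀
    exact hs₀ rfl
  have h2 : l (t₀ - s₀) = A' := by
    by_contra hc
    rw [if_neg hc, mul_zero] at hs₀
    exact hs₀ rfl
  rw [if_pos h1, if_pos h2] at hs₀
  have h3 : c s₀ ≠ 0 := left_ne_zero_of_mul hs₀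
  have h4 : c' (t₀ - s₀) ≠ 0 := right_ne_zero_of_mul hs₀
  have h5 := hl s₀ (Or.inl h3)
  have h6 := hl (t₀ - s₀) (Or.inr h4)
  rw [h1] at h5
  rw [h2] at h6
  have hcast : ((A + A' : ℤ) : ZMod n) = j * t₀ := by
    push_cast
    rw [h5.1, h6.1]
    ring
  have habs : 2 * |A + A'| < (n : ℤ) := by
    have := abs_add_le A A'
    linarith [h5.2, h6.2]
  refine ⟨?_, hcast, habs⟩
  have h7 : ∑ s : ZMod n, c s * c' (t₀ - s) = ∑ s : ZMod n, (if l s = A then c s else 0) *
      (if l (t₀ - s) = A' then c' (t₀ - s) else 0) := by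
    refine Finset.sum_congr rfl fun s _ => ?_
    by_cases hc : c s = 0
    · simp [hc]
    by_cases hc' : c' (t₀ - s) = 0
    · simp [hc']
    have g1 := hl s (Or.inl hc)
    have g2 := hl (t₀ - s) (Or.inr hc')
    have g3 : ((l s + l (t₀ - s) - (A + A') : ℤ) : ZMod n) = 0 := by
      rw [Int.cast_sub, hcast]
      push_cast
      rw [g1.1, g2.1]
      ring
    rw [ZMod.intCast_zmod_eq_zero_iff_dvd] at g3
    have g4 : |l s + l (t₀ - s) - (A + A')| < (n : ℤ) := by
      have a1 := abs_sub (l s + l (t₀ - s)) (A + A')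
      have a2 := abs_add_le (l s) (l (t₀ - s))
      linarith [g1.2, g2.2]
    have g5 : l s + l (t₀ - s) - (A + A') = 0 := Int.eq_zero_of_abs_lt_dvd g3 g4
    have g6 := hA s hc
    have g7 := hA' (t₀ - s) hc'
    have g8 : l s = A := by omega
    have g9 : l (t₀ - s) = A' := by omega
    rw [if_pos g8, if_pos g9]
  rw [h7]
  exact h

private lemma exists_max {n : ℕ} [NeZero n] (c : ZMod n → ℤ) (hc : c ≠ 0) (l : ZMod n → ℤ) :
    ∃ s, c s ≠ 0 ∧ ∀ t, c t ≠ 0 → l t ≤ l s := by
  classical
  obtain ⟨s, hs⟩ := Function.ne_iff.mp hc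
  have hne : (univ.filter (fun s => c s ≠ 0)).Nonempty := ⟨s, by simpa using hs⟩
  obtain ⟨m, hm, hm'⟩ := exists_max_image _ l hne
  refine ⟨m, by simpa using hm, fun t ht => hm' t (by simpa using ht)⟩

private lemma no_zero_div {n : ℕ} [NeZero n] (K : ℕ)
    (hq : ∀ q : ℕ, q.Prime → q ∣ n → 4 ^ (2 * K) < q) : ∀ (m : ℕ) (c c' : ZMod n → ℤ),
    (univ.filter (fun s => c s ≠ 0)).card + (univ.filter (fun s => c' s ≠ 0)).card ≤ m →
    (univ.filter (fun s => c s ≠ 0)).card ≤ K → (univ.filter (fun s => c' s ≠ 0)).card ≤ K →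
    c ≠ 0 → c' ≠ 0 → ∃ t, ∑ s : ZMod n, c s * c' (t - s) ≠ 0 := by
  classical
  intro m
  induction m with
  | zero =>
    intro c c' h _ _ hc _
    exfalso
    apply hc
    have h0 : (univ.filter (fun s => c s ≠ 0)).card = 0 := by omega
    rw [card_eq_zero] at h0
    funext s
    by_contra hs
    have : s ∈ univ.filter (fun s => c s ≠ 0) := by simpa using hs
    rw [h0] at this
    simp at this
  | succ m ih =>
    intro c c' hcard hK hK' hc hc'
    by_cases hd : ∃ a b : ZMod n, a ≠ b ∧ ((c a ≠ 0 ∧ c b ≠ 0) ∨ (c' a ≠ 0 ∧ c' b ≠ 0))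
    · obtain ⟨a, b, hab, hor⟩ := hd
      obtain ⟨j, l, hj, hl⟩ := dirichlet
        (univ.filter (fun s => c s ≠ 0) ∪ univ.filter (fun s => c' s ≠ 0)) (2 * K)
        (by have := card_union_le (univ.filter (fun s => c s ≠ 0)) (univ.filter (fun s => c' s ≠ 0))
            omega) hq (a - b) (sub_ne_zero.mpr hab)
      have hl' : ∀ s, (c s ≠ 0 ∨ c' s ≠ 0) →
          ((l s : ℤ) : ZMod n) = j * s ∧ 4 * |l s| < (n : ℤ) := by
        intro s hs
        apply hl
        simpa using hs
      have hlab : l a ≠ l b := by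
        intro h
        have ha : ((l a : ℤ) : ZMod n) = j * a := by
          rcases hor with h' | h'
          · exact (hl' a (Or.inl h'.1)).1
          · exact (hl' a (Or.inr h'.1)).1
        have hb : ((l b : ℤ) : ZMod n) = j * b := by
          rcases hor with h' | h'
          · exact (hl' b (Or.inl h'.2)).1
          · exact (hl' b (Or.inr h'.2)).1
        apply hj
        rw [mul_sub, ← ha, ← hb, h, sub_self]
      obtain ⟨u, hu, humax⟩ := exists_max c hc l
      obtain ⟨u', hu', humax'⟩ := exists_max c' hc' l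
      set d : ZMod n → ℤ := fun s => if l s = l u then c s else 0 with hd_def
      set d' : ZMod n → ℤ := fun s => if l s = l u' then c' s else 0 with hd'_def
      have hsub : univ.filter (fun s => d s ≠ 0) ⊆ univ.filter (fun s => c s ≠ 0) := by
        intro s hs
        simp only [hd_def, mem_filter, mem_univ, true_and, ne_eq, ite_eq_right_iff,
          Classical.not_imp] at hs ⊢
        exact hs.2
      have hsub' : univ.filter (fun s => d' s ≠ 0) ⊆ univ.filter (fun s => c' s ≠ 0) := by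
        intro s hs
        simp only [hd'_def, mem_filter, mem_univ, true_and, ne_eq, ite_eq_right_iff,
          Classical.not_imp] at hs ⊢
        exact hs.2
      have hlt : (univ.filter (fun s => d s ≠ 0)).card + (univ.filter (fun s => d' s ≠ 0)).card <
          (univ.filter (fun s => c s ≠ 0)).card + (univ.filter (fun s => c' s ≠ 0)).card := by
        rcases hor with h' | h'
        · apply add_lt_add_of_lt_of_le _ (card_le_card hsub')
          apply card_lt_card
          refine ⟨hsub, fun hrev => ?_⟩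
          have ha := hrev (show a ∈ _ by simpa using h'.1)
          have hb := hrev (show b ∈ _ by simpa using h'.2)
          simp only [hd_def, mem_filter, mem_univ, true_and, ne_eq, ite_eq_right_iff,
            Classical.not_imp] at ha hb
          exact hlab (ha.1.trans hb.1.symm)
        · apply add_lt_add_of_le_of_lt (card_le_card hsub)
          apply card_lt_card
          refine ⟨hsub', fun hrev => ?_⟩
          have ha := hrev (show a ∈ _ by simpa using h'.1)
          have hb := hrev (show b ∈ _ by simpa using h'.2)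
          simp only [hd'_def, mem_filter, mem_univ, true_and, ne_eq, ite_eq_right_iff,
            Classical.not_imp] at ha hb
          exact hlab (ha.1.trans hb.1.symm)
      have hdne : d ≠ 0 := by
        intro h
        have := congrFun h u
        simp only [hd_def, if_true, Pi.zero_apply] at this
        exact hu this
      have hdne' : d' ≠ 0 := by
        intro h
        have := congrFun h u'
        simp only [hd'_def, if_true, Pi.zero_apply] at this
        exact hu' this
      obtain ⟨t, ht⟩ := ih d d' (by omega) ((card_le_card hsub).trans hK)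
        ((card_le_card hsub').trans hK') hdne hdne'
      exact ⟨t, (top_part c c' j l hl' (l u) (l u') humax humax' t ht).1⟩
    · push Not at hd
      obtain ⟨u, hu⟩ := Function.ne_iff.mp hc
      obtain ⟨u', hu'⟩ := Function.ne_iff.mp hc'
      simp only [Pi.zero_apply] at hu hu'
      refine ⟨u + u', ?_⟩
      rw [Finset.sum_eq_single u]
      · rw [add_sub_cancel_left]
        exact mul_ne_zero hu hu'
      · intro s _ hs
        by_cases hcs : c s = 0
        · rw [hcs, zero_mul]
        · exact absurd ((hd s u hs).1 hcs) hu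
      · intro h
        exact absurd (mem_univ _) h

theorem monomial_of_conv (K : ℕ) : ∃ ℓ₀ : ℕ, ∀ (n : ℕ) [NeZero n],
    (∀ q : ℕ, q.Prime → q ∣ n → ℓ₀ ≤ q) →
    ∀ c c' : ZMod n → ℤ, (univ.filter (fun s => c s ≠ 0)).card ≤ K →
    (univ.filter (fun s => c' s ≠ 0)).card ≤ K → ∀ κ : ℤ, κ ≠ 0 →
    (∀ t : ZMod n, ∑ s : ZMod n, c s * c' (t - s) = if t = 0 then κ else 0) →
    ∃ s₀ : ZMod n, ∀ s, s ≠ s₀ → c s = 0 := by
  classical
  refine ⟨4 ^ (2 * K) + 1, ?_⟩
  intro n _ hq c c' hK hK' κ hκ hconv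
  have hq' : ∀ q : ℕ, q.Prime → q ∣ n → 4 ^ (2 * K) < q := fun q h1 h2 => hq q h1 h2
  have hc : c ≠ 0 := by
    intro h
    have := hconv 0
    simp [h] at this
    exact hκ this.symm
  have hc' : c' ≠ 0 := by
    intro h
    have := hconv 0
    simp [h] at this
    exact hκ this.symm
  obtain ⟨s₀, hs₀⟩ := Function.ne_iff.mp hc
  simp only [Pi.zero_apply] at hs₀
  refine ⟨s₀, fun s hs => ?_⟩
  by_contra hcs
  obtain ⟨j, l, hj, hl⟩ := dirichlet
    (univ.filter (fun s => c s ≠ 0) ∪ univ.filter (fun s => c' s ≠ 0)) (2 * K)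
    (by have := card_union_le (univ.filter (fun s => c s ≠ 0)) (univ.filter (fun s => c' s ≠ 0))
        omega) hq' (s - s₀) (sub_ne_zero.mpr hs)
  have hl' : ∀ s, (c s ≠ 0 ∨ c' s ≠ 0) →
      ((l s : ℤ) : ZMod n) = j * s ∧ 4 * |l s| < (n : ℤ) := by
    intro s hs
    apply hl
    simpa using hs
  have hlab : l s ≠ l s₀ := by
    intro h
    apply hj
    rw [mul_sub, ← (hl' s (Or.inl hcs)).1, ← (hl' s₀ (Or.inl hs₀)).1, h, sub_self]
  -- a general step
  have key : ∀ (g : ZMod n → ℤ) (i : ZMod n), (∀ s, (c s ≠ 0 ∨ c' s ≠ 0) →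
      ((g s : ℤ) : ZMod n) = i * s ∧ 4 * |g s| < (n : ℤ)) → ∀ u u' : ZMod n, c u ≠ 0 → c' u' ≠ 0 →
      (∀ t, c t ≠ 0 → g t ≤ g u) → (∀ t, c' t ≠ 0 → g t ≤ g u') → g u + g u' = 0 := by
    intro g i hg u u' hu hu' hmax hmax'
    have hd1 : (univ.filter (fun s => (if g s = g u then c s else 0) ≠ 0)) ⊆
        univ.filter (fun s => c s ≠ 0) := by
      intro s hs
      simp only [mem_filter, mem_univ, true_and, ne_eq, ite_eq_right_iff,
        Classical.not_imp] at hs ⊢
      exact hs.2
    have hd2 : (univ.filter (fun s => (if g s = g u' then c' s else 0) ≠ 0)) ⊆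
        univ.filter (fun s => c' s ≠ 0) := by
      intro s hs
      simp only [mem_filter, mem_univ, true_and, ne_eq, ite_eq_right_iff,
        Classical.not_imp] at hs ⊢
      exact hs.2
    obtain ⟨t, ht⟩ := no_zero_div K hq' _ (fun s => if g s = g u then c s else 0)
      (fun s => if g s = g u' then c' s else 0) le_rfl ((card_le_card hd1).trans hK)
      ((card_le_card hd2).trans hK')
      (by intro h
          have := congrFun h u
          simp only [if_true, Pi.zero_apply] at this
          exact hu this)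
      (by intro h
          have := congrFun h u'
          simp only [if_true, Pi.zero_apply] at this
          exact hu' this)
    obtain ⟨h1, h2, h3⟩ := top_part c c' i g hg (g u) (g u') hmax hmax' t ht
    have ht0 : t = 0 := by
      by_contra h0
      rw [hconv t, if_neg h0] at h1
      exact h1 rfl
    rw [ht0, mul_zero, ZMod.intCast_zmod_eq_zero_iff_dvd] at h2
    have h4 : |g u + g u'| < (n : ℤ) := by
      have := abs_nonneg (g u + g u')
      linarith
    exact Int.eq_zero_of_abs_lt_dvd h2 h4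
  obtain ⟨u, hu, humax⟩ := exists_max c hc l
  obtain ⟨u', hu', humax'⟩ := exists_max c' hc' l
  obtain ⟨v, hv, hvmax⟩ := exists_max c hc (fun s => - l s)
  obtain ⟨v', hv', hvmax'⟩ := exists_max c' hc' (fun s => - l s)
  have k1 := key l j hl' u u' hu hu' humax humax'
  have k2 := key (fun s => - l s) (-j) (by
    intro s hs
    have := hl' s hs
    constructor
    · push_cast
      rw [this.1]
      ring
    · simp only [abs_neg]
      exact this.2) v v' hv hv' hvmax hvmax'
  have e1 := humax s hcs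
  have e2 := humax s₀ hs₀
  have e3 := hvmax s hcs
  have e4 := hvmax s₀ hs₀
  have e5 := humax' v' hv'
  apply hlab
  omega

end Pool.Agent.WVal
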