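import Pool.Agent.WVal.GaussR
import Pool.Agent.WVal.Basic

/-!
Stickelberger lower bound for the Weil sums: a lower bound for all digit sums `S z + S(-dz)` gives divisibility
of all Weil sums `W(c)`, `c ≠ 0`, by a power of `π = ζ - 1`.

Proof (`g k = gs ω hω0 hζ k`, `q = |F| = p ^ n`, `GaussAux` of `GaussR.lean`). `π` is prime-like: if `π^T ∣ a * b` and
`ρ b ≠ 0` then `π^T ∣ a` (induction on `T`, `ρ π = 0`, `hker`, `R` is a domain).
0. `p_eq`: `(p : R) = π^(p-1) * v` with `ρ v ≠ 0`: `ζ` is a primitive `p`-th root of unity in the domain `R`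
   (`IsPrimitiveRoot`, `p` prime, `ζ ≠ 1`), `p = ∏_{1 ≤ j < p} (1 - ζ^j)`
   (e.g. `Polynomial.eval_one_cyclotomic_prime` with `cyclotomic = ∏ (X - μ)`, or `IsPrimitiveRoot.*` lemmas)
   `= π^(p-1) ∏ (-(∑_{l<j} ζ^l))`, and `ρ` of the last product is `± (p-1)! ≠ 0` in `F`.
1. For `k, k'` with `(q-1) ∣ k + k'`, `(q-1) ∤ k`: `g k * g k' * (±1) = q` where `±1 = χ(-1)`
   (`gaussSum_mul_gaussSum_eq_card`, `(om..)⁻¹ ^ k' = ((om ..)⁻¹ ^ k)⁻¹`, `psi` primitive because it is nontrivial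
   on a field, `gaussSum_mulShift` for `ψ⁻¹`).
2. `g k' ∣ (g 1)^(s')` with `s'` the digit sum of `k'` (`gs_digits`, `gs_congr`; digits from `digits_of_S`),
   `g 1 = π u`, `ρ u = -1` (`gs_one`). So with `g k' * w = π^s' u^s'`:
   `g k * π^s' * u^s' = ± q w = ± π^((p-1) n) v^n w`; cancel `π^s'` (`s' ≤ (p-1) n`):
   `π^((p-1) n - s') ∣ g k * u^s'`, so `π^((p-1) n - s') ∣ g k`. By `S_neg`, `s' = (p-1) S(-k) = (p-1) n - (p-1) S(k)`:
   `π^t ∣ g k` for every natural `t ≤ (p-1) S(k)`.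
3. Orthogonality (`χ_k = (om ..)⁻¹ ^ k`, `0 ≤ k < q-1`, all the characters): for `c ≠ 0`
   `(q-1) W(c) = ∑_{k<q-1} χ_k(c)⁻¹ ∑_{b ≠ 0} χ_k(b) W(b)` (geometric sum: for `y = b/c ≠ 1`, `∑_k χ_k(y) = 0` since
   `χ_1(y) ≠ 1` (apply `ρ`) and `χ_1(y)^(q-1) = 1`). The term `k = 0` is `∑_{b≠0} W(b) = q - W(0) = q`
   (`∑_b W(b) = q` by orthogonality of `ψ`, `W(0) = ∑ ψ(x^d) = 0` by `pow_bij`), divisible by `π^((p-1) n)`.
   For `k ≠ 0` choose `z` with `k + d z ≡ 0 mod q-1` (`d` invertible); `transform` gives `± g k * g z`, divisible by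
   `π^K` by 2 because `K ≤ (p-1)(S z + S(-d z))` and `S k = S(-d z)`; split `K = t₁ + t₂`, `t₁ ≤ (p-1) S(k)`,
   `t₂ ≤ (p-1) S(z)` naturals, possible since both `(p-1) S(k)`, `(p-1) S(z)` are naturals (`digits_of_S`).
   Finally `ρ (q - 1) = -1 ≠ 0`, so `π^K ∣ W(c)`.
-/

set_option autoImplicit false

namespace Pool.Agent.WVal

open Finset GaussAux

/-- `p = π^(p-1) v` with `v` outside the kernel of `ρ`. -/
theorem p_eq {p : ℕ} [Fact p.Prime] {F : Type} [Field F] [CharP F p]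
    {R : Type} [CommRing R] [IsDomain R] (ρ : R →+* F) (ζ : R)
    (hζ : ζ ^ p = 1) (hζ1 : ζ ≠ 1) (hρζ : ρ ζ = 1) :
    ∃ v : R, (p : R) = (ζ - 1) ^ (p - 1) * v ∧ ρ v ≠ 0 := by
  have hp : p.Prime := Fact.out
  have ho : orderOf ζ = p := orderOf_eq_prime hζ hζ1
  have hprim : IsPrimitiveRoot ζ (p - 1 + 1) := by
    have e : p - 1 + 1 = orderOf ζ := by rw [ho]; have := hp.pos; omega
    rw [e]; exact IsPrimitiveRoot.orderOf ζ
  have h1 := hprim.prod_one_sub_pow_eq_order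
  have hpc : ((p - 1 : ℕ) : R) + 1 = (p : R) := by
    have e : p = p - 1 + 1 := by have := hp.pos; omega
    conv_rhs => rw [e]
    push_cast
    rfl
  rw [hpc] at h1
  refine ⟨∏ k ∈ range (p - 1), -(∑ l ∈ range (k + 1), ζ ^ l), ?_, ?_⟩
  · have h2 : ∀ k ∈ range (p - 1), 1 - ζ ^ (k + 1) = (ζ - 1) * (-(∑ l ∈ range (k + 1), ζ ^ l)) := by
      intro k _
      have h3 := mul_geom_sum ζ (k + 1)
      linear_combination h3
    rw [← h1, Finset.prod_congr rfl h2, Finset.prod_mul_distrib, Finset.prod_const, card_range]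
  · rw [map_prod]
    apply Finset.prod_ne_zero_iff.2
    intro k hk
    rw [mem_range] at hk
    rw [map_neg, map_sum]
    simp only [map_pow, hρζ, one_pow, Finset.sum_const, Finset.card_range, nsmul_eq_mul, mul_one]
    rw [neg_ne_zero]
    intro h
    rw [CharP.cast_eq_zero_iff F p] at h
    have := Nat.le_of_dvd (Nat.succ_pos k) h
    omega

/-- `π` is prime-like. -/
theorem pi_dvd_of_mul {F : Type} [Field F]
    {R : Type} [CommRing R] [IsDomain R] (ρ : R →+* F) (ζ : R)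
    (hζ1 : ζ ≠ 1) (hρζ : ρ ζ = 1) (hker : ∀ r, ρ r = 0 → (ζ - 1) ∣ r) (T : ℕ) (a b : R)
    (hb : ρ b ≠ 0) (h : (ζ - 1) ^ T ∣ a * b) : (ζ - 1) ^ T ∣ a := by
  have hπ : ζ - 1 ≠ 0 := sub_ne_zero.2 hζ1
  have hρπ : ρ (ζ - 1) = 0 := by rw [map_sub, hρζ, map_one, sub_self]
  induction T generalizing a with
  | zero => rw [pow_zero]; exact one_dvd _
  | succ T ih =>
    obtain ⟨c, hc⟩ := h
    have h1 : ρ a * ρ b = 0 := by
      rw [← map_mul, hc, map_mul, map_pow, hρπ, zero_pow (Nat.succ_ne_zero T), zero_mul]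
    have h2 : ρ a = 0 := by
      rcases mul_eq_zero.1 h1 with h | h
      · exact h
      · exact absurd h hb
    obtain ⟨a', rfl⟩ := hker a h2
    have h3 : (ζ - 1) ^ T ∣ a' * b := by
      refine ⟨c, ?_⟩
      apply mul_left_cancel₀ hπ
      rw [← mul_assoc, hc, pow_succ']
      ring
    rw [pow_succ']
    exact mul_dvd_mul_left _ (ih a' h3)

section

variable {p : ℕ} [Fact p.Prime] {F : Type} [Field F] [Fintype F] [Algebra (ZMod p) F]
    {R : Type} [CommRing R] [IsDomain R]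

theorem sl_gs_neg (ρ : R →+* F) (ω : F →* R) (hω : ∀ x, ρ (ω x) = x) (hω0 : ω 0 = 0) {ζ : R}
    (hζ : ζ ^ p = 1) (hζ1 : ζ ≠ 1) {k m : ℕ} (hk : ¬ (Fintype.card F - 1) ∣ k)
    (hm : (Fintype.card F - 1) ∣ k + m) :
    ∃ e : R, e * e = 1 ∧ gs ω hω0 hζ k * gs ω hω0 hζ m = e * (Fintype.card F : R) := by
  set Y := (om ω hω0)⁻¹ with hY
  have hY1 : Y ^ k ≠ 1 := by
    rw [Ne, hY, pow_eq_one_iff' ρ ω hω hω0]
    exact hk
  have hY2 : (Y ^ k)⁻¹ = Y ^ m := by
    have h1 : Y ^ (k + m) = 1 := by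
      rw [hY, pow_eq_one_iff' ρ ω hω hω0]
      exact hm
    rw [pow_add] at h1
    exact inv_eq_of_mul_eq_one_right h1
  have hprim : (psi F hζ).IsPrimitive := AddChar.IsPrimitive.of_ne_one (psi_ne hζ hζ1)
  have h1 := gaussSum_mul_gaussSum_eq_card hY1 hprim
  have h2 := gaussSum_mulShift (Y ^ k)⁻¹ (psi F hζ) (-1 : Fˣ)
  have h3 : (((-1 : Fˣ)) : F) = -1 := by simp
  rw [h3] at h2
  have he : (Y ^ k)⁻¹ (-1) * (Y ^ k)⁻¹ (-1) = 1 := by
    rw [← map_mul]; norm_num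
  refine ⟨(Y ^ k)⁻¹ (-1), he, ?_⟩
  have h4 : gs ω hω0 hζ m = (Y ^ k)⁻¹ (-1) * gaussSum (Y ^ k)⁻¹ (psi F hζ)⁻¹ := by
    rw [AddChar.inv_mulShift, h2]
    unfold gs
    rw [← hY, ← hY2]
  rw [h4]
  have h5 : gs ω hω0 hζ k = gaussSum (Y ^ k) (psi F hζ) := rfl
  rw [h5, ← h1]
  ring

theorem sl_gs_dvd (ρ : R →+* F) (ζ : R) (ω : F →* R)
    (hζ : ζ ^ p = 1) (hζ1 : ζ ≠ 1) (hρζ : ρ ζ = 1) (hker : ∀ r, ρ r = 0 → (ζ - 1) ∣ r)
    (hω : ∀ x, ρ (ω x) = x) (hω0 : ω 0 = 0) (hq : 2 < Fintype.card F)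
    (k t : ℕ) (hk : ¬ (Fintype.card F - 1) ∣ k)
    (ht : (t : ℝ) ≤ ((p : ℝ) - 1) * S p (Module.finrank (ZMod p) F) (k : ℤ)) :
    (ζ - 1) ^ t ∣ gs ω hω0 hζ k := by
  have hp : p.Prime := Fact.out
  have hπ : ζ - 1 ≠ 0 := sub_ne_zero.2 hζ1
  haveI : CharP F p := charP_of_injective_algebraMap (algebraMap (ZMod p) F).injective p
  set n := Module.finrank (ZMod p) F with hn
  have hn1 : 1 ≤ n := Module.finrank_pos
  have hcard : Fintype.card F = p ^ n := by
    rw [Module.card_eq_pow_finrank (K := ZMod p) (V := F), ZMod.card]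
  have hN : ((Fintype.card F - 1 : ℕ) : ℤ) = (p : ℤ) ^ n - 1 := by
    rw [Nat.cast_sub (by omega), hcard]
    push_cast
    ring
  obtain ⟨v, hv, -⟩ := p_eq ρ ζ hζ hζ1 hρζ
  obtain ⟨u, hu, hρu⟩ := gs_one ρ ζ ω hζ hρζ hω hω0 hq
  obtain ⟨a, ha1, ha2⟩ := digits_of_S p n hp.two_le hn1 (-(k : ℤ))
  have hkz : ¬ ((p : ℤ) ^ n - 1) ∣ (k : ℤ) := by
    rw [← hN]
    intro h
    exact hk (by exact_mod_cast h)
  rw [S_neg p n hp.two_le hn1 _ hkz] at ha2
  set m := ∑ i ∈ range n, a i * p ^ i with hm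
  set s := ∑ i ∈ range n, a i with hs
  have hmk : (Fintype.card F - 1) ∣ k + m := by
    have h1 : ((Fintype.card F - 1 : ℕ) : ℤ) ∣ ((k + m : ℕ) : ℤ) := by
      rw [hN]
      have e : ((k + m : ℕ) : ℤ) = (∑ i ∈ range n, (a i : ℤ) * (p : ℤ) ^ i) - -(k : ℤ) := by
        rw [hm]; push_cast; ring
      rw [e]
      exact ha1
    exact_mod_cast h1
  obtain ⟨e, he, hkm⟩ := sl_gs_neg ρ ω hω hω0 hζ hζ1 hk hmk
  obtain ⟨w, hw⟩ := gs_digits ω hω0 hζ hζ1 n a
  have hp1 : (0 : ℝ) ≤ (p : ℝ) - 1 := by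
    have : (1 : ℝ) ≤ (p : ℝ) := by exact_mod_cast hp.one_lt.le
    linarith
  have hcp : (((p - 1 : ℕ)) : ℝ) = (p : ℝ) - 1 := by
    rw [Nat.cast_sub hp.one_lt.le, Nat.cast_one]
  have hsn : s + t ≤ (p - 1) * n := by
    have h1 : (((s + t : ℕ)) : ℝ) ≤ (((p - 1) * n : ℕ) : ℝ) := by
      push_cast [hcp]
      have h2 : (s : ℝ) = ((p : ℝ) - 1) * (n - S p n (k : ℤ)) := by rw [hs]; exact ha2
      rw [h2]
      nlinarith
    exact_mod_cast h1
  have h1 : (ζ - 1) ^ ((p - 1) * n) ∣ gs ω hω0 hζ k * ((ζ - 1) ^ s * u ^ s) := by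
    have h2 : gs ω hω0 hζ k * ((ζ - 1) ^ s * u ^ s) = (ζ - 1) ^ ((p - 1) * n) * (e * v ^ n * w) := by
      rw [← mul_pow, ← hu, hw, ← mul_assoc, hkm, hcard]
      push_cast
      rw [hv, mul_pow, ← pow_mul]
      ring
    exact ⟨_, h2⟩
  have h2 : (ζ - 1) ^ (s + t) ∣ (ζ - 1) ^ s * (gs ω hω0 hζ k * u ^ s) := by
    refine (pow_dvd_pow _ hsn).trans ?_
    have e2 : (ζ - 1) ^ s * (gs ω hω0 hζ k * u ^ s) = gs ω hω0 hζ k * ((ζ - 1) ^ s * u ^ s) := by ring
    rw [e2]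
    exact h1
  rw [pow_add] at h2
  have h3 := (mul_dvd_mul_iff_left (pow_ne_zero s hπ)).1 h2
  refine pi_dvd_of_mul ρ ζ hζ1 hρζ hker t _ (u ^ s) ?_ h3
  rw [map_pow, hρu]
  exact pow_ne_zero s (neg_ne_zero.2 one_ne_zero)

/-- orthogonality of the multiplicative characters -/
theorem sl_orth (ρ : R →+* F) (ω : F →* R) (hω : ∀ x, ρ (ω x) = x) (hω0 : ω 0 = 0)
    (hq : 2 < Fintype.card F) (W : F → R) (c : F) (hc : c ≠ 0) :
    ∑ k ∈ range (Fintype.card F - 1), ((om ω hω0)⁻¹ ^ k) c⁻¹ * ∑ b : F, ((om ω hω0)⁻¹ ^ k) b * W b =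
      ((Fintype.card F - 1 : ℕ) : R) * W c := by
  classical
  set Y := (om ω hω0)⁻¹ with hY
  have h1 : ∀ y : F, ∑ k ∈ range (Fintype.card F - 1), (Y ^ k) y =
      if y = 1 then ((Fintype.card F - 1 : ℕ) : R) else 0 := by
    intro y
    by_cases hy0 : y = 0
    · rw [hy0, if_neg zero_ne_one]
      apply Finset.sum_eq_zero
      intro k _
      exact MulChar.map_zero _
    · have h2 : ∀ k ∈ range (Fintype.card F - 1), (Y ^ k) y = (Y y) ^ k := by
        intro k _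
        have h3 := MulChar.pow_apply_coe Y k (Units.mk0 y hy0)
        rw [Units.val_mk0] at h3
        exact h3
      rw [Finset.sum_congr rfl h2]
      split_ifs with hy1
      · rw [hy1, map_one]
        simp
      · have h3 := mul_geom_sum (Y y) (Fintype.card F - 1)
        have h4 : (Y y) ^ (Fintype.card F - 1) = 1 := by
          rw [← map_pow, FiniteField.pow_card_sub_one_eq_one y hy0, map_one]
        rw [h4, sub_self] at h3
        rcases mul_eq_zero.1 h3 with h5 | h5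
        · exfalso
          have h6 : Y y = 1 := sub_eq_zero.1 h5
          have h7 := congrArg ρ h6
          rw [hY, rho_inv ρ ω hω hω0, map_one, inv_eq_one] at h7
          exact hy1 h7
        · exact h5
  calc ∑ k ∈ range (Fintype.card F - 1), (Y ^ k) c⁻¹ * ∑ b : F, (Y ^ k) b * W b
      = ∑ k ∈ range (Fintype.card F - 1), ∑ b : F, (Y ^ k) (c⁻¹ * b) * W b := by
        apply Finset.sum_congr rfl
        intro k _
        rw [Finset.mul_sum]
        apply Finset.sum_congr rfl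
        intro b _
        rw [map_mul]
        ring
    _ = ∑ b : F, (if c⁻¹ * b = 1 then ((Fintype.card F - 1 : ℕ) : R) else 0) * W b := by
        rw [Finset.sum_comm]
        apply Finset.sum_congr rfl
        intro b _
        rw [← Finset.sum_mul, h1]
    _ = ((Fintype.card F - 1 : ℕ) : R) * W c := by
        have h2 : ∀ b : F, (c⁻¹ * b = 1) ↔ b = c := by
          intro b
          constructor
          · intro h
            have := congrArg (fun y => c * y) h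
            simp only [mul_one] at this
            rw [← mul_assoc, mul_inv_cancel₀ hc, one_mul] at this
            exact this
          · intro h
            rw [h, inv_mul_cancel₀ hc]
        simp_rw [h2, ite_mul, zero_mul]
        rw [Finset.sum_ite_eq' Finset.univ c, if_pos (Finset.mem_univ c)]

/-- the sum of all the Weil sums, `c = 0` omitted -/
theorem sl_term_zero (ω : F →* R) (hω0 : ω 0 = 0) {ζ : R} (hζ : ζ ^ p = 1) (hζ1 : ζ ≠ 1)
    (hq : 2 < Fintype.card F) (d : ℕ) (hd : Nat.Coprime d (Fintype.card F - 1)) :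
    ∑ b : F, ((om ω hω0)⁻¹ ^ 0) b * ∑ x : F, psi F hζ (x ^ d - b * x) = (Fintype.card F : R) := by
  classical
  have hprim : (psi F hζ).IsPrimitive := AddChar.IsPrimitive.of_ne_one (psi_ne hζ hζ1)
  have hd0 : d ≠ 0 := by
    intro h
    rw [h, Nat.coprime_zero_left] at hd
    omega
  have h0 : ∑ x : F, psi F hζ (x ^ d - 0 * x) = 0 := by
    simp_rw [zero_mul, sub_zero]
    rw [Function.Bijective.sum_comp (pow_bij hd hq) (fun y => psi F hζ y)]
    exact AddChar.sum_eq_zero_of_ne_one (psi_ne hζ hζ1)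
  have h1 : ∀ b : F, ((om ω hω0)⁻¹ ^ 0) b * ∑ x : F, psi F hζ (x ^ d - b * x) =
      ∑ x : F, psi F hζ (x ^ d - b * x) := by
    intro b
    by_cases hb : b = 0
    · rw [hb, h0, mul_zero]
    · rw [pow_zero]
      have h3 := MulChar.one_apply_coe (R' := R) (Units.mk0 b hb)
      rw [Units.val_mk0] at h3
      rw [h3, one_mul]
  simp_rw [h1]
  rw [Finset.sum_comm]
  have h2 : ∀ x : F, ∑ b : F, psi F hζ (x ^ d - b * x) =
      if x = 0 then (Fintype.card F : R) else 0 := by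
    intro x
    have h3 : ∀ b : F, psi F hζ (x ^ d - b * x) = psi F hζ (x ^ d) * psi F hζ (b * (-x)) := by
      intro b
      rw [← AddChar.map_add_eq_mul]
      congr 1
      ring
    simp_rw [h3]
    rw [← Finset.mul_sum, AddChar.sum_mulShift _ hprim]
    by_cases hx : x = 0
    · rw [hx, neg_zero, if_pos rfl, if_pos rfl, zero_pow hd0, AddChar.map_zero_eq_one, one_mul]
    · rw [if_neg (neg_ne_zero.2 hx), if_neg hx]
      simp
  simp_rw [h2]
  rw [Finset.sum_ite_eq' Finset.univ (0 : F), if_pos (Finset.mem_univ _)]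

end

theorem stick_low {p : ℕ} [Fact p.Prime] {F : Type} [Field F] [Fintype F] [Algebra (ZMod p) F]
    {R : Type} [CommRing R] [IsDomain R] (ρ : R →+* F) (ζ : R) (ω : F →* R)
    (hζ : ζ ^ p = 1) (hζ1 : ζ ≠ 1) (hρζ : ρ ζ = 1) (hker : ∀ r, ρ r = 0 → (ζ - 1) ∣ r)
    (hω : ∀ x, ρ (ω x) = x) (hω0 : ω 0 = 0) (hq : 2 < Fintype.card F)
    (d : ℕ) (hd : Nat.Coprime d (Fintype.card F - 1)) (K : ℕ)
    (hKn : K ≤ (p - 1) * Module.finrank (ZMod p) F)
    (hK : ∀ z : ℤ, ¬ ((p : ℤ) ^ (Module.finrank (ZMod p) F) - 1) ∣ z →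
      (K : ℝ) ≤ ((p : ℝ) - 1) * (S p (Module.finrank (ZMod p) F) z +
        S p (Module.finrank (ZMod p) F) (-((d : ℤ) * z)))) :
    ∀ c : F, c ≠ 0 →
      (ζ - 1) ^ K ∣ ∑ x : F, ζ ^ (Algebra.trace (ZMod p) F (x ^ d - c * x)).val := by
  intro c hc
  have hp : p.Prime := Fact.out
  haveI : CharP F p := charP_of_injective_algebraMap (algebraMap (ZMod p) F).injective p
  have hn1 : 1 ≤ Module.finrank (ZMod p) F := Module.finrank_pos
  have hcard : Fintype.card F = p ^ Module.finrank (ZMod p) F := by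
    rw [Module.card_eq_pow_finrank (K := ZMod p) (V := F), ZMod.card]
  set n := Module.finrank (ZMod p) F with hn
  have hN : ((Fintype.card F - 1 : ℕ) : ℤ) = (p : ℤ) ^ n - 1 := by
    rw [Nat.cast_sub (by omega), hcard]
    push_cast
    ring
  set N := Fintype.card F - 1 with hNdef
  obtain ⟨v, hv, -⟩ := p_eq ρ ζ hζ hζ1 hρζ
  have hqR : (ζ - 1) ^ K ∣ (Fintype.card F : R) := by
    refine (pow_dvd_pow _ hKn).trans ⟨v ^ n, ?_⟩
    rw [hcard]
    push_cast
    rw [hv, mul_pow, ← pow_mul]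
  have hterm : ∀ k ∈ range N, (ζ - 1) ^ K ∣
      ∑ b : F, ((om ω hω0)⁻¹ ^ k) b * ∑ x : F, psi F hζ (x ^ d - b * x) := by
    intro k hk
    rw [mem_range] at hk
    rcases Nat.eq_zero_or_pos k with hk0 | hk0
    · rw [hk0, sl_term_zero ω hω0 hζ hζ1 hq d hd]
      exact hqR
    · have hkN : ¬ N ∣ k := fun h => by
        have := Nat.le_of_dvd hk0 h
        omega
      -- choose `z` with `k + d z ≡ 0`
      obtain ⟨z, hz⟩ : ∃ z : ℕ, k + d * z ≡ 0 [MOD N] := by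
        have hN0 : N ≠ 0 := by omega
        haveI : NeZero N := ⟨hN0⟩
        refine ⟨((-(k : ZMod N)) * (d : ZMod N)⁻¹).val, ?_⟩
        rw [← ZMod.natCast_eq_natCast_iff]
        push_cast
        rw [ZMod.natCast_zmod_val]
        have h1 : (d : ZMod N) * (d : ZMod N)⁻¹ = 1 := ZMod.coe_mul_inv_eq_one d hd
        linear_combination (-(k : ZMod N)) * h1
      have hzN : ¬ N ∣ z := by
        intro h
        apply hkN
        have h1 : N ∣ k + d * z := (Nat.modEq_zero_iff_dvd).1 hz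
        exact (Nat.dvd_add_left (h.mul_left d)).1 h1
      rw [transform ρ ζ ω hζ hω hω0 hq hd hzN hz]
      apply Dvd.dvd.mul_left
      have hkz : ¬ ((p : ℤ) ^ n - 1) ∣ (k : ℤ) := by
        rw [← hN]
        intro h
        exact hkN (by exact_mod_cast h)
      have hzz : ¬ ((p : ℤ) ^ n - 1) ∣ (z : ℤ) := by
        rw [← hN]
        intro h
        exact hzN (by exact_mod_cast h)
      have hSk : S p n (k : ℤ) = S p n (-((d : ℤ) * z)) := by
        apply S_congr p n hp.two_le hn1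
        rw [← hN]
        have h1 : N ∣ k + d * z := (Nat.modEq_zero_iff_dvd).1 hz
        have h2 : (N : ℤ) ∣ ((k + d * z : ℕ) : ℤ) := by exact_mod_cast h1
        have e : (k : ℤ) - -((d : ℤ) * z) = ((k + d * z : ℕ) : ℤ) := by push_cast; ring
        rw [e]
        exact h2
      obtain ⟨a, -, ha2⟩ := digits_of_S p n hp.two_le hn1 (k : ℤ)
      obtain ⟨b, -, hb2⟩ := digits_of_S p n hp.two_le hn1 (z : ℤ)
      have h1 : (ζ - 1) ^ (∑ i ∈ range n, a i) ∣ gs ω hω0 hζ k :=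
        sl_gs_dvd ρ ζ ω hζ hζ1 hρζ hker hω hω0 hq k _ hkN ha2.le
      have h2 : (ζ - 1) ^ (∑ i ∈ range n, b i) ∣ gs ω hω0 hζ z :=
        sl_gs_dvd ρ ζ ω hζ hζ1 hρζ hker hω hω0 hq z _ hzN hb2.le
      have h3 : K ≤ ∑ i ∈ range n, a i + ∑ i ∈ range n, b i := by
        have h4 := hK z hzz
        rw [← hSk, mul_add, ← ha2, ← hb2] at h4
        have h5 : (K : ℝ) ≤ ((∑ i ∈ range n, a i + ∑ i ∈ range n, b i : ℕ) : ℝ) := by
          rw [Nat.cast_add]
          linarith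
        exact_mod_cast h5
      refine (pow_dvd_pow _ h3).trans ?_
      rw [pow_add]
      exact mul_dvd_mul h1 h2
  have horth := sl_orth ρ ω hω hω0 hq (fun b => ∑ x : F, psi F hζ (x ^ d - b * x)) c hc
  have h1 : (ζ - 1) ^ K ∣ ((N : ℕ) : R) * ∑ x : F, psi F hζ (x ^ d - c * x) := by
    rw [← horth]
    apply Finset.dvd_sum
    intro k hk
    exact (hterm k hk).mul_left _
  rw [mul_comm] at h1
  have h2 := pi_dvd_of_mul ρ ζ hζ1 hρζ hker K _ ((N : ℕ) : R) ?_ h1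
  · exact h2
  · rw [map_natCast]
    have h3 : ((N : ℕ) : F) = -1 := by
      rw [hNdef, Nat.cast_sub (by omega), FiniteField.cast_card_eq_zero, Nat.cast_one, zero_sub]
    rw [h3]
    exact neg_ne_zero.2 one_ne_zero

end Pool.Agent.WVal
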