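import Pool.Agent.WVal.Avg
import Pool.Agent.WVal.Sparse
import Pool.Agent.WVal.Rect
import Pool.Agent.WVal.LiftId
import Pool.Agent.WVal.Rat

/-!
The digit theorem.
-/

set_option autoImplicit false

namespace Pool.Agent.WVal

open Finset

/-- if both `m d` and `m' e` (`d e ≡ 1`) have sparse bounded digit representations, `d` is rational. -/
theorem both_sparse (K C M : ℕ) : ∃ ℓ₀ : ℕ, ∀ p n : ℕ, 1 ≤ n → K * C ^ 2 + M ^ 2 + 2 ≤ p →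
    (∀ q : ℕ, q.Prime → q ∣ n → ℓ₀ ≤ q) → ∀ d e : ℤ, ((p : ℤ) ^ n - 1) ∣ e * d - 1 →
    ∀ m m' : ℕ, 1 ≤ m → m ≤ M → 1 ≤ m' → m' ≤ M → ∀ c c' : ℕ → ℤ,
    ((p : ℤ) ^ n - 1) ∣ (∑ x ∈ range n, c x * (p : ℤ) ^ x) - (m : ℤ) * d →
    ((range n).filter (fun x => c x ≠ 0)).card ≤ K → (∀ x ∈ range n, |c x| ≤ C) →
    ((p : ℤ) ^ n - 1) ∣ (∑ x ∈ range n, c' x * (p : ℤ) ^ x) - (m' : ℤ) * e →
    ((range n).filter (fun x => c' x ≠ 0)).card ≤ K → (∀ x ∈ range n, |c' x| ≤ C) →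
    ∃ s : ℕ, s < n ∧ ((p : ℤ) ^ n - 1) ∣ (m : ℤ) * d - c s * (p : ℤ) ^ s := by
  obtain ⟨ℓ₀, hℓ⟩ := monomial_of_conv K
  refine ⟨ℓ₀, ?_⟩
  intro p n hn hp hq d e hde m m' hm hmM hm' hm'M c c' hc hcK hcC hc' hc'K hc'C
  haveI : NeZero n := ⟨by omega⟩
  set c₁ : ZMod n → ℤ := fun s => c s.val with hc₁
  set c₂ : ZMod n → ℤ := fun s => c' s.val with hc₂
  have hsum₁ : ∑ s : ZMod n, c₁ s * (p : ℤ) ^ s.val = ∑ x ∈ range n, c x * (p : ℤ) ^ x :=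
    sum_zmod_val n (fun i => c i * (p : ℤ) ^ i)
  have hsum₂ : ∑ s : ZMod n, c₂ s * (p : ℤ) ^ s.val = ∑ x ∈ range n, c' x * (p : ℤ) ^ x :=
    sum_zmod_val n (fun i => c' i * (p : ℤ) ^ i)
  have hcard : ∀ f : ℕ → ℤ, (univ.filter (fun s : ZMod n => f s.val ≠ 0)).card ≤
      ((range n).filter (fun x => f x ≠ 0)).card := by
    intro f
    apply Finset.card_le_card_of_injOn (fun s : ZMod n => s.val)
    · intro s hs
      simp only [Finset.coe_filter, Finset.mem_univ, true_and, Set.mem_setOf_eq] at hs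
      simp only [Finset.coe_filter, Finset.mem_range, Set.mem_setOf_eq]
      exact ⟨ZMod.val_lt s, hs⟩
    · intro s _ t _ hst
      exact ZMod.val_injective n hst
  have hb₁ : ∀ s, |c₁ s| ≤ C := fun s => hcC _ (Finset.mem_range.2 (ZMod.val_lt s))
  have hb₂ : ∀ s, |c₂ s| ≤ C := fun s => hc'C _ (Finset.mem_range.2 (ZMod.val_lt s))
  set κ : ℤ := (m : ℤ) * m' with hκ
  have hκ0 : κ ≠ 0 := by
    have h1 : (0 : ℤ) < m := by exact_mod_cast hm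
    have h2 : (0 : ℤ) < m' := by exact_mod_cast hm'
    have := mul_pos h1 h2
    rw [hκ]; exact this.ne'
  have hbound : ∀ t : ZMod n, |(∑ s : ZMod n, c₁ s * c₂ (t - s)) - (if t = 0 then κ else 0)| ≤
      ((K * C ^ 2 + M ^ 2 : ℕ) : ℤ) := by
    intro t
    have h1 : |∑ s : ZMod n, c₁ s * c₂ (t - s)| ≤ (K : ℤ) * C ^ 2 := by
      have e1 : ∑ s : ZMod n, c₁ s * c₂ (t - s) =
          ∑ s ∈ univ.filter (fun s : ZMod n => c₁ s ≠ 0), c₁ s * c₂ (t - s) := by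
        rw [Finset.sum_filter]
        refine Finset.sum_congr rfl fun s _ => ?_
        by_cases h0 : c₁ s = 0 <;> simp [h0]
      rw [e1]
      calc |∑ s ∈ univ.filter (fun s : ZMod n => c₁ s ≠ 0), c₁ s * c₂ (t - s)|
          ≤ ∑ s ∈ univ.filter (fun s : ZMod n => c₁ s ≠ 0), |c₁ s * c₂ (t - s)| :=
            Finset.abs_sum_le_sum_abs _ _
        _ ≤ ∑ s ∈ univ.filter (fun s : ZMod n => c₁ s ≠ 0), (C : ℤ) ^ 2 := by
            refine Finset.sum_le_sum fun s _ => ?_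
            rw [abs_mul, sq]
            exact mul_le_mul (hb₁ s) (hb₂ _) (abs_nonneg _) (by positivity)
        _ = ((univ.filter (fun s : ZMod n => c₁ s ≠ 0)).card : ℤ) * C ^ 2 := by
            rw [Finset.sum_const, nsmul_eq_mul]
        _ ≤ (K : ℤ) * C ^ 2 := by
            have : ((univ.filter (fun s : ZMod n => c₁ s ≠ 0)).card : ℤ) ≤ K := by
              exact_mod_cast (hcard c).trans hcK
            exact mul_le_mul_of_nonneg_right this (by positivity)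
    have h2 : |(if t = 0 then κ else 0 : ℤ)| ≤ (M : ℤ) ^ 2 := by
      split_ifs
      · rw [hκ, abs_mul, Nat.abs_cast, Nat.abs_cast, sq]
        have h3 : (m : ℤ) ≤ M := by exact_mod_cast hmM
        have h4 : (m' : ℤ) ≤ M := by exact_mod_cast hm'M
        exact mul_le_mul h3 h4 (by positivity) (by positivity)
      · simp
    push_cast
    exact (abs_sub _ _).trans (add_le_add h1 h2)
  have hdvd : ((p : ℤ) ^ n - 1) ∣ (∑ s : ZMod n, c₁ s * (p : ℤ) ^ s.val) *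
      (∑ s : ZMod n, c₂ s * (p : ℤ) ^ s.val) - κ := by
    rw [hsum₁, hsum₂]
    set A := ∑ x ∈ range n, c x * (p : ℤ) ^ x
    set A' := ∑ x ∈ range n, c' x * (p : ℤ) ^ x
    have e1 : A * A' - κ = (A - m * d) * A' + (m * d) * (A' - m' * e) + (m * m') * (e * d - 1) := by
      rw [hκ]; ring
    rw [e1]
    exact dvd_add (dvd_add (Dvd.dvd.mul_right hc _) (Dvd.dvd.mul_left hc' _))
      (Dvd.dvd.mul_left hde _)
  have hid := fun t => lift_identity p n (K * C ^ 2 + M ^ 2) c₁ c₂ κ hbound hp hdvd t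
  obtain ⟨s₀, hs₀⟩ := hℓ n hq c₁ c₂ ((hcard c).trans hcK) ((hcard c').trans hc'K) κ hκ0 hid
  refine ⟨s₀.val, ZMod.val_lt s₀, ?_⟩
  have e2 : ∑ s : ZMod n, c₁ s * (p : ℤ) ^ s.val = c₁ s₀ * (p : ℤ) ^ s₀.val := by
    apply Finset.sum_eq_single s₀
    · intro s _ hs
      rw [hs₀ s hs, zero_mul]
    · intro h; exact absurd (Finset.mem_univ _) h
  rw [← hsum₁, e2] at hc
  have e3 : (m : ℤ) * d - c s₀.val * (p : ℤ) ^ s₀.val = -(c₁ s₀ * (p : ℤ) ^ s₀.val - m * d) := by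
    simp only [hc₁]; ring
  rw [e3]
  exact (dvd_neg).2 hc

theorem digit_theorem (ε : ℝ) (hε : 0 < ε) : ∃ ℓ₀ p₀ : ℕ, ∀ p n : ℕ, p₀ ≤ p → 1 ≤ n →
    (∀ q : ℕ, q.Prime → q ∣ n → ℓ₀ ≤ q) → ∀ d : ℤ, IsCoprime d ((p : ℤ) ^ n - 1) →
    (∀ k : ℕ, ¬ ((p : ℤ) ^ n - 1) ∣ d - (p : ℤ) ^ k) →
    ∃ z : ℤ, ¬ ((p : ℤ) ^ n - 1) ∣ z ∧ S p n z + S p n (-(d * z)) ≤ (1 / 2 + ε) * n := by
  set ε₁ : ℝ := min ε 1 / 4 with hε₁
  have hmin : 0 < min ε 1 := lt_min hε one_pos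
  have hε₁0 : 0 < ε₁ := by rw [hε₁]; positivity
  have hε₁1 : ε₁ ≤ 1 / 4 := by
    rw [hε₁]
    have := min_le_right ε 1
    linarith
  have hε₁ε : 4 * ε₁ ≤ ε := by
    rw [hε₁]
    have := min_le_left ε 1
    linarith
  obtain ⟨M, ε', hε'0, havg⟩ := avg ε₁ hε₁0
  obtain ⟨K, C, hsparse⟩ := sparse (ε₁ / 8) ε' (by positivity) hε'0
  obtain ⟨ℓ₀, hboth⟩ := both_sparse K C M
  obtain ⟨p₁, hrat⟩ := rational_case (max M C) ε hε
  obtain ⟨A, hA⟩ := exists_nat_ge (8 / ε₁ ^ 2)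
  refine ⟨ℓ₀, p₁ + K * C ^ 2 + M ^ 2 + M + A + 8, ?_⟩
  intro p n hp₀ hn hq d hcop hnd
  have hK0 : 0 ≤ K * C ^ 2 := Nat.zero_le _
  have hM0 : 0 ≤ M ^ 2 := Nat.zero_le _
  have hp : 2 ≤ p := by omega
  have hN := N_pos p n hp hn
  have hnR : (1 : ℝ) ≤ n := by exact_mod_cast hn
  have hpA : (A : ℝ) + 8 ≤ p := by
    have : A + 8 ≤ p := by omega
    exact_mod_cast this
  have hp0R : (0 : ℝ) < p := by
    have : (0 : ℝ) ≤ A := by positivity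
    linarith
  have hεp : 8 / ε₁ ^ 2 ≤ p := by linarith
  have hεp2 : 8 ≤ ε₁ ^ 2 * p := by
    rw [div_le_iff₀ (by positivity)] at hεp
    linarith
  have hεp1 : 32 ≤ ε₁ * p := by nlinarith
  set h : ℕ := ⌊ε₁ * p / 4⌋₊ with hh
  have hh1 : (h : ℝ) ≤ ε₁ * p / 4 := Nat.floor_le (by positivity)
  have hh2 : ε₁ * p / 4 < (h : ℝ) + 1 := Nat.lt_floor_add_one _
  have hh3 : ε₁ / 8 * (p : ℝ) ≤ h := by linarith
  have hh4 : (1 : ℝ) ≤ h := by linarith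
  have hh4' : 1 ≤ h := by exact_mod_cast hh4
  have hL1 : 1 ≤ 2 * h := by omega
  have hLp : 2 * h + 1 ≤ p := by
    have : (2 : ℝ) * h + 1 ≤ p := by nlinarith
    exact_mod_cast this
  have hLε : (1 / 2 + 2 * ε₁) ≤ ε₁ * ((2 * h : ℕ) : ℝ) := by
    push_cast
    nlinarith
  have hLn : (((2 * h : ℕ) : ℝ) - 1) * n / ((p : ℝ) - 1) ≤ ε₁ * n := by
    have hp1 : (0 : ℝ) < (p : ℝ) - 1 := by linarith
    rw [div_le_iff₀ hp1]
    push_cast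
    have : (2 : ℝ) * h - 1 ≤ ε₁ * ((p : ℝ) - 1) := by nlinarith
    nlinarith
  -- one-sided consequence
  have hone : ∀ e : ℤ, (∀ m : ℕ, 1 ≤ m → m ≤ M →
      ∏ x ∈ range n, ‖G (2 * h) (((p : ℝ) ^ x * ((m : ℝ) * (e : ℝ))) / ((p : ℝ) ^ n - 1))‖
        ≤ ε' * ((2 * h : ℕ) : ℝ) ^ n) →
      ∃ z : ℤ, ¬ ((p : ℤ) ^ n - 1) ∣ z ∧ S p n z + S p n (-(e * z)) ≤ (1 / 2 + ε) * n := by
    intro e he
    obtain ⟨z, hz, hz1, hz2⟩ := havg p n (2 * h) hp hn hL1 hLp hLε e he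
    refine ⟨z, hz, ?_⟩
    have := hz1.trans hLn
    nlinarith
  obtain ⟨e, f, hef⟩ := id hcop
  have hed : ((p : ℤ) ^ n - 1) ∣ e * d - 1 := ⟨-f, by linarith⟩
  by_cases hA1 : ∀ m : ℕ, 1 ≤ m → m ≤ M →
      ∏ x ∈ range n, ‖G (2 * h) (((p : ℝ) ^ x * ((m : ℝ) * (d : ℝ))) / ((p : ℝ) ^ n - 1))‖
        ≤ ε' * ((2 * h : ℕ) : ℝ) ^ n
  · exact hone d hA1
  by_cases hB1 : ∀ m : ℕ, 1 ≤ m → m ≤ M →
      ∏ x ∈ range n, ‖G (2 * h) (((p : ℝ) ^ x * ((m : ℝ) * (e : ℝ))) / ((p : ℝ) ^ n - 1))‖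
        ≤ ε' * ((2 * h : ℕ) : ℝ) ^ n
  · exact swap p n hp hn d e hed _ (hone e hB1)
  push_neg at hA1 hB1
  obtain ⟨m, hm1, hmM, hm⟩ := hA1
  obtain ⟨m', hm'1, hm'M, hm'⟩ := hB1
  have hmd : ε' * ((2 * h : ℕ) : ℝ) ^ n <
      ∏ x ∈ range n, ‖G (2 * h) ((p : ℝ) ^ x * (((m : ℤ) * d : ℤ) : ℝ) / ((p : ℝ) ^ n - 1))‖ := by
    push_cast at hm ⊢
    exact hm
  have hme : ε' * ((2 * h : ℕ) : ℝ) ^ n <
      ∏ x ∈ range n, ‖G (2 * h) ((p : ℝ) ^ x * (((m' : ℤ) * e : ℤ) : ℝ) / ((p : ℝ) ^ n - 1))‖ := by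
    push_cast at hm' ⊢
    exact hm'
  obtain ⟨c, hc1, hc2, hc3⟩ := hsparse p n h hp hn hh3 _ hmd
  obtain ⟨c', hc'1, hc'2, hc'3⟩ := hsparse p n h hp hn hh3 _ hme
  obtain ⟨s, hs, hsd⟩ := hboth p n hn (by omega) hq d e hed m m' hm1 hmM hm'1 hm'M c c'
    hc1 hc2 hc3 hc'1 hc'2 hc'3
  apply hrat p n (by omega) hn d (c s) m s hm1 (hmM.trans (le_max_left _ _)) _ _ hsd hnd hcop
  · refine (hc3 s (Finset.mem_range.2 hs)).trans ?_
    exact_mod_cast le_max_right M C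
  · intro h0
    rw [h0, zero_mul, sub_zero] at hsd
    have h1 : ((p : ℤ) ^ n - 1) ∣ (m : ℤ) := hcop.symm.dvd_of_dvd_mul_right hsd
    have h2 := Int.le_of_dvd (by exact_mod_cast hm1) h1
    have h3 : (p : ℤ) ≤ (p : ℤ) ^ n := by
      calc (p : ℤ) = (p : ℤ) ^ 1 := (pow_one _).symm
        _ ≤ (p : ℤ) ^ n := pow_le_pow_right₀ (by omega) hn
    have h4 : (m : ℤ) ≤ M := by exact_mod_cast hmM
    have h5 : (M : ℤ) + 8 ≤ p := by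
      have : M + 8 ≤ p := by omega
      exact_mod_cast this
    omega

end Pool.Agent.WVal
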