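import Pool.Agent.WVal.Final
import Pool.Agent.WVal.Lift
import Pool.Agent.WVal.NihoDigit

/-!
The digit theorem for degrees whose odd prime factors are large, and the final theorem in this generality.
-/

set_option autoImplicit false

namespace Pool.Agent.WVal

open Finset

theorem digit_theorem_two (ε : ℝ) (hε : 0 < ε) : ∃ ℓ₀ p₀ : ℕ, ∀ p n : ℕ, p.Prime → p₀ ≤ p → 1 ≤ n →
    (∀ q : ℕ, q.Prime → q ≠ 2 → q ∣ n → ℓ₀ ≤ q) → ∀ d : ℤ, IsCoprime d ((p : ℤ) ^ n - 1) →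
    (∀ k : ℕ, ¬ ((p : ℤ) ^ n - 1) ∣ d - (p : ℤ) ^ k) →
    ∃ z : ℤ, ¬ ((p : ℤ) ^ n - 1) ∣ z ∧ S p n z + S p n (-(d * z)) ≤ (1 / 2 + ε) * n := by
  obtain ⟨ℓ₀, p₀, hD⟩ := digit_theorem ε hε
  refine ⟨ℓ₀, p₀, ?_⟩
  intro p n hp hp₀ hn hq
  haveI : Fact p.Prime := ⟨hp⟩
  have hp2 : 2 ≤ p := hp.two_le
  induction n using Nat.strong_induction_on with
  | _ n ih =>
    intro d hcop hnd
    by_cases h2 : 2 ∣ n
    · obtain ⟨k, rfl⟩ := h2
      have hk : 1 ≤ k := by omega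
      by_cases hdeg : ∀ j : ℕ, ¬ ((p : ℤ) ^ k - 1) ∣ d - (p : ℤ) ^ j
      · have hkN : ((p : ℤ) ^ k - 1) ∣ (p : ℤ) ^ (2 * k) - 1 := ⟨(p : ℤ) ^ k + 1, by ring⟩
        have hcopk : IsCoprime d ((p : ℤ) ^ k - 1) := hcop.of_isCoprime_of_dvd_right hkN
        obtain ⟨z, hz, hS⟩ := ih k (by omega) hk
          (fun q hq1 hq2 hq3 => hq q hq1 hq2 (Dvd.dvd.mul_left hq3 2)) d hcopk hdeg
        refine ⟨z * ((p : ℤ) ^ k + 1), fun h => hz (lift_dvd p k hp2 z h), ?_⟩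
        have e : -(d * (z * ((p : ℤ) ^ k + 1))) = (-(d * z)) * ((p : ℤ) ^ k + 1) := by ring
        rw [e, S_lift p k hp2 hk, S_lift p k hp2 hk]
        push_cast
        linarith
      · push Not at hdeg
        obtain ⟨j, hj⟩ := hdeg
        obtain ⟨z, hz, hS⟩ := niho_digit p k hk d hcop j hj hnd
        refine ⟨z, hz, hS.trans ?_⟩
        push_cast
        have : (0 : ℝ) ≤ k := by positivity
        nlinarith
    · apply hD p n hp₀ hn _ d hcop hnd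
      intro q hq1 hq2
      apply hq q hq1 _ hq2
      rintro rfl
      exact h2 hq2

theorem weil_valuation_two (ε : ℝ) (hε : 0 < ε) : ∃ ℓ₀ p₀ : ℕ,
    ∀ (p : ℕ) [Fact p.Prime] (F : Type) [Field F] [Fintype F] [Algebra (ZMod p) F] (d : ℕ),
      p₀ ≤ p → (∀ q : ℕ, q.Prime → q ≠ 2 → q ∣ Module.finrank (ZMod p) F → ℓ₀ ≤ q) →
      Nat.Coprime d (Fintype.card F - 1) →
      (¬ ∃ k : ℕ, d ≡ p ^ k [MOD Fintype.card F - 1]) →
      ∃ a : F, a ≠ 0 ∧ ∃ m : ℤ, m ≠ 0 ∧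
        (m : ℂ) = ∏ j ∈ Finset.Ico 1 p,
          ∑ x : F, Complex.exp (2 * (Real.pi : ℂ) * Complex.I * (j : ℂ) *
            ((Algebra.trace (ZMod p) F (x ^ d - a * x)).val : ℂ) / (p : ℂ)) ∧
        (padicValInt p m : ℝ) ≤
          ((p : ℝ) - 1) * (1 / 2 + ε) * (Module.finrank (ZMod p) F : ℝ) := by
  obtain ⟨ℓ₀, p₀, hD⟩ := digit_theorem_two ε hε
  refine ⟨ℓ₀, p₀ + 3, ?_⟩
  intro p hpf F _ _ _ d hp₀ hq hd hnd
  have hp : p.Prime := Fact.out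
  set n := Module.finrank (ZMod p) F with hn
  have hn1 : 1 ≤ n := Module.finrank_pos
  have hcard : Fintype.card F = p ^ n := by
    have := Module.card_eq_pow_finrank (K := ZMod p) (V := F)
    rwa [ZMod.card] at this
  have hppow : p ≤ p ^ n := by
    calc p = p ^ 1 := (pow_one _).symm
      _ ≤ p ^ n := Nat.pow_le_pow_right hp.pos hn1
  have hNcast : ((Fintype.card F - 1 : ℕ) : ℤ) = (p : ℤ) ^ n - 1 := by
    rw [Nat.cast_sub (by omega), hcard]; push_cast; ring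
  have hcop : IsCoprime (d : ℤ) ((p : ℤ) ^ n - 1) := by
    rw [← hNcast]
    exact Nat.isCoprime_iff_coprime.2 hd
  have hnd' : ∀ k : ℕ, ¬ ((p : ℤ) ^ n - 1) ∣ (d : ℤ) - (p : ℤ) ^ k := by
    intro k hk
    apply hnd
    refine ⟨k, ?_⟩
    apply Nat.ModEq.symm
    rw [Nat.modEq_iff_dvd, hNcast]
    push_cast
    exact hk
  obtain ⟨z, hz, hS⟩ := hD p n hp (by omega) hn1 hq (d : ℤ) hcop hnd'
  obtain ⟨a, ha, m, hm, hmC, hval⟩ := weil_of_digit (F := F) (by omega) d hd ((1 / 2 + ε) * n) z hz hS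
  exact ⟨a, ha, m, hm, hmC, by rw [mul_assoc]; exact hval⟩

end Pool.Agent.WVal
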